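import Mathlib

/-!
Gradient percolation: the computations with real numbers.
-/

set_option maxHeartbeats 1000000

namespace Pool.Agent.H940.GP

theorem rpow_le_self' {x r : ℝ} (h0 : 0 < x) (h1 : x ≤ 1) (hr : 1 ≤ r) : x ^ r ≤ x := by
  calc x ^ r ≤ x ^ (1:ℝ) := Real.rpow_le_rpow_of_exponent_ge h0 h1 hr
    _ = x := Real.rpow_one x

theorem self_le_rpow' {x r : ℝ} (h1 : 1 ≤ x) (hr : 1 ≤ r) : x ≤ x ^ r := by
  calc x = x ^ (1:ℝ) := (Real.rpow_one x).symm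
    _ ≤ x ^ r := Real.rpow_le_rpow_of_exponent_le h1 hr

theorem key_up {c1 C1 A M Λ R ℓ N43 k : ℝ} (hc1 : 0 < c1) (hC1 : 0 < C1) (hA2 : 2 ≤ A)
    (hAc : 4 ≤ A * c1) (hAC : 8 * C1 ≤ A) (hM0 : 0 < M) (hℓ0 : 0 < ℓ) (hN43 : 0 < N43)
    (hΛ1 : 1 ≤ Λ) (hR1 : 1 ≤ R) (hRM : M ≤ R) (hMℓ : M ≤ ℓ) (hexp : Real.exp Λ = ℓ / M)
    (hR73 : R ^ (7/3 : ℝ) = N43 * Λ) (hk : A * R / 2 ≤ k) :
    C1 * (ℓ / k + 1) * Real.exp (-(c1 * (k ^ (7/3 : ℝ) / N43))) ≤ A / 4 * Real.exp (-Λ) := by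
  have hA0 : 0 < A := by linarith
  have hR0 : 0 < R := by linarith
  have hMk : M ≤ k := by nlinarith
  have k1 : ℓ / k ≤ ℓ / M := div_le_div_of_nonneg_left hℓ0.le hM0 hMk
  have k2 : 1 ≤ ℓ / M := by rw [le_div_iff₀ hM0]; linarith
  have k3 : 2 * Λ ≤ c1 * (k ^ (7/3 : ℝ) / N43) := by
    have e1 : (A * R / 2) ^ (7/3 : ℝ) ≤ k ^ (7/3 : ℝ) :=
      Real.rpow_le_rpow (by positivity) hk (by norm_num)
    have e2 : (A * R / 2) ^ (7/3 : ℝ) = (A / 2) ^ (7/3 : ℝ) * (N43 * Λ) := by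
      rw [← hR73, ← Real.mul_rpow (by linarith) (by linarith)]
      congr 1; ring
    have e3 : A / 2 ≤ (A / 2) ^ (7/3 : ℝ) := self_le_rpow' (by linarith) (by norm_num)
    have e4 : A / 2 * (N43 * Λ) ≤ k ^ (7/3 : ℝ) := by
      refine le_trans ?_ e1
      rw [e2]
      exact mul_le_mul_of_nonneg_right e3 (by positivity)
    have e5 : A / 2 * Λ ≤ k ^ (7/3 : ℝ) / N43 := by
      rw [le_div_iff₀ hN43]
      linarith
    have e7 := mul_le_mul_of_nonneg_left e5 hc1.le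
    have e8 : 4 * Λ ≤ A * c1 * Λ := mul_le_mul_of_nonneg_right hAc (by linarith)
    linarith
  have k4 : Real.exp (-(c1 * (k ^ (7/3 : ℝ) / N43))) ≤ Real.exp (-Λ) * Real.exp (-Λ) := by
    rw [← Real.exp_add]
    apply Real.exp_le_exp.mpr
    linarith
  have k5 : Real.exp (-Λ) * (ℓ / M) = 1 := by
    rw [← hexp, ← Real.exp_add]; simp
  have kE : 0 < Real.exp (-Λ) := Real.exp_pos _
  calc C1 * (ℓ / k + 1) * Real.exp (-(c1 * (k ^ (7/3 : ℝ) / N43)))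
      ≤ C1 * (2 * (ℓ / M)) * (Real.exp (-Λ) * Real.exp (-Λ)) := by
        apply mul_le_mul _ k4 (Real.exp_pos _).le (by positivity)
        apply mul_le_mul_of_nonneg_left _ hC1.le
        linarith
    _ = 2 * C1 * Real.exp (-Λ) * (Real.exp (-Λ) * (ℓ / M)) := by ring
    _ = 2 * C1 * Real.exp (-Λ) := by rw [k5, mul_one]
    _ ≤ A / 4 * Real.exp (-Λ) := by
        apply mul_le_mul_of_nonneg_right _ kE.le
        linarith

theorem key_low {c2 C2 a A M Λ L R ℓ N43 k : ℝ} (hc2 : 0 < c2) (hC2 : 0 < C2) (ha0 : 0 < a)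
    (ha1 : a ≤ 1/16) (ha2 : C2 * (2 * a) ≤ 1/4) (hAd : 128 / c2 ^ 2 ≤ A) (hM0 : 0 < M)
    (hN43 : 0 < N43) (hΛ1 : 1 ≤ Λ) (hL1 : 1 ≤ L) (hLΛ : L ≤ Λ) (hR : R = M * L)
    (hMexp : M * Real.exp Λ = ℓ) (hR73 : R ^ (7/3 : ℝ) = N43 * Λ) (hk0 : 0 < k)
    (hk : k ≤ 2 * (a * R)) :
    Real.exp (-(c2 * (ℓ / k) * Real.exp (-(C2 * (k ^ (7/3 : ℝ) / N43))))) ≤
      A / 4 * Real.exp (-Λ) := by
  have hR0 : 0 < R := by rw [hR]; positivity
  have k1 : C2 * (k ^ (7/3 : ℝ) / N43) ≤ Λ / 4 := by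
    have e1 : k ^ (7/3 : ℝ) ≤ (2 * a * R) ^ (7/3 : ℝ) :=
      Real.rpow_le_rpow hk0.le (by linarith) (by norm_num)
    have e2 : (2 * a * R) ^ (7/3 : ℝ) = (2 * a) ^ (7/3 : ℝ) * (N43 * Λ) := by
      rw [← hR73, ← Real.mul_rpow (by linarith) (by linarith)]
    have e3 : (2 * a) ^ (7/3 : ℝ) ≤ 2 * a :=
      rpow_le_self' (by linarith) (by linarith) (by norm_num)
    have e4 : k ^ (7/3 : ℝ) / N43 ≤ 2 * a * Λ := by
      rw [div_le_iff₀ hN43]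
      refine e1.trans ?_
      rw [e2]
      have := mul_le_mul_of_nonneg_right e3 (by positivity : 0 ≤ N43 * Λ)
      linarith
    have e5 := mul_le_mul_of_nonneg_left e4 hC2.le
    have e6 := mul_le_mul_of_nonneg_right ha2 (by linarith : 0 ≤ Λ)
    linarith
  have k2 : Real.exp (-(Λ / 4)) ≤ Real.exp (-(C2 * (k ^ (7/3 : ℝ) / N43))) :=
    Real.exp_le_exp.mpr (by linarith)
  have k3 : L ≤ 4 * Real.exp (Λ / 4) := by
    have := Real.add_one_le_exp (Λ / 4)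
    linarith
  have k4 : Real.exp (3 * Λ / 4) / 4 ≤ ℓ / k := by
    rw [div_le_div_iff₀ (by norm_num) hk0]
    have e0 : 2 * (a * R) ≤ R := by nlinarith
    have e1 : k ≤ M * L := by rw [← hR]; linarith
    have e2 : k ≤ M * (4 * Real.exp (Λ / 4)) :=
      e1.trans (mul_le_mul_of_nonneg_left k3 hM0.le)
    have e3 : Real.exp (3 * Λ / 4) * Real.exp (Λ / 4) = Real.exp Λ := by
      rw [← Real.exp_add]; congr 1; ring
    calc Real.exp (3 * Λ / 4) * k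
        ≤ Real.exp (3 * Λ / 4) * (M * (4 * Real.exp (Λ / 4))) :=
          mul_le_mul_of_nonneg_left e2 (Real.exp_pos _).le
      _ = M * (Real.exp (3 * Λ / 4) * Real.exp (Λ / 4)) * 4 := by ring
      _ = ℓ * 4 := by rw [e3, hMexp]
  have k5 : c2 / 4 * Real.exp (Λ / 2) ≤
      c2 * (ℓ / k) * Real.exp (-(C2 * (k ^ (7/3 : ℝ) / N43))) := by
    have e1 : Real.exp (3 * Λ / 4) * Real.exp (-(Λ / 4)) = Real.exp (Λ / 2) := by
      rw [← Real.exp_add]; congr 1; ring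
    calc c2 / 4 * Real.exp (Λ / 2)
        = (c2 * (Real.exp (3 * Λ / 4) / 4)) * Real.exp (-(Λ / 4)) := by
          rw [← e1]; ring
      _ ≤ _ := by
          apply mul_le_mul (mul_le_mul_of_nonneg_left k4 hc2.le) k2 (Real.exp_pos _).le
          exact mul_nonneg hc2.le ((by positivity : 0 ≤ Real.exp (3 * Λ / 4) / 4).trans k4)
  obtain ⟨x, hx⟩ : ∃ x : ℝ, x = c2 / 4 * Real.exp (Λ / 2) := ⟨_, rfl⟩
  rw [← hx] at k5
  have hx0 : 0 < x := by rw [hx]; positivity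
  have k6 : Real.exp (-x) ≤ 2 / x ^ 2 := by
    have e1 := Real.quadratic_le_exp_of_nonneg hx0.le
    rw [Real.exp_neg, ← one_div, div_le_div_iff₀ (Real.exp_pos _) (by positivity)]
    nlinarith
  have k7 : 2 / x ^ 2 = 32 / c2 ^ 2 * Real.exp (-Λ) := by
    have e1 : Real.exp (Λ / 2) ^ 2 = Real.exp Λ := by
      rw [← Real.exp_nat_mul]; congr 1; push_cast; ring
    rw [hx, mul_pow, e1, Real.exp_neg]
    have := Real.exp_pos Λ
    field_simp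
    norm_num
  calc _ ≤ Real.exp (-x) := Real.exp_le_exp.mpr (by linarith)
    _ ≤ 32 / c2 ^ 2 * Real.exp (-Λ) := by rw [← k7]; exact k6
    _ ≤ A / 4 * Real.exp (-Λ) := by
        apply mul_le_mul_of_nonneg_right _ (Real.exp_pos _).le
        have e2 : 32 / c2 ^ 2 = 128 / c2 ^ 2 / 4 := by ring
        rw [e2]
        linarith

end Pool.Agent.H940.GP
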