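import Pool.Agent.H940.GP.Final
import Pool.Agent.H940.GP.Real

/-!
Gradient percolation: the order of magnitude of the front.
-/

set_option maxHeartbeats 1000000

namespace Pool.Agent.H940.GP

open H974 Finset

/-- the scale of the front -/
noncomputable def RR (N ℓ : ℕ) : ℝ :=
  (N:ℝ)^(4/7 : ℝ) * (Real.log (ℓ / (N:ℝ)^(4/7 : ℝ)))^(3/7 : ℝ)

/-- The real quantities attached to `N` and `ℓ`. -/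
theorem reals {a A Λ0 : ℝ} (ha0 : 0 < a) (hΛ01 : 1 ≤ Λ0) (hΛ0a : a ^ (-(7/3) : ℝ) ≤ Λ0)
    (hAe : Real.exp Λ0 ≤ A) {N ℓ : ℕ} (hN : 1 ≤ N) (hℓ1 : A * (N:ℝ)^(4/7 : ℝ) ≤ ℓ)
    (hℓ2 : (ℓ:ℝ) ≤ (N:ℝ)^(4/7 : ℝ) * Real.exp N) :
    ∃ M Λ L R : ℝ, M = (N:ℝ)^(4/7 : ℝ) ∧ R = RR N ℓ ∧ R = M * L ∧ 1 ≤ M ∧
      M ^ (7/3 : ℝ) = (N:ℝ)^(4/3 : ℝ) ∧ 1 ≤ Λ ∧ 1 ≤ L ∧ L ≤ Λ ∧ M * Real.exp Λ = ℓ ∧
      1 ≤ a * L ∧ R ≤ N ∧ R ^ (7/3 : ℝ) = (N:ℝ)^(4/3 : ℝ) * Λ := by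
  have hN0 : (1:ℝ) ≤ N := by exact_mod_cast hN
  obtain ⟨M, hM⟩ : ∃ M : ℝ, M = (N:ℝ)^(4/7 : ℝ) := ⟨_, rfl⟩
  rw [← hM] at hℓ1 hℓ2
  have hM1 : 1 ≤ M := by rw [hM]; exact Real.one_le_rpow hN0 (by norm_num)
  have hM0 : 0 < M := by linarith
  have hM73 : M ^ (7/3 : ℝ) = (N:ℝ)^(4/3 : ℝ) := by
    rw [hM, ← Real.rpow_mul (by linarith)]; norm_num
  have hA0 : 0 < A := (Real.exp_pos _).trans_le hAe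
  have hℓ0 : (0:ℝ) < ℓ := (by positivity : 0 < A * M).trans_le hℓ1
  obtain ⟨Λ, hΛ⟩ : ∃ Λ : ℝ, Λ = Real.log (ℓ / M) := ⟨_, rfl⟩
  have hexpΛ : Real.exp Λ = ℓ / M := by rw [hΛ]; exact Real.exp_log (by positivity)
  have hMexp : M * Real.exp Λ = ℓ := by rw [hexpΛ]; field_simp
  have hΛge : Λ0 ≤ Λ := by
    rw [← Real.exp_le_exp, hexpΛ, le_div_iff₀ hM0]
    exact (mul_le_mul_of_nonneg_right hAe hM0.le).trans hℓ1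
  have hΛN : Λ ≤ N := by
    rw [← Real.exp_le_exp, hexpΛ, div_le_iff₀ hM0]
    linarith
  have hΛ1 : 1 ≤ Λ := hΛ01.trans hΛge
  have hΛp : 0 < Λ := by linarith
  obtain ⟨L, hL'⟩ : ∃ L : ℝ, L = Λ ^ (3/7 : ℝ) := ⟨_, rfl⟩
  have hL1 : 1 ≤ L := by rw [hL']; exact Real.one_le_rpow hΛ1 (by norm_num)
  have hL73 : L ^ (7/3 : ℝ) = Λ := by
    rw [hL', ← Real.rpow_mul hΛp.le]; norm_num
  have hLΛ : L ≤ Λ := by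
    rw [hL']
    calc Λ ^ (3/7 : ℝ) ≤ Λ ^ (1 : ℝ) := Real.rpow_le_rpow_of_exponent_le hΛ1 (by norm_num)
      _ = Λ := Real.rpow_one _
  have haL : 1 ≤ a * L := by
    have h1 : a ^ (-(7/3) : ℝ) ≤ Λ := hΛ0a.trans hΛge
    have h2 : (a ^ (-(7/3) : ℝ)) ^ (3/7 : ℝ) ≤ L := by
      rw [hL']; exact Real.rpow_le_rpow (by positivity) h1 (by norm_num)
    have h3 : (a ^ (-(7/3) : ℝ)) ^ (3/7 : ℝ) = a⁻¹ := by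
      rw [← Real.rpow_mul ha0.le, ← Real.rpow_neg_one]; norm_num
    rw [h3] at h2
    calc 1 = a * a⁻¹ := (mul_inv_cancel₀ ha0.ne').symm
      _ ≤ a * L := mul_le_mul_of_nonneg_left h2 ha0.le
  refine ⟨M, Λ, L, M * L, hM, ?_, rfl, hM1, hM73, hΛ1, hL1, hLΛ, hMexp, haL, ?_, ?_⟩
  · rw [hM, hL', hΛ, hM]; rfl
  · have h1 : L ≤ (N:ℝ)^(3/7 : ℝ) := by
      rw [hL']; exact Real.rpow_le_rpow hΛp.le hΛN (by norm_num)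
    calc M * L ≤ M * (N:ℝ)^(3/7 : ℝ) := mul_le_mul_of_nonneg_left h1 hM0.le
      _ = N := by
        rw [hM, ← Real.rpow_add (by linarith)]; norm_num
  · rw [Real.mul_rpow hM0.le (by linarith), hM73, hL73]

theorem asym (hW : WinU) (hL : WinL) (hD : WinD) : ∃ a A : ℝ, 0 < a ∧ 0 < A ∧
    ∀ N ℓ : ℕ, 1 ≤ N → A * (N:ℝ)^(4/7 : ℝ) ≤ ℓ → (ℓ:ℝ) ≤ (N:ℝ)^(4/7 : ℝ) * Real.exp N →
    ∃ h0 h1 : ℕ, (h0:ℝ) ≤ A * RR N ℓ ∧ a * RR N ℓ ≤ h1 ∧ 1 ≤ h1 ∧ 4 * h1 ≤ N ∧ 1 ≤ ℓ ∧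
      (h0 ≤ N → Pr (gp N) (RE 0 ℓ (-N) N) (TBc 0 ℓ (-N) h0) ≤
          A / 4 * ((N:ℝ)^(4/7 : ℝ) / ℓ) ∧
        Pr (gp N) (RE 0 ℓ (-N) N) (fun F => ¬ LRc 0 ℓ (-h0) N F) ≤
          A / 4 * ((N:ℝ)^(4/7 : ℝ) / ℓ)) ∧
      Pr (gp N) (RE 0 ℓ (-N) N) (fun F => ¬ TBc 0 ℓ (-N) h1 F) ≤
        A / 4 * ((N:ℝ)^(4/7 : ℝ) / ℓ) ∧
      Pr (gp N) (RE 0 ℓ (-N) N) (LRc 0 ℓ (-h1) N) ≤ A / 4 * ((N:ℝ)^(4/7 : ℝ) / ℓ) := by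
  obtain ⟨c1, C1, hc1, hC1, hup⟩ := up_final hW
  obtain ⟨c2, C2, hc2, hC2, hlow⟩ := low_final hL hD
  obtain ⟨a, ha⟩ : ∃ a : ℝ, a = min (1/16) (1 / (8 * C2)) := ⟨_, rfl⟩
  have ha0 : 0 < a := by rw [ha]; positivity
  have ha1 : a ≤ 1/16 := by rw [ha]; exact min_le_left _ _
  have ha2 : C2 * (2 * a) ≤ 1/4 := by
    have h1 : a ≤ 1 / (8 * C2) := by rw [ha]; exact min_le_right _ _
    rw [le_div_iff₀ (by positivity)] at h1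
    linarith
  obtain ⟨Λ0, hΛ0⟩ : ∃ Λ0 : ℝ, Λ0 = max 1 (a ^ (-(7/3) : ℝ)) := ⟨_, rfl⟩
  have hΛ01 : 1 ≤ Λ0 := by rw [hΛ0]; exact le_max_left _ _
  have hΛ0a : a ^ (-(7/3) : ℝ) ≤ Λ0 := by rw [hΛ0]; exact le_max_right _ _
  obtain ⟨A, hA⟩ : ∃ A : ℝ, A = 2 + 4 / c1 + Real.exp Λ0 + 8 * C1 + 128 / c2 ^ 2 := ⟨_, rfl⟩
  have p1 : 0 < 4 / c1 := by positivity
  have p2 : 0 < Real.exp Λ0 := Real.exp_pos _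
  have p3 : 0 < 128 / c2 ^ 2 := by positivity
  have hA2 : 2 ≤ A := by rw [hA]; linarith
  have hAc : 4 ≤ A * c1 := by
    have : 4 / c1 ≤ A := by rw [hA]; linarith
    rwa [div_le_iff₀ hc1] at this
  have hAe : Real.exp Λ0 ≤ A := by rw [hA]; linarith
  have hAC : 8 * C1 ≤ A := by rw [hA]; linarith
  have hAd : 128 / c2 ^ 2 ≤ A := by rw [hA]; linarith
  refine ⟨a, A, ha0, by linarith, ?_⟩
  intro N ℓ hN hℓ1 hℓ2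
  obtain ⟨M, Λ, L, R, hM, hRR, hR, hM1, hM73, hΛ1, hL1, hLΛ, hMexp, haL, hRN, hR73⟩ :=
    reals ha0 hΛ01 hΛ0a hAe hN hℓ1 hℓ2
  rw [← hM] at hℓ1 hℓ2 ⊢
  rw [← hRR]
  clear hRR hℓ2 hΛ0a hΛ01 hΛ0 hAe ha hA p1 p2 p3
  have hM0 : 0 < M := by linarith
  have hN43 : 0 < (N:ℝ)^(4/3 : ℝ) := by
    have : (0:ℝ) < N := by exact_mod_cast hN
    positivity
  have hMℓ1 : M ≤ ℓ := by nlinarith
  have hℓ0 : (0:ℝ) < ℓ := by linarith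
  have hℓn : 1 ≤ ℓ := by
    have : 0 < ℓ := by exact_mod_cast hℓ0
    omega
  have hexpΛ : Real.exp Λ = ℓ / M := by rw [← hMexp]; field_simp
  have hMℓ : M / ℓ = Real.exp (-Λ) := by rw [Real.exp_neg, hexpΛ, inv_div]
  rw [hMℓ]
  have hRM : M ≤ R := by rw [hR]; nlinarith
  have haR : M ≤ a * R := by rw [hR]; nlinarith
  have hR1 : 1 ≤ R := hM1.trans hRM
  have hceil1 : ((⌈a * R⌉₊ : ℕ) : ℝ) < a * R + 1 := Nat.ceil_lt_add_one (by positivity)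
  have hceil2 : a * R ≤ ((⌈a * R⌉₊ : ℕ) : ℝ) := Nat.le_ceil _
  have hceil3 : (4:ℝ) * ((⌈a * R⌉₊ : ℕ) : ℝ) ≤ N := by nlinarith
  have hceil4 : 4 * ⌈a * R⌉₊ ≤ N := by exact_mod_cast hceil3
  have hceil5 : (1:ℝ) ≤ ((⌈a * R⌉₊ : ℕ) : ℝ) := by linarith
  have hceil6 : 1 ≤ ⌈a * R⌉₊ := by exact_mod_cast hceil5
  refine ⟨⌊A * R⌋₊, ⌈a * R⌉₊, Nat.floor_le (by positivity), hceil2, hceil6, hceil4, hℓn, ?_, ?_⟩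
  · -- the upper bounds
    intro hle
    have h1 : A * R < (⌊A * R⌋₊ : ℝ) + 1 := Nat.lt_floor_add_one _
    have h2 : A * R / 2 ≤ (⌊A * R⌋₊ : ℝ) := by nlinarith
    have h3 : (1:ℝ) ≤ (⌊A * R⌋₊ : ℝ) := by nlinarith
    have h3' : 1 ≤ ⌊A * R⌋₊ := by exact_mod_cast h3
    obtain ⟨u1, u2⟩ := hup N ℓ ⌊A * R⌋₊ hℓn h3' hle
    have key := key_up hc1 hC1 hA2 hAc hAC hM0 hℓ0 hN43 hΛ1 hR1 hRM hMℓ1 hexpΛ hR73 h2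
    exact ⟨u1.trans key, u2.trans key⟩
  · -- the lower bounds
    have g1 : (N:ℝ)^(4/3 : ℝ) ≤ ((⌈a * R⌉₊ : ℕ) : ℝ)^(7/3 : ℝ) := by
      rw [← hM73]
      exact Real.rpow_le_rpow hM0.le (haR.trans hceil2) (by norm_num)
    have g4 : 3 * ⌈a * R⌉₊ ≤ ℓ := by
      have h5 : (3:ℝ) * ((⌈a * R⌉₊ : ℕ) : ℝ) ≤ ℓ := by
        have hexp1 : Λ + 1 ≤ Real.exp Λ := Real.add_one_le_exp Λ
        have h6 : R ≤ ℓ := by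
          rw [hR, ← hMexp]
          exact mul_le_mul_of_nonneg_left (by linarith) hM0.le
        nlinarith
      exact_mod_cast h5
    obtain ⟨u1, u2⟩ := hlow N ℓ ⌈a * R⌉₊ g1 hceil6 hceil4 g4
    have key := key_low hc2 hC2 ha0 ha1 ha2 hAd hM0 hN43 hΛ1 hL1 hLΛ hR hMexp hR73
      (by linarith : (0:ℝ) < ((⌈a * R⌉₊ : ℕ) : ℝ)) (by linarith)
    exact ⟨u1.trans key, u2.trans key⟩

end Pool.Agent.H940.GP
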