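import Pool.Agent.H940.GP.Param

/-!
Gradient percolation: the deterministic part of the upper bound.
-/

set_option maxHeartbeats 1000000

namespace Pool.Agent.H940.GP

open H974 Finset

/-- A path which starts inside a window of columns either stays there or reaches a side. -/
theorem window {F : Finset Edg} {A B m h a b : ℤ} {u v : Vtx} (hu : a < u.1 ∧ u.1 < b)
    (hr : Reach (↑F ∩ ↑(RE A B m h)) u v) :
    (a < v.1 ∧ v.1 < b ∧ Reach (↑F ∩ ↑(RE a b m h)) u v) ∨
      ∃ z : Vtx, (z.1 = a ∨ z.1 = b) ∧ Reach (↑F ∩ ↑(RE a b m h)) u z := by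
  induction hr with
  | refl => exact Or.inl ⟨hu.1, hu.2, Reach.refl _ _⟩
  | @tail w w' _ hs ih =>
    rcases ih with ⟨h1, h2, h3⟩ | ih
    · obtain ⟨⟨x0, y0, bo⟩, ⟨heF, heR⟩, hcase⟩ := hs
      have hmem : ((x0, y0, bo) : Edg) ∈ RE a b m h := by
        cases bo
        · simp only [mem_coe, mem_RE_false] at heR
          simp only [src_mk, tgt_false] at hcase
          rw [mem_RE_false]
          rcases hcase with ⟨h3, h4⟩ | ⟨h3, h4⟩
          · rw [← h3] at h1 h2; simp only at h1 h2; omega
          · rw [← h4] at h1 h2; simp only at h1 h2; omega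
        · simp only [mem_coe, mem_RE_true] at heR
          simp only [src_mk, tgt_true] at hcase
          rw [mem_RE_true]
          rcases hcase with ⟨h3, h4⟩ | ⟨h3, h4⟩
          · rw [← h3] at h1 h2; simp only at h1 h2; omega
          · rw [← h4] at h1 h2; simp only at h1 h2; omega
      have hadj : Adj (↑F ∩ ↑(RE a b m h)) w w' := ⟨_, ⟨heF, hmem⟩, hcase⟩
      have hr := h3.trans hadj.reach
      have hin : a ≤ w'.1 ∧ w'.1 ≤ b := by
        cases bo
        · rw [mem_RE_false] at hmem
          simp only [src_mk, tgt_false] at hcase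
          rcases hcase with ⟨h3, h4⟩ | ⟨h3, h4⟩
          · rw [← h4]; simp only; omega
          · rw [← h3]; simp only; omega
        · rw [mem_RE_true] at hmem
          simp only [src_mk, tgt_true] at hcase
          rcases hcase with ⟨h3, h4⟩ | ⟨h3, h4⟩
          · rw [← h4]; simp only; omega
          · rw [← h3]; simp only; omega
      by_cases hb : w'.1 = a ∨ w'.1 = b
      · exact Or.inr ⟨w', hb, hr⟩
      · exact Or.inl ⟨by omega, by omega, hr⟩
    · exact Or.inr ih

/-- The vertical crossing of a long strip of height `k` contains a crossing of one of a few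
rectangles of bounded aspect ratio. -/
theorem TB_windows {F : Finset Edg} {ℓ k : ℕ} {m : ℤ} (hk : 1 ≤ k)
    (hF : TBc 0 ℓ m (m + k) F) : ∃ j < ℓ / k + 1,
      TBc (((j:ℕ):ℤ) * k - k) (j * k + 2 * k) m (m + k) F ∨
      LRc (((j:ℕ):ℤ) * k - k) (j * k) m (m + k) F ∨
      LRc (((j:ℕ):ℤ) * k + k) (j * k + 2 * k) m (m + k) F := by
  obtain ⟨x, x', h1, h2, h3⟩ := hF
  have hk0 : (0:ℤ) < k := by exact_mod_cast hk
  obtain ⟨j, hj⟩ : ∃ j : ℕ, j = x.toNat / k := ⟨_, rfl⟩
  have hx : ((x.toNat : ℕ) : ℤ) = x := Int.toNat_of_nonneg h1.1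
  have hjx : (j:ℤ) * k ≤ x ∧ x < j * k + k := by
    have e1 := Nat.div_mul_le_self x.toNat k
    have e2 := Nat.lt_div_mul_add (a := x.toNat) (b := k) (by omega)
    rw [← hj] at e1 e2
    constructor
    · rw [← hx]; exact_mod_cast e1
    · rw [← hx]; exact_mod_cast e2
  refine ⟨j, ?_, ?_⟩
  · rw [hj, Nat.lt_succ_iff]
    apply Nat.div_le_div_right
    omega
  · have h4 : Reach (↑F ∩ ↑(RE 0 ℓ m (m + k))) (x, m) (x', m + k) :=
      h3.mono (Set.inter_subset_inter_right _ (by exact_mod_cast TBE_subset_RE))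
    rcases window (a := (j:ℤ) * k - k) (b := j * k + 2 * k) (u := (x, m)) (by simp only; omega) h4
      with ⟨-, -, h5⟩ | ⟨z, hz, h5⟩
    · left
      exact TBc_of_reach (by omega) h5 rfl rfl
    · right
      rcases hz with hz | hz
      · left
        obtain ⟨y1, y2, k1, k2, k3, -⟩ := sub_LR (a := (j:ℤ) * k - k) (b := j * k) (c := m)
          (d := m + k) (by omega)
          (by rintro x y ⟨-, h⟩ _ _; simp only [mem_coe, mem_RE_true] at h; omega)
          (by rintro x y ⟨-, h⟩ _ _; simp only [mem_coe, mem_RE_false] at h; omega)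
          h5.symm hz.le (by simp only; omega)
        refine ⟨y1, y2, k1, k2, k3.mono ?_⟩
        rintro e ⟨⟨h7, -⟩, h8⟩
        exact ⟨h7, h8⟩
      · right
        obtain ⟨y1, y2, k1, k2, k3, -⟩ := sub_LR (a := (j:ℤ) * k + k) (b := j * k + 2 * k)
          (c := m) (d := m + k) (by omega)
          (by rintro x y ⟨-, h⟩ _ _; simp only [mem_coe, mem_RE_true] at h; omega)
          (by rintro x y ⟨-, h⟩ _ _; simp only [mem_coe, mem_RE_false] at h; omega)
          h5 (by simp only; omega) hz.ge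
        refine ⟨y1, y2, k1, k2, k3.mono ?_⟩
        rintro e ⟨⟨h7, -⟩, h8⟩
        exact ⟨h7, h8⟩

end Pool.Agent.H940.GP
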