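import Pool.Agent.H940.GP.HomAsym

/-!
Homogeneous percolation in a square box: long paths and crossings of strips.
-/

set_option maxHeartbeats 1000000

namespace Pool.Agent.H940.GP

open H974 Finset Filter Topology

/-- a path with a large vertical displacement crosses a strip of the grid -/
theorem far_TB {n k : ℕ} (hk : 1 ≤ k) {F : Finset Edg} (hF : F ⊆ RE 0 n 0 n) {u v : Vtx}
    (hu : 0 ≤ u.2) (hv : v.2 ≤ n) (h : Reach (F : Set Edg) u v) (hd : u.2 + 2 * k ≤ v.2) :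
    ∃ j < n / k, TBc 0 n (((j:ℕ):ℤ) * k) (j * k + k) F := by
  have hk0 : (0:ℤ) < k := by exact_mod_cast hk
  obtain ⟨q, hq⟩ : ∃ q : ℤ, q = (u.2 + k - 1) / k := ⟨_, rfl⟩
  have h1 : q * k ≤ u.2 + k - 1 := by rw [hq]; exact Int.ediv_mul_le _ hk0.ne'
  have h2 : u.2 + k - 1 < q * k + k := by
    have := Int.lt_ediv_add_one_mul_self (u.2 + k - 1) hk0
    rw [← hq] at this
    linarith
  have hq0 : 0 ≤ q := by rw [hq]; exact Int.ediv_nonneg (by omega) hk0.le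
  obtain ⟨j, rfl⟩ := Int.eq_ofNat_of_zero_le hq0
  refine ⟨j, ?_, ?_⟩
  · rw [Nat.lt_iff_add_one_le, Nat.le_div_iff_mul_le (by omega)]
    have : ((j:ℤ) + 1) * k ≤ n := by nlinarith
    exact_mod_cast this
  · obtain ⟨x1, x2, h3, h4, h5, -⟩ := sub_TB (a := 0) (b := n) (c := (j:ℤ) * k)
      (d := j * k + k) (by omega)
      (by
        intro x y he _ _
        have := hF (Finset.mem_coe.mp he)
        rw [mem_RE_false] at this; omega)
      (by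
        intro x y he _ _
        have := hF (Finset.mem_coe.mp he)
        rw [mem_RE_true] at this; omega) h (by omega) (by omega)
    exact ⟨x1, x2, h3, h4, h5⟩

/-- a path with a large horizontal displacement crosses a strip of the grid -/
theorem far_LR {n k : ℕ} (hk : 1 ≤ k) {F : Finset Edg} (hF : F ⊆ RE 0 n 0 n) {u v : Vtx}
    (hu : 0 ≤ u.1) (hv : v.1 ≤ n) (h : Reach (F : Set Edg) u v) (hd : u.1 + 2 * k ≤ v.1) :
    ∃ j < n / k, LRc (((j:ℕ):ℤ) * k) (j * k + k) 0 n F := by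
  have hk0 : (0:ℤ) < k := by exact_mod_cast hk
  obtain ⟨q, hq⟩ : ∃ q : ℤ, q = (u.1 + k - 1) / k := ⟨_, rfl⟩
  have h1 : q * k ≤ u.1 + k - 1 := by rw [hq]; exact Int.ediv_mul_le _ hk0.ne'
  have h2 : u.1 + k - 1 < q * k + k := by
    have := Int.lt_ediv_add_one_mul_self (u.1 + k - 1) hk0
    rw [← hq] at this
    linarith
  have hq0 : 0 ≤ q := by rw [hq]; exact Int.ediv_nonneg (by omega) hk0.le
  obtain ⟨j, rfl⟩ := Int.eq_ofNat_of_zero_le hq0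
  refine ⟨j, ?_, ?_⟩
  · rw [Nat.lt_iff_add_one_le, Nat.le_div_iff_mul_le (by omega)]
    have : ((j:ℤ) + 1) * k ≤ n := by nlinarith
    exact_mod_cast this
  · obtain ⟨x1, x2, h3, h4, h5, -⟩ := sub_LR (a := (j:ℤ) * k) (b := j * k + k) (c := 0)
      (d := n) (by omega)
      (by
        intro x y he _ _
        have := hF (Finset.mem_coe.mp he)
        rw [mem_RE_true] at this; omega)
      (by
        intro x y he _ _
        have := hF (Finset.mem_coe.mp he)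
        rw [mem_RE_false] at this; omega) h (by omega) (by omega)
    exact ⟨x1, x2, h3, h4, h5⟩

/-- the strips of the grid of width `k` which are crossed -/
def Far (n k : ℕ) (F : Finset Edg) : Prop :=
  (∃ j < n / k, TBc 0 n (((j:ℕ):ℤ) * k) (j * k + k) F) ∨
    (∃ j < n / k, LRc (((j:ℕ):ℤ) * k) (j * k + k) 0 n F)

/-- two vertices at a large distance in the same cluster -/
theorem far_of {n k : ℕ} (hk : 1 ≤ k) {F : Finset Edg} (hF : F ⊆ RE 0 n 0 n) {u v : Vtx}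
    (hu : (0 ≤ u.1 ∧ u.1 ≤ n) ∧ (0 ≤ u.2 ∧ u.2 ≤ n))
    (hv : (0 ≤ v.1 ∧ v.1 ≤ n) ∧ (0 ≤ v.2 ∧ v.2 ≤ n)) (h : Reach (F : Set Edg) u v)
    (hd : 9 * (k:ℝ)^2 ≤ ((u.1:ℝ) - v.1)^2 + ((u.2:ℝ) - v.2)^2) : Far n k F := by
  by_contra hcon
  unfold Far at hcon
  push Not at hcon
  obtain ⟨h1, h2⟩ := hcon
  have a1 : ¬ (u.2 + 2 * k ≤ v.2) := by
    intro h3
    obtain ⟨j, hj, hT⟩ := far_TB hk hF hu.2.1 hv.2.2 h h3
    exact h1 j hj hT
  have a2 : ¬ (v.2 + 2 * k ≤ u.2) := by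
    intro h3
    obtain ⟨j, hj, hT⟩ := far_TB hk hF hv.2.1 hu.2.2 h.symm h3
    exact h1 j hj hT
  have a3 : ¬ (u.1 + 2 * k ≤ v.1) := by
    intro h3
    obtain ⟨j, hj, hT⟩ := far_LR hk hF hu.1.1 hv.1.2 h h3
    exact h2 j hj hT
  have a4 : ¬ (v.1 + 2 * k ≤ u.1) := by
    intro h3
    obtain ⟨j, hj, hT⟩ := far_LR hk hF hv.1.1 hu.1.2 h.symm h3
    exact h2 j hj hT
  have hk1 : (1:ℝ) ≤ k := by exact_mod_cast hk
  have b1 : (v.2:ℝ) < u.2 + 2 * k := by exact_mod_cast not_le.mp a1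
  have b2 : (u.2:ℝ) < v.2 + 2 * k := by exact_mod_cast not_le.mp a2
  have b3 : (v.1:ℝ) < u.1 + 2 * k := by exact_mod_cast not_le.mp a3
  have b4 : (u.1:ℝ) < v.1 + 2 * k := by exact_mod_cast not_le.mp a4
  have c1 : ((u.1:ℝ) - v.1)^2 ≤ (2 * k)^2 := by
    apply sq_le_sq'
    · linarith
    · linarith
  have c2 : ((u.2:ℝ) - v.2)^2 ≤ (2 * k)^2 := by
    apply sq_le_sq'
    · linarith
    · linarith
  nlinarith

theorem hh_up (hW : WinU) : ∃ c C : ℝ, 0 < c ∧ 0 < C ∧ ∀ p : ℝ, 0 ≤ p → p ≤ 1/2 →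
    ∀ (ℓ h : ℕ), 1 ≤ h →
      hh p h ℓ ≤ C * ((ℓ:ℝ) / h + 1) * Real.exp (-(c * (h * (1/2 - p)^(4/3 : ℝ)))) := by
  obtain ⟨c, C, hc, hC, hup⟩ := hom_up hW
  refine ⟨c, C, hc, hC, ?_⟩
  intro p hp0 hp1 ℓ h hh1
  have h1 := hup p hp0 hp1 (TBE 0 ℓ 0 h) ℓ h hh1
  rw [pr_TBc p (Finset.Subset.refl _), sub_zero, sub_zero] at h1
  exact h1

theorem far_up (hW : WinU) : ∃ c C : ℝ, 0 < c ∧ 0 < C ∧ ∀ p : ℝ, 0 ≤ p → p ≤ 1/2 →
    ∀ n k : ℕ, 1 ≤ k →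
      Pr (fun _ => p) (RE 0 n 0 n) (Far n k) ≤
        C * ((n:ℝ) / k) * ((n:ℝ) / k + 1) *
          Real.exp (-(c * (k * (1/2 - p)^(4/3 : ℝ)))) := by
  obtain ⟨c, C, hc, hC, hup⟩ := hh_up hW
  refine ⟨c, 2 * C, hc, by positivity, ?_⟩
  intro p hp0 hp1 n k hk
  have hp : Ok (fun _ : Edg => p) := okq hp0 (by linarith)
  have hB := hup p hp0 hp1 n k hk
  obtain ⟨B, hBdef⟩ : ∃ B : ℝ, B = C * ((n:ℝ) / k + 1) *
    Real.exp (-(c * (k * (1/2 - p)^(4/3 : ℝ)))) := ⟨_, rfl⟩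
  rw [← hBdef] at hB
  have hB0 : 0 ≤ B := by rw [hBdef]; positivity
  have hjk : ∀ j < n / k, (j:ℤ) * k + k ≤ n := by
    intro j hj
    have h1 : (j + 1) * k ≤ n := (Nat.le_div_iff_mul_le (by omega)).mp hj
    have h2 : ((j:ℤ) + 1) * k ≤ n := by exact_mod_cast h1
    linarith
  have h1 := Pr_exists_le hp (RE 0 n 0 n) (fun j F => TBc 0 n (((j:ℕ):ℤ) * k) (j * k + k) F)
    (ε := B) (n / k) (by
      intro j hj
      have e1 := hjk j hj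
      have e2 : 0 ≤ (j:ℤ) * k := by positivity
      rw [pr_TBc p (by
        rintro ⟨x, y, _ | _⟩ h8
        · simp only [mem_TBE_false, mem_RE_false] at h8 ⊢; omega
        · simp only [mem_TBE_true, mem_RE_true] at h8 ⊢; omega)]
      have e3 : (j:ℤ) * k + k - j * k = k := by ring
      rw [e3, sub_zero]
      exact hB)
  have h2 := Pr_exists_le hp (RE 0 n 0 n) (fun j F => LRc (((j:ℕ):ℤ) * k) (j * k + k) 0 n F)
    (ε := B) (n / k) (by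
      intro j hj
      have e1 := hjk j hj
      have e2 : 0 ≤ (j:ℤ) * k := by positivity
      rw [pr_LRc p (by
        rintro ⟨x, y, _ | _⟩ h8
        · simp only [mem_LRE_false, mem_RE_false] at h8 ⊢; omega
        · simp only [mem_LRE_true, mem_RE_true] at h8 ⊢; omega)]
      have e3 : (j:ℤ) * k + k - j * k = k := by ring
      rw [e3, sub_zero]
      exact hB)
  have h3 : Pr (fun _ => p) (RE 0 n 0 n) (Far n k) ≤ _ := Pr_or_le hp (RE 0 n 0 n)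
    (fun F => ∃ j < n / k, TBc 0 n (((j:ℕ):ℤ) * k) (j * k + k) F)
    (fun F => ∃ j < n / k, LRc (((j:ℕ):ℤ) * k) (j * k + k) 0 n F)
  have h4 : ((n / k : ℕ) : ℝ) ≤ (n:ℝ) / k := Nat.cast_div_le
  have h5 := mul_le_mul_of_nonneg_right h4 hB0
  calc Pr (fun _ => p) (RE 0 n 0 n) (Far n k) ≤ 2 * ((n:ℝ) / k * B) := by linarith
    _ = _ := by rw [hBdef]; ring

/-- the computation for the upper bound -/
theorem hkey_up2 {c1 C1 A M Λ R ℓ k : ℝ} (hc1 : 0 < c1) (hC1 : 0 < C1) (hA6 : 6 ≤ A)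
    (hAc : 18 ≤ A * c1) (hAC : 4 * C1 ≤ A) (hM0 : 0 < M) (hℓ0 : 0 < ℓ)
    (hΛ1 : 1 ≤ Λ) (hMℓ : M ≤ ℓ) (hexp : Real.exp Λ = ℓ / M)
    (hR : R = M * Λ) (hk : A * R / 6 ≤ k) :
    C1 * (ℓ / k) * (ℓ / k + 1) * Real.exp (-(c1 * (k * M⁻¹))) ≤ A / 2 * Real.exp (-Λ) := by
  have hA0 : 0 < A := by linarith
  have hRM : M ≤ R := by rw [hR]; nlinarith
  have hR0 : 0 < R := by linarith
  have hMk : M ≤ k := by nlinarith
  have hk0 : 0 < k := by linarith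
  have k1 : ℓ / k ≤ ℓ / M := div_le_div_of_nonneg_left hℓ0.le hM0 hMk
  have k2 : 1 ≤ ℓ / M := by rw [le_div_iff₀ hM0]; linarith
  have k3 : 3 * Λ ≤ c1 * (k * M⁻¹) := by
    have e5 : A / 6 * Λ ≤ k * M⁻¹ := by
      rw [← div_eq_mul_inv, le_div_iff₀ hM0]
      rw [hR] at hk
      linarith
    have e7 := mul_le_mul_of_nonneg_left e5 hc1.le
    have e8 : 18 * Λ ≤ A * c1 * Λ := mul_le_mul_of_nonneg_right hAc (by linarith)
    linarith
  have k4 : Real.exp (-(c1 * (k * M⁻¹))) ≤ Real.exp (-Λ) * Real.exp (-Λ) * Real.exp (-Λ) := by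
    rw [← Real.exp_add, ← Real.exp_add]
    apply Real.exp_le_exp.mpr
    linarith
  have k5 : Real.exp (-Λ) * (ℓ / M) = 1 := by
    rw [← hexp, ← Real.exp_add]; simp
  have kE : 0 < Real.exp (-Λ) := Real.exp_pos _
  have k6 : 0 ≤ ℓ / k := by positivity
  calc C1 * (ℓ / k) * (ℓ / k + 1) * Real.exp (-(c1 * (k * M⁻¹)))
      ≤ C1 * (ℓ / M) * (2 * (ℓ / M)) *
          (Real.exp (-Λ) * Real.exp (-Λ) * Real.exp (-Λ)) := by
        apply mul_le_mul _ k4 (Real.exp_pos _).le (by positivity)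
        apply mul_le_mul _ (by linarith) (by linarith) (by positivity)
        exact mul_le_mul_of_nonneg_left k1 hC1.le
    _ = 2 * C1 * Real.exp (-Λ) * (Real.exp (-Λ) * (ℓ / M)) * (Real.exp (-Λ) * (ℓ / M)) := by ring
    _ = 2 * C1 * Real.exp (-Λ) := by rw [k5, mul_one, mul_one]
    _ ≤ A / 2 * Real.exp (-Λ) := by
        apply mul_le_mul_of_nonneg_right _ kE.le
        linarith

theorem far_asym (hW : WinU) (hL : WinL) : ∃ a A : ℝ, 0 < a ∧ 0 < A ∧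
    ∀ p : ℝ, 1/4 ≤ p → p < 1/2 → ∀ n : ℕ, ∀ M R : ℝ, M = (1/2 - p)^(-(4/3) : ℝ) →
      R = M * Real.log ((n:ℝ) / M) → A * M ≤ n →
    ∃ k h1 : ℕ, 1 ≤ k ∧ 3 * (k:ℝ) ≤ A * R ∧ a * R ≤ h1 ∧ 1 ≤ h1 ∧ h1 ≤ n ∧ 0 < n ∧
      Pr (fun _ => p) (RE 0 n 0 n) (Far n k) ≤ A / 2 * (M / n) ∧
      Pr (fun _ => p) (RE 0 n 0 n) (fun F => ¬ TBc 0 n 0 h1 F) ≤ A / 2 * (M / n) := by
  obtain ⟨a, A0, ha, hA0, hasym⟩ := hom_asym hW hL
  obtain ⟨c1, C1, hc1, hC1, hup⟩ := far_up hW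
  obtain ⟨A, hA⟩ : ∃ A : ℝ, A = A0 + 6 + 18 / c1 + 4 * C1 := ⟨_, rfl⟩
  have p1 : 0 < 18 / c1 := by positivity
  have hA6 : 6 ≤ A := by rw [hA]; linarith
  have hAA : A0 ≤ A := by rw [hA]; linarith
  have hAc : 18 ≤ A * c1 := by
    have : 18 / c1 ≤ A := by rw [hA]; linarith
    rwa [div_le_iff₀ hc1] at this
  have hAC : 4 * C1 ≤ A := by rw [hA]; linarith
  refine ⟨a, A, ha, by linarith, ?_⟩
  intro p hp0 hp1 n M R hM hR hn1
  have hδ : 0 < 1/2 - p := by linarith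
  have hMinv : M⁻¹ = (1/2 - p)^(4/3 : ℝ) := by
    rw [hM, Real.rpow_neg hδ.le, inv_inv]
  have hM1 : 1 ≤ M := by
    rw [hM]
    exact Real.one_le_rpow_of_pos_of_le_one_of_nonpos hδ (by linarith) (by norm_num)
  have hM0 : 0 < M := by linarith
  have hn0 : (0:ℝ) < n := by nlinarith
  have hdiv : 0 < (n:ℝ) / M := by positivity
  have hRn : R ≤ n := by
    rw [hR]
    have h1 := Real.log_le_sub_one_of_pos hdiv
    calc M * Real.log ((n:ℝ) / M) ≤ M * ((n:ℝ) / M) :=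
          mul_le_mul_of_nonneg_left (by linarith) hM0.le
      _ = n := by field_simp
  obtain ⟨h0, h1, -, -, k3, k4, k5, k6, k7, -, k9⟩ :=
    hasym p hp0 hp1 n n M R hM hR ((mul_le_mul_of_nonneg_right hAA hM0.le).trans hn1) hRn
  obtain ⟨Λ, hΛ⟩ : ∃ Λ : ℝ, Λ = Real.log ((n:ℝ) / M) := ⟨_, rfl⟩
  rw [← hΛ] at hR
  have hexpΛ : Real.exp Λ = n / M := by rw [hΛ]; exact Real.exp_log hdiv
  have hMℓ : M / n = Real.exp (-Λ) := by rw [Real.exp_neg, hexpΛ, inv_div]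
  have hΛ1 : 1 ≤ Λ := by
    rw [← Real.exp_le_exp, hexpΛ, le_div_iff₀ hM0]
    have := Real.exp_one_lt_d9
    nlinarith
  have hMn : M ≤ n := by nlinarith
  have hRM : M ≤ R := by rw [hR]; nlinarith
  have hR1 : 1 ≤ R := hM1.trans hRM
  have f1 : A * R / 3 < (⌊A * R / 3⌋₊ : ℝ) + 1 := Nat.lt_floor_add_one _
  have f0 : 6 ≤ A * R := by nlinarith
  have f2 : A * R / 6 ≤ (⌊A * R / 3⌋₊ : ℝ) := by
    have e1 : (1:ℝ) ≤ (⌊A * R / 3⌋₊ : ℝ) := by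
      have : 1 ≤ ⌊A * R / 3⌋₊ := Nat.le_floor (by push_cast; linarith)
      exact_mod_cast this
    linarith
  have f3 : 1 ≤ ⌊A * R / 3⌋₊ := Nat.le_floor (by push_cast; linarith)
  have f4 : (⌊A * R / 3⌋₊ : ℝ) ≤ A * R / 3 := Nat.floor_le (by positivity)
  have hMn0 : 0 ≤ M / n := by positivity
  refine ⟨⌊A * R / 3⌋₊, h1, f3, by linarith, k3, k4, k6, k7, ?_, ?_⟩
  · have u1 := hup p (by linarith) hp1.le n ⌊A * R / 3⌋₊ f3
    rw [← hMinv] at u1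
    rw [hMℓ]
    exact u1.trans (hkey_up2 hc1 hC1 hA6 hAc hAC hM0 hn0 hΛ1 hMn hexpΛ hR f2)
  · refine k9.trans (mul_le_mul_of_nonneg_right (by linarith) hMn0)

end Pool.Agent.H940.GP
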