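import Pool.Agent.H940.GP.Diam
import Pool.Agent.H974R2.Circ

/-!
Homogeneous percolation in a square box above criticality, and elementary facts on the critical
window.
-/

set_option maxHeartbeats 1000000

namespace Pool.Agent.H940.GP

open H974 Finset Filter Topology

/-- the lower bound for dual crossing probabilities of moderately flat rectangles -/
def WinLD : Prop := ∃ c C : ℝ, 0 < c ∧ 0 < C ∧ ∀ p : ℝ, 1/4 ≤ p → p ≤ 1/2 →
    ∀ w h : ℕ, 1 ≤ w → 1 ≤ h → w ≤ 4 * h → h ≤ 4 * w →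
      c * Real.exp (-(C * (w * (1/2 - p)^(4/3 : ℝ)))) ≤ 1 - hh (1 - p) w h

/-- the crossings of the strips along the bottom side and the right side -/
theorem near_joined {n k : ℕ} (hk : 1 ≤ k) (hkn : k ≤ n) {F : Finset Edg}
    (h1 : LRc 0 n 0 k F) (h2 : TBc ((n:ℤ) - k) n 0 n F) :
    ∃ y x : ℤ, (0 ≤ y ∧ y ≤ k) ∧ ((n:ℤ) - k ≤ x ∧ x ≤ n) ∧ Reach (F : Set Edg) (0, y) (x, n) := by
  obtain ⟨y, y', h3, h4, h5⟩ := h1
  obtain ⟨x, x', h6, h7, h8⟩ := h2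
  have hkn' : (k:ℤ) ≤ n := by exact_mod_cast hkn
  have hk' : (1:ℤ) ≤ k := by exact_mod_cast hk
  have h9 : Reach ((F : Set Edg) ∩ ↑(RE 0 n 0 k)) (0, y) ((n:ℤ), y') :=
    h5.mono (Set.inter_subset_inter_right _ (by exact_mod_cast LRE_subset_RE))
  have h10 : Reach ((F : Set Edg) ∩ ↑(RE ((n:ℤ) - k) n 0 n)) (x, 0) (x', (n:ℤ)) :=
    h8.mono (Set.inter_subset_inter_right _ (by exact_mod_cast TBE_subset_RE))
  have h11 := cross_meet (F := (F : Set Edg)) (A := 0) (B := n) (C := 0) (D := n)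
    (a := (n:ℤ) - k) (b := n) (c := 0) (d := k) (by omega) (by omega) le_rfl le_rfl (by omega)
    (by omega) h9 (by simp only; omega) (by simp only; omega) h10 (by simp only; omega)
    (by simp only; omega)
  exact ⟨y, x', h3, h7, (h11.mono Set.inter_subset_left).trans (h10.mono Set.inter_subset_left)⟩

theorem near_pr (hW : WinU) : ∃ c C : ℝ, 0 < c ∧ 0 < C ∧ ∀ p : ℝ, 1/2 ≤ p → p ≤ 1 →
    ∀ n k : ℕ, 1 ≤ k → k ≤ n →
      Pr (fun _ => p) (RE 0 n 0 n) (fun F => ¬ (LRc 0 n 0 k F ∧ TBc ((n:ℤ) - k) n 0 n F)) ≤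
        C * ((n:ℝ) / k + 1) * Real.exp (-(c * (k * (p - 1/2)^(4/3 : ℝ)))) := by
  obtain ⟨c, C, hc, hC, hup⟩ := hh_up hW
  refine ⟨c, 2 * C, hc, by positivity, ?_⟩
  intro p hp0 hp1 n k hk hkn
  have hp : Ok (fun _ : Edg => p) := okq (by linarith) hp1
  have hkn' : (k:ℤ) ≤ n := by exact_mod_cast hkn
  have hk' : (1:ℤ) ≤ k := by exact_mod_cast hk
  have hB := hup (1 - p) (by linarith) (by linarith) n k hk
  have e0 : (1:ℝ)/2 - (1 - p) = p - 1/2 := by ring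
  rw [e0] at hB
  have hdual := hh_dual (q := p) (w := (n:ℤ)) (h := (k:ℤ)) (by omega) (by omega)
  have hmono := hh_mono (q := 1 - p) (by linarith) (by linarith) (w := (k:ℤ) + 1) (w' := k)
    (h := (n:ℤ) - 1) (h' := n) (by omega) (by omega) (by omega)
  have hA1 : Pr (fun _ => p) (RE 0 n 0 n) (fun F => ¬ LRc 0 n 0 k F) = 1 - hh p n k := by
    rw [Pr_not, pr_LRc p (by
      rintro ⟨x, y, _ | _⟩ h8
      · simp only [mem_LRE_false, mem_RE_false] at h8 ⊢; omega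
      · simp only [mem_LRE_true, mem_RE_true] at h8 ⊢; omega), sub_zero, sub_zero]
  have hA2 : Pr (fun _ => p) (RE 0 n 0 n) (fun F => ¬ TBc ((n:ℤ) - k) n 0 n F) =
      1 - hh p n k := by
    rw [Pr_not, pr_TBc p (by
      rintro ⟨x, y, _ | _⟩ h8
      · simp only [mem_TBE_false, mem_RE_false] at h8 ⊢; omega
      · simp only [mem_TBE_true, mem_RE_true] at h8 ⊢; omega)]
    have e1 : (n:ℤ) - ((n:ℤ) - k) = k := by ring
    rw [e1, sub_zero]
  have h1 : Pr (fun _ => p) (RE 0 n 0 n)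
      (fun F => ¬ (LRc 0 n 0 k F ∧ TBc ((n:ℤ) - k) n 0 n F)) ≤
      Pr (fun _ => p) (RE 0 n 0 n)
        (fun F => ¬ LRc 0 n 0 k F ∨ ¬ TBc ((n:ℤ) - k) n 0 n F) := by
    apply Pr_mono hp
    intro F _ hF
    tauto
  have h2 := Pr_or_le hp (RE 0 n 0 n) (fun F => ¬ LRc 0 n 0 k F)
    (fun F => ¬ TBc ((n:ℤ) - k) n 0 n F)
  rw [hA1, hA2] at h2
  have h3 : 1 - hh p n k ≤ C * ((n:ℝ) / k + 1) *
      Real.exp (-(c * (k * (p - 1/2)^(4/3 : ℝ)))) := by linarith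
  calc _ ≤ (1 - hh p n k) + (1 - hh p n k) := h1.trans h2
    _ ≤ _ := by linarith

/-- no crossing of the strip in the middle -/
theorem narrow {n m : ℕ} (hm : 1 ≤ m) (hn : n ≤ 3 * m + 2) {F : Finset Edg}
    (hF : F ⊆ RE 0 n 0 n) (hT : ¬ TBc 0 n m ((2 * m : ℕ) : ℤ) F) {u v : Vtx}
    (hu : 0 ≤ u.2) (hv : v.2 ≤ n) (h : Reach (F : Set Edg) u v) : v.2 - u.2 ≤ 2 * m + 1 := by
  by_contra hcon
  push Not at hcon
  apply hT
  have hn' : (n:ℤ) ≤ 3 * m + 2 := by exact_mod_cast hn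
  obtain ⟨x1, x2, h3, h4, h5, -⟩ := sub_TB (a := 0) (b := n) (c := (m:ℤ))
    (d := ((2 * m : ℕ) : ℤ)) (by push_cast; omega)
    (by
      intro x y he _ _
      have := hF (Finset.mem_coe.mp he)
      rw [mem_RE_false] at this; omega)
    (by
      intro x y he _ _
      have := hF (Finset.mem_coe.mp he)
      rw [mem_RE_true] at this; omega) h (by omega) (by push_cast; omega)
  exact ⟨x1, x2, h3, h4, h5⟩

theorem pow_id {x : ℝ} (hx : 0 ≤ x) (n : ℕ) :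
    (n:ℝ) * x^(4/3 : ℝ) = (x * (n:ℝ)^(3/4 : ℝ))^(4/3 : ℝ) := by
  rw [Real.mul_rpow hx (by positivity), ← Real.rpow_mul (by positivity)]
  norm_num
  ring

theorem exp_tendsto {x : ℕ → ℝ} (hx : Tendsto x atTop atTop) (B : ℝ) {c : ℝ} (hc : 0 < c) :
    Tendsto (fun n => B * Real.exp (-(c * (x n)^(4/3 : ℝ)))) atTop (𝓝 0) := by
  have h1 : Tendsto (fun n : ℕ => (x n)^(4/3 : ℝ)) atTop atTop :=
    (tendsto_rpow_atTop (by norm_num : (0:ℝ) < 4/3)).comp hx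
  have h2 : Tendsto (fun n : ℕ => c * (x n)^(4/3 : ℝ)) atTop atTop :=
    h1.const_mul_atTop hc
  have h3 := Real.tendsto_exp_neg_atTop_nhds_zero.comp h2
  have h4 := h3.const_mul B
  rw [mul_zero] at h4
  exact h4

/-- inside the window the parameters are close to `1/2` -/
theorem near_half {x : ℕ → ℝ} {K : ℝ} :
    ∀ᶠ n : ℕ in atTop, x n * (n:ℝ)^(3/4 : ℝ) < K → x n ≤ 1/4 := by
  have h1 : ∀ᶠ n : ℕ in atTop, 4 * max K 0 ≤ (n:ℝ)^(3/4 : ℝ) :=
    ((tendsto_rpow_atTop (by norm_num : (0:ℝ) < 3/4)).comp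
      tendsto_natCast_atTop_atTop).eventually_ge_atTop _
  filter_upwards [h1, eventually_ge_atTop 1] with n h2 h3 h4
  have hn0 : (1:ℝ) ≤ n := by exact_mod_cast h3
  have hnp : 0 < (n:ℝ)^(3/4 : ℝ) := by positivity
  have h5 : x n * (n:ℝ)^(3/4 : ℝ) ≤ max K 0 := h4.le.trans (le_max_left _ _)
  by_contra h6
  push Not at h6
  nlinarith

/-- inside the window the probability of a vertical crossing is bounded below -/
theorem low_hh (hL : WinL) (K : ℝ) : ∃ δ : ℝ, 0 < δ ∧ ∀ p : ℝ, 1/4 ≤ p → p ≤ 1 → ∀ n : ℕ,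
    1 ≤ n → (1/2 - p) * (n:ℝ)^(3/4 : ℝ) < K → δ ≤ hh p n n := by
  obtain ⟨c, C, hc, hC, hlow⟩ := hL
  refine ⟨c * Real.exp (-(C * (max K 0)^(4/3 : ℝ))), by positivity, ?_⟩
  intro p hp0 hp1 n hn hK
  have hq0 : 1/4 ≤ min p (1/2) := le_min hp0 (by norm_num)
  have hq1 : min p (1/2) ≤ 1/2 := min_le_right _ _
  have h1 := hlow (min p (1/2)) hq0 hq1 n n hn hn (by omega) (by omega)
  have h2 := hh_mono_param (p := min p (1/2)) (q := p) (by linarith) (min_le_left _ _) hp1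
    (n:ℤ) (n:ℤ)
  rw [pow_id (by linarith)] at h1
  refine le_trans ?_ (h1.trans h2)
  apply mul_le_mul_of_nonneg_left _ hc.le
  apply Real.exp_le_exp.mpr
  have h3 : (1/2 - min p (1/2)) * (n:ℝ)^(3/4 : ℝ) ≤ max K 0 := by
    rcases min_cases p (1/2) with ⟨h4, -⟩ | ⟨h4, -⟩
    · rw [h4]; exact hK.le.trans (le_max_left _ _)
    · rw [h4, sub_self, zero_mul]; exact le_max_right _ _
  have h4 : ((1/2 - min p (1/2)) * (n:ℝ)^(3/4 : ℝ))^(4/3 : ℝ) ≤ (max K 0)^(4/3 : ℝ) :=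
    Real.rpow_le_rpow (mul_nonneg (by linarith) (by positivity)) h3 (by norm_num)
  have := mul_le_mul_of_nonneg_left h4 hC.le
  linarith

/-- inside the window the probability of a dual crossing is bounded below -/
theorem low_dual (hD : WinLD) (K : ℝ) : ∃ δ : ℝ, 0 < δ ∧ ∀ p : ℝ, 0 ≤ p → p ≤ 3/4 → ∀ n m : ℕ,
    1 ≤ m → m ≤ n → n ≤ 4 * m → (p - 1/2) * (n:ℝ)^(3/4 : ℝ) < K → δ ≤ 1 - hh p m n := by
  obtain ⟨c, C, hc, hC, hlow⟩ := hD
  refine ⟨c * Real.exp (-(C * (max K 0)^(4/3 : ℝ))), by positivity, ?_⟩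
  intro p hp0 hp1 n m hm hmn hnm hK
  obtain ⟨q, hq⟩ : ∃ q : ℝ, q = max p (1/2) := ⟨_, rfl⟩
  have hq0 : 1/2 ≤ q := by rw [hq]; exact le_max_right _ _
  have hq1 : q ≤ 3/4 := by rw [hq]; exact max_le hp1 (by norm_num)
  have hpq : p ≤ q := by rw [hq]; exact le_max_left _ _
  have h1 := hlow (1 - q) (by linarith) (by linarith) m n hm (by omega) (by omega) hnm
  have e1 : 1 - (1 - q) = q := by ring
  have e2 : (1:ℝ)/2 - (1 - q) = q - 1/2 := by ring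
  rw [e1, e2] at h1
  have h2 := hh_mono_param (p := p) (q := q) hp0 hpq (by linarith) (m:ℤ) (n:ℤ)
  refine le_trans ?_ (h1.trans (by linarith))
  apply mul_le_mul_of_nonneg_left _ hc.le
  apply Real.exp_le_exp.mpr
  have h3 : (q - 1/2) * (n:ℝ)^(3/4 : ℝ) ≤ max K 0 := by
    rcases max_cases p (1/2) with ⟨h4, -⟩ | ⟨h4, -⟩
    · rw [hq, h4]; exact hK.le.trans (le_max_left _ _)
    · rw [hq, h4, sub_self, zero_mul]; exact le_max_right _ _
  have h5 : (m:ℝ) * (q - 1/2)^(4/3 : ℝ) ≤ (max K 0)^(4/3 : ℝ) := by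
    have e3 : (m:ℝ) ≤ n := by exact_mod_cast hmn
    have e4 : 0 ≤ (q - 1/2)^(4/3 : ℝ) := Real.rpow_nonneg (by linarith) _
    refine (mul_le_mul_of_nonneg_right e3 e4).trans ?_
    rw [pow_id (by linarith)]
    exact Real.rpow_le_rpow (mul_nonneg (by linarith) (by positivity)) h3 (by norm_num)
  have := mul_le_mul_of_nonneg_left h5 hC.le
  linarith

end Pool.Agent.H940.GP
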