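import Pool.Agent.H940.GP.Param

/-!
Duality for crossing probabilities with parameters which depend on the edge.
-/

set_option maxHeartbeats 1000000

namespace Pool.Agent.H940.GP

open H974 Finset

theorem LR_iff_no_dual {a b c d : ℤ} (hab : a < b) (hcd : c ≤ d) {F : Finset Edg} :
    LRc a b c d F ↔ ¬ TBc a (b - 1) (c - 1) d (dmp (LRE a b c d \ F)) := by
  have h2 : TBE a (b - 1) (c - 1) d = dmp (LRE a b c d) := by rw [dmp_LRE]
  have h9 : ((↑(dmp (LRE a b c d \ F)) : Set Edg) ∩ ↑(TBE a (b - 1) (c - 1) d))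
      = dl '' ((↑F : Set Edg)ᶜ ∩ ↑(LRE a b c d)) := by
    rw [h2, coe_dmp, coe_dmp, ← Set.image_inter dl.injective]
    congr 1
    ext e
    simp only [Finset.coe_sdiff, Set.mem_inter_iff, Set.mem_sdiff, Finset.mem_coe,
      Set.mem_compl_iff]
    tauto
  constructor
  · rintro ⟨y, y', h3, h4, h5⟩ ⟨x, x', h6, h7, h8⟩
    rw [h9, reach_dl] at h8
    exact no_both hcd h4 (a := a) (b := b) (x := x) (by omega) h5 (by simpa using h8)
  · intro hno
    by_contra hcon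
    apply hno
    set W : Vtx → Prop := fun v => ∃ y, (c ≤ y ∧ y ≤ d) ∧ Reach (↑F ∩ ↑(LRE a b c d)) (a, y) v
      with hW
    have hL : ∀ y, c ≤ y → y ≤ d → W (a, y) := fun y h3 h4 => ⟨y, ⟨h3, h4⟩, Reach.refl _ _⟩
    have hR : ∀ y, c ≤ y → y ≤ d → ¬ W (b, y) := by
      rintro y h3 h4 ⟨y0, h5, h6⟩
      exact hcon ⟨y0, y, h5, ⟨h3, h4⟩, h6⟩
    obtain ⟨x, x', hx, hx', hr⟩ := dual_crossing hab.le hcd W hL hR
    refine ⟨x, x', by omega, by omega, ?_⟩
    rw [h9, reach_dl]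
    refine DReach.mono ?_ (by simpa using hr)
    rintro e ⟨he1, he2⟩
    refine ⟨?_, he2⟩
    intro heF
    apply he1
    constructor
    · rintro ⟨y, h3, h4⟩
      exact ⟨y, h3, h4.trans (Adj.reach ⟨e, ⟨heF, he2⟩, Or.inl ⟨rfl, rfl⟩⟩)⟩
    · rintro ⟨y, h3, h4⟩
      exact ⟨y, h3, h4.trans (Adj.reach ⟨e, ⟨heF, he2⟩, Or.inr ⟨rfl, rfl⟩⟩)⟩

theorem TBc_rfy {k a b c d : ℤ} {F : Finset Edg} (h : TBc a b c d F) :
    TBc a b (k - d) (k - c) ((rfy k).mp F) := by
  obtain ⟨y, y', h1, h2, h3⟩ := h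
  have := (rfy k).reach h3
  rw [LSym.image_inter, rfy_TBE, rfy_ψ, rfy_ψ] at this
  exact ⟨y', y, h2, h1, this.symm⟩

theorem rfy_rfy (k : ℤ) (F : Finset Edg) : (rfy k).mp ((rfy k).mp F) = F := by
  ext ⟨x, y, _ | _⟩
  · simp [LSym.mem_mp, show k - (k - y - 1) - 1 = y by ring]
  · simp [LSym.mem_mp]

theorem TBc_rfy_iff {k a b c d : ℤ} {F : Finset Edg} :
    TBc a b (k - d) (k - c) ((rfy k).mp F) ↔ TBc a b c d F := by
  constructor
  · intro h
    have := TBc_rfy (k := k) h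
    rw [rfy_rfy] at this
    simpa using this
  · exact TBc_rfy

/-- The parameter of the reflected dual model. -/
noncomputable def dp (p : Edg → ℝ) (e : Edg) : ℝ := 1 - p (dl.symm ((rfy 0).φ e))

theorem dp_true (p : Edg → ℝ) (x y : ℤ) : dp p (x, y, true) = 1 - p (x + 1, -y, false) := by
  simp [dp]

theorem dp_false (p : Edg → ℝ) (x y : ℤ) : dp p (x, y, false) = 1 - p (x, -y, true) := by
  simp [dp]

theorem dp_ok {p : Edg → ℝ} (hp : Ok p) : Ok (dp p) := by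
  intro e
  have := hp (dl.symm ((rfy 0).φ e))
  unfold dp
  constructor <;> linarith [this.1, this.2]

/-- No horizontal crossing, in terms of a vertical crossing for the reflected dual model. -/
theorem dual_pr (p : Edg → ℝ) {a b c d : ℤ} (hab : a < b) (hcd : c ≤ d) {S : Finset Edg}
    (hS : LRE a b c d ⊆ S) :
    1 - Pr p S (LRc a b c d) =
      Pr (dp p) (TBE a (b - 1) (-d) (1 - c)) (TBc a (b - 1) (-d) (1 - c)) := by
  rw [pr_LR_loc p hS, ← Pr_not]
  have h1 : Pr p (LRE a b c d) (fun F => ¬ LRc a b c d F) =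
      Pr p (LRE a b c d)
        (fun F => TBc a (b - 1) (c - 1) d (dmp (LRE a b c d \ F))) := by
    apply Pr_congr
    intro F _
    rw [LR_iff_no_dual hab hcd, not_not]
  rw [h1, ← Pr_compl p (LRE a b c d) (fun F => TBc a (b - 1) (c - 1) d (dmp F))]
  have h2 : Pr (fun e => 1 - p e) (LRE a b c d) (fun F => TBc a (b - 1) (c - 1) d (dmp F)) =
      Pr (fun e => 1 - p (dl.symm e)) (dmp (LRE a b c d)) (TBc a (b - 1) (c - 1) d) := by
    unfold dmp
    rw [Pr_map]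
    simp
  rw [h2, dmp_LRE]
  have h3 : TBE a (b - 1) (c - 1) d = (rfy 0).mp (TBE a (b - 1) (-d) (1 - c)) := by
    rw [rfy_TBE]; congr 1 <;> ring
  rw [h3]
  unfold LSym.mp
  rw [Pr_map]
  unfold dp
  apply Pr_congr
  intro F _
  have h4 := TBc_rfy_iff (k := 0) (a := a) (b := b - 1) (c := -d) (d := 1 - c) (F := F)
  have e1 : (0:ℤ) - (1 - c) = c - 1 := by ring
  have e2 : (0:ℤ) - (-d) = d := by ring
  rw [e1, e2] at h4
  exact h4

end Pool.Agent.H940.GP
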