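import Pool.Agent.H940.GP.Low

/-!
Gradient percolation: independent blocks.
-/

set_option maxHeartbeats 1000000

namespace Pool.Agent.H940.GP

open H974 Finset

/-- None of `n` disjoint blocks is crossed. -/
theorem many {p : Edg → ℝ} (hp : Ok p) {N h : ℕ} (hh1 : 1 ≤ h) {β : ℝ} {S : Finset Edg} (n : ℕ)
    (hS : ∀ i < n, TBE (((i:ℕ):ℤ) * (h + 1)) (i * (h + 1) + h) (-N) h ⊆ S)
    (hβ : ∀ i < n, β ≤ Pr p S (TBc (((i:ℕ):ℤ) * (h + 1)) (i * (h + 1) + h) (-N) h)) :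
    Pr p S (fun F => ∀ i < n, ¬ TBc (((i:ℕ):ℤ) * (h + 1)) (i * (h + 1) + h) (-N) h F) ≤
      (1 - β)^n := by
  induction n with
  | zero => simpa using Pr_le_one hp _ _
  | succ n ih =>
    have ih' := ih (fun i hi => hS i (by omega)) (fun i hi => hβ i (by omega))
    obtain ⟨W, hW⟩ : ∃ W : Finset Edg, W = S.filter (fun e => e.1 < (n:ℤ) * (h + 1)) := ⟨_, rfl⟩
    have hWS : W ⊆ S := by rw [hW]; exact filter_subset _ _
    have hTS := hS n (by omega)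
    have hin : ∀ i < n, TBE (((i:ℕ):ℤ) * (h + 1)) (i * (h + 1) + h) (-N) h ⊆ W := by
      intro i hi e he
      rw [hW, mem_filter]
      refine ⟨hS i (by omega) he, ?_⟩
      have h1 : ((i:ℤ) + 1) * (h + 1) ≤ n * (h + 1) := by
        apply mul_le_mul_of_nonneg_right
        · exact_mod_cast hi
        · positivity
      have h2 : ((i:ℤ) + 1) * (h + 1) = i * (h + 1) + h + 1 := by ring
      obtain ⟨x, y, _ | _⟩ := e
      · simp only [mem_TBE_false] at he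
        simp only
        omega
      · simp only [mem_TBE_true] at he
        simp only
        omega
    have hdis : Disjoint W (TBE ((n:ℤ) * (h + 1)) (n * (h + 1) + h) (-N) h) := by
      rw [Finset.disjoint_left]
      intro e he1 he2
      rw [hW, mem_filter] at he1
      obtain ⟨x, y, _ | _⟩ := e
      · simp only [mem_TBE_false] at he2
        simp only at he1
        omega
      · simp only [mem_TBE_true] at he2
        simp only at he1
        omega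
    have h1 : Pr p S (fun F =>
        ∀ i < n + 1, ¬ TBc (((i:ℕ):ℤ) * (h + 1)) (i * (h + 1) + h) (-N) h F) =
        Pr p S (fun F => (∀ i < n, ¬ TBc (((i:ℕ):ℤ) * (h + 1)) (i * (h + 1) + h) (-N) h F) ∧
          ¬ TBc ((n:ℤ) * (h + 1)) (n * (h + 1) + h) (-N) h F) := by
      apply Pr_congr
      intro F _
      constructor
      · intro hF
        exact ⟨fun i hi => hF i (by omega), hF n (by omega)⟩
      · rintro ⟨hF1, hF2⟩ i hi
        rcases Nat.lt_succ_iff_lt_or_eq.mp hi with h2 | h2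
        · exact hF1 i h2
        · subst h2; exact hF2
    rw [h1, Pr_indep hWS hTS hdis
      (A := fun F => ∀ i < n, ¬ TBc (((i:ℕ):ℤ) * (h + 1)) (i * (h + 1) + h) (-N) h F)
      (B := fun F => ¬ TBc ((n:ℤ) * (h + 1)) (n * (h + 1) + h) (-N) h F)
      (fun F _ => forall₂_congr (fun i hi => not_congr (TBc_local (hin i hi))))
      (fun F _ => not_congr (TBc_local (Finset.Subset.refl _)))]
    have h2 := Pr_not (p := p) S (TBc ((n:ℤ) * (h + 1)) (n * (h + 1) + h) (-N) h)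
    rw [h2, pow_succ]
    have h3 := hβ n (by omega)
    have h4 := Pr_le_one hp S (TBc ((n:ℤ) * (h + 1)) (n * (h + 1) + h) (-N) h)
    have h5 : 0 ≤ Pr p S
        (fun F => ∀ i < n, ¬ TBc (((i:ℕ):ℤ) * (h + 1)) (i * (h + 1) + h) (-N) h F) :=
      Pr_nonneg hp _ _
    calc _ ≤ (1 - β)^n * (1 - Pr p S (TBc ((n:ℤ) * (h + 1)) (n * (h + 1) + h) (-N) h)) :=
          mul_le_mul_of_nonneg_right ih' (by linarith)
      _ ≤ (1 - β)^n * (1 - β) := mul_le_mul_of_nonneg_left (by linarith) (h5.trans ih')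

/-- Lower bound for the height of the front, for general parameters: the strip `[0, ℓ]` contains
no path from height `-N` to height `h`. -/
theorem low_core (hL : WinL) (hD : WinD) : ∃ c C : ℝ, 0 < c ∧ 0 < C ∧
    ∀ (N h ℓ : ℕ) (p : Edg → ℝ), Ok p →
    (∀ x y : ℤ, min 1 (1/2 - (y:ℝ) / (2 * N)) ≤ p (x, y, true)) →
    (∀ x y : ℤ, min 1 (1/2 - ((y:ℝ) + 1) / (2 * N)) ≤ p (x, y, false)) →
    1 ≤ h → 2 * h ≤ N → (N:ℝ)^(4/3 : ℝ) ≤ (h:ℝ)^(7/3 : ℝ) → h ≤ ℓ →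
    ∀ S : Finset Edg, TBE 0 ℓ (-N) h ⊆ S →
      Pr p S (fun F => ¬ TBc 0 ℓ (-N) h F) ≤
        Real.exp (-(c * ((ℓ:ℝ) / h) *
          Real.exp (-(C * ((h:ℝ)^(7/3 : ℝ) / (N:ℝ)^(4/3 : ℝ)))))) := by
  obtain ⟨c, C, hc, hC, hblock⟩ := block_core hL hD
  refine ⟨c / 4, C, by positivity, hC, ?_⟩
  intro N h ℓ p hp hpt hpf hh1 hhN hs1 hhl S hS
  obtain ⟨n, hn⟩ : ∃ n : ℕ, n = (ℓ + 1) / (h + 1) := ⟨_, rfl⟩
  have hn1 : n * (h + 1) ≤ ℓ + 1 := by rw [hn]; exact Nat.div_mul_le_self _ _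
  have hn2 : ℓ + 1 < n * (h + 1) + (h + 1) := by rw [hn]; exact Nat.lt_div_mul_add (by omega)
  have hnpos : 1 ≤ n := by
    rw [hn]
    exact (Nat.one_le_div_iff (by omega)).mpr (by omega)
  have hil : ∀ i < n, (i:ℤ) * (h + 1) + h ≤ ℓ := by
    intro i hi
    have h1 : (i + 1) * (h + 1) ≤ n * (h + 1) := Nat.mul_le_mul_right _ hi
    have h2 : (i + 1) * (h + 1) ≤ ℓ + 1 := h1.trans hn1
    have h3 : ((i:ℤ) + 1) * (h + 1) ≤ ℓ + 1 := by exact_mod_cast h2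
    have h4 : ((i:ℤ) + 1) * (h + 1) = i * (h + 1) + h + 1 := by ring
    omega
  have hi0 : ∀ i : ℕ, 0 ≤ (i:ℤ) * (h + 1) := fun i => by positivity
  have hsub : ∀ i < n, TBE (((i:ℕ):ℤ) * (h + 1)) (i * (h + 1) + h) (-N) h ⊆ S := by
    intro i hi
    refine Finset.Subset.trans ?_ hS
    have h1 := hil i hi
    have h2 := hi0 i
    rintro ⟨x, y, _ | _⟩ h8
    · simp only [mem_TBE_false] at h8 ⊢; omega
    · simp only [mem_TBE_true] at h8 ⊢; omega
  set β : ℝ := c * Real.exp (-(C * ((h:ℝ)^(7/3 : ℝ) / (N:ℝ)^(4/3 : ℝ)))) with hβ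
  have hβ0 : 0 < β := by positivity
  have hb : ∀ i < n, β ≤ Pr p S (TBc (((i:ℕ):ℤ) * (h + 1)) (i * (h + 1) + h) (-N) h) :=
    fun i hi => hblock N h p hp hpt hpf hh1 hhN hs1 _ S (hsub i hi)
  have hβ1 : β ≤ 1 := (hb 0 hnpos).trans (Pr_le_one hp _ _)
  have h1 := many hp hh1 n hsub hb
  have h2 : Pr p S (fun F => ¬ TBc 0 ℓ (-N) h F) ≤
      Pr p S (fun F => ∀ i < n, ¬ TBc (((i:ℕ):ℤ) * (h + 1)) (i * (h + 1) + h) (-N) h F) := by
    apply Pr_mono hp
    intro F _ hF i hi hT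
    apply hF
    exact TBc_sub le_rfl (by omega) le_rfl (hi0 i) (hil i hi) hT
  have h3 : (1 - β)^n ≤ Real.exp (-((n:ℝ) * β)) := by
    calc (1 - β)^n ≤ (Real.exp (-β))^n :=
          pow_le_pow_left₀ (by linarith) (Real.one_sub_le_exp_neg β) n
      _ = Real.exp (-((n:ℝ) * β)) := by
          rw [← Real.exp_nat_mul]; congr 1; ring
  have h4 : (ℓ:ℝ) / h / 4 ≤ n := by
    have hh0 : (1:ℝ) ≤ h := by exact_mod_cast hh1
    rw [div_div, div_le_iff₀ (by positivity)]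
    have e1 : (ℓ:ℝ) + 1 < n * (h + 1) + (h + 1) := by exact_mod_cast hn2
    have e2 : (1:ℝ) ≤ n := by exact_mod_cast hnpos
    nlinarith
  refine h2.trans (h1.trans (h3.trans ?_))
  apply Real.exp_le_exp.mpr
  have h5 : c / 4 * ((ℓ:ℝ) / h) *
      Real.exp (-(C * ((h:ℝ)^(7/3 : ℝ) / (N:ℝ)^(4/3 : ℝ)))) = ((ℓ:ℝ) / h / 4) * β := by
    rw [hβ]; ring
  rw [h5]
  have := mul_le_mul_of_nonneg_right h4 hβ0.le
  linarith

end Pool.Agent.H940.GP
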