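import Pool.Agent.H940.GP.Up
import Pool.Agent.H940.GP.Many
import Pool.Agent.H940.GP.Dual

/-!
Gradient percolation: the bounds for the top and for the bottom of the front, in terms of
crossings of the strip.
-/

set_option maxHeartbeats 1000000

namespace Pool.Agent.H940.GP

open H974 Finset

/-- The parameter of gradient percolation. -/
noncomputable def gp (N : ℕ) (e : Edg) : ℝ :=
  max 0 (min 1 (1/2 - ((e.2.1:ℝ) + if e.2.2 then 0 else 1/2) / (2 * N)))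

theorem gp_ok (N : ℕ) : Ok (gp N) :=
  fun _ => ⟨le_max_left _ _, max_le zero_le_one (min_le_left _ _)⟩

theorem gp_true (N : ℕ) (x y : ℤ) :
    gp N (x, y, true) = max 0 (min 1 (1/2 - (y:ℝ) / (2 * N))) := by simp [gp]

theorem gp_false (N : ℕ) (x y : ℤ) :
    gp N (x, y, false) = max 0 (min 1 (1/2 - ((y:ℝ) + 1/2) / (2 * N))) := by simp [gp]

theorem one_sub_clamp (t : ℝ) : 1 - max 0 (min 1 (1/2 - t)) = max 0 (min 1 (1/2 + t)) := by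
  rcases le_total (1/2 - t) 0 with h | h
  · rw [min_eq_right (by linarith), max_eq_left h, min_eq_left (by linarith),
      max_eq_right (by norm_num)]
    norm_num
  · rcases le_total (1/2 - t) 1 with h2 | h2
    · rw [min_eq_right h2, max_eq_right h, min_eq_right (by linarith), max_eq_right (by linarith)]
      ring
    · rw [min_eq_left h2, max_eq_right (by norm_num), min_eq_right (by linarith),
        max_eq_left (by linarith)]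
      norm_num

theorem dgp_true (N : ℕ) (x y : ℤ) :
    dp (gp N) (x, y, true) = max 0 (min 1 (1/2 - ((y:ℝ) - 1/2) / (2 * N))) := by
  rw [dp_true, gp_false, one_sub_clamp]
  congr 2
  push_cast
  ring

theorem dgp_false (N : ℕ) (x y : ℤ) :
    dp (gp N) (x, y, false) = max 0 (min 1 (1/2 - (y:ℝ) / (2 * N))) := by
  rw [dp_false, gp_true, one_sub_clamp]
  congr 2
  push_cast
  ring

theorem clamp_up {r s : ℝ} (h : r ≤ s) : max 0 (min 1 r) ≤ max 0 s :=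
  max_le_max le_rfl ((min_le_right _ _).trans h)

theorem clamp_low {r s : ℝ} (h : s ≤ r) : min 1 s ≤ max 0 (min 1 r) :=
  (min_le_min le_rfl h).trans (le_max_right _ _)

theorem gp_up {N : ℕ} (x y : ℤ) (b : Bool) (_ : 1 ≤ y) :
    gp N (x, y, b) ≤ max 0 (1/2 - ((y:ℝ) - 1) / (2 * N)) := by
  have h0 : (0:ℝ) ≤ 2 * N := by positivity
  cases b
  · rw [gp_false]
    apply clamp_up
    have := div_le_div_of_nonneg_right (by linarith : (y:ℝ) - 1 ≤ y + 1/2) h0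
    linarith
  · rw [gp_true]
    apply clamp_up
    have := div_le_div_of_nonneg_right (by linarith : (y:ℝ) - 1 ≤ y) h0
    linarith

theorem dgp_up {N : ℕ} (x y : ℤ) (b : Bool) (_ : 1 ≤ y) :
    dp (gp N) (x, y, b) ≤ max 0 (1/2 - ((y:ℝ) - 1) / (2 * N)) := by
  have h0 : (0:ℝ) ≤ 2 * N := by positivity
  cases b
  · rw [dgp_false]
    apply clamp_up
    have := div_le_div_of_nonneg_right (by linarith : (y:ℝ) - 1 ≤ y) h0
    linarith
  · rw [dgp_true]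
    apply clamp_up
    have := div_le_div_of_nonneg_right (by linarith : (y:ℝ) - 1 ≤ y - 1/2) h0
    linarith

theorem gp_lt {N : ℕ} (x y : ℤ) : min 1 (1/2 - (y:ℝ) / (2 * N)) ≤ gp N (x, y, true) := by
  rw [gp_true]
  exact clamp_low le_rfl

theorem gp_lf {N : ℕ} (x y : ℤ) : min 1 (1/2 - ((y:ℝ) + 1) / (2 * N)) ≤ gp N (x, y, false) := by
  rw [gp_false]
  apply clamp_low
  have h0 : (0:ℝ) ≤ 2 * N := by positivity
  have := div_le_div_of_nonneg_right (by linarith : (y:ℝ) + 1/2 ≤ y + 1) h0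
  linarith

theorem dgp_lt {N : ℕ} (x y : ℤ) :
    min 1 (1/2 - (y:ℝ) / (2 * N)) ≤ dp (gp N) (x, y, true) := by
  rw [dgp_true]
  apply clamp_low
  have h0 : (0:ℝ) ≤ 2 * N := by positivity
  have := div_le_div_of_nonneg_right (by linarith : (y:ℝ) - 1/2 ≤ y) h0
  linarith

theorem dgp_lf {N : ℕ} (x y : ℤ) :
    min 1 (1/2 - ((y:ℝ) + 1) / (2 * N)) ≤ dp (gp N) (x, y, false) := by
  rw [dgp_false]
  apply clamp_low
  have h0 : (0:ℝ) ≤ 2 * N := by positivity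
  have := div_le_div_of_nonneg_right (by linarith : (y:ℝ) ≤ y + 1) h0
  linarith

/-- the upper bounds -/
theorem up_final (hW : WinU) : ∃ c C : ℝ, 0 < c ∧ 0 < C ∧ ∀ N ℓ h : ℕ, 1 ≤ ℓ → 1 ≤ h → h ≤ N →
    Pr (gp N) (RE 0 ℓ (-N) N) (TBc 0 ℓ (-N) h) ≤
      C * ((ℓ:ℝ) / h + 1) * Real.exp (-(c * ((h:ℝ)^(7/3 : ℝ) / (N:ℝ)^(4/3 : ℝ)))) ∧
    Pr (gp N) (RE 0 ℓ (-N) N) (fun F => ¬ LRc 0 ℓ (-h) N F) ≤
      C * ((ℓ:ℝ) / h + 1) * Real.exp (-(c * ((h:ℝ)^(7/3 : ℝ) / (N:ℝ)^(4/3 : ℝ)))) := by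
  obtain ⟨c, C, hc, hC, hup⟩ := up_core hW
  refine ⟨c, C, hc, hC, ?_⟩
  intro N ℓ h hl hh1 hhN
  have hN : 1 ≤ N := hh1.trans hhN
  constructor
  · refine le_trans ?_ (hup N (gp N) hN (gp_ok N) (fun x y b hy => gp_up x y b hy)
      (RE 0 ℓ (-N) N) ℓ h hh1 (by omega))
    apply Pr_mono (gp_ok N)
    intro F _ hF
    rcases Nat.eq_or_lt_of_le hh1 with h1 | h1
    · subst h1
      refine ⟨0, 0, by omega, by omega, ?_⟩
      have e1 : ((1:ℕ):ℤ) - ((1 / 2 : ℕ) : ℤ) = ((1:ℕ):ℤ) := by norm_num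
      rw [e1]
      exact Reach.refl _ _
    · have h2 : 1 ≤ h / 2 := by omega
      exact TBc_sub (by omega) (by omega) le_rfl le_rfl le_rfl hF
  · have hsub : LRE 0 ℓ (-h) N ⊆ RE 0 ℓ (-N) N := by
      rintro ⟨x, y, _ | _⟩ h8
      · simp only [mem_LRE_false, mem_RE_false] at h8 ⊢; omega
      · simp only [mem_LRE_true, mem_RE_true] at h8 ⊢; omega
    rw [Pr_not, dual_pr (gp N) (by omega) (by omega) hsub]
    have e1 : (ℓ:ℤ) - 1 = ((ℓ - 1 : ℕ) : ℤ) := by omega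
    have e2 : (1:ℤ) - (-(h:ℤ)) = ((h + 1 : ℕ) : ℤ) := by push_cast; ring
    rw [e1, e2]
    have h3 := hup N (dp (gp N)) hN (dp_ok (gp_ok N)) (fun x y b hy => dgp_up x y b hy)
      (TBE 0 ((ℓ - 1 : ℕ) : ℤ) (-N) ((h + 1 : ℕ) : ℤ)) (ℓ - 1) (h + 1) (by omega) (by omega)
    have h4 : Pr (dp (gp N)) (TBE 0 ((ℓ - 1 : ℕ) : ℤ) (-N) ((h + 1 : ℕ) : ℤ))
        (TBc 0 ((ℓ - 1 : ℕ) : ℤ) (-N) ((h + 1 : ℕ) : ℤ)) ≤
        Pr (dp (gp N)) (TBE 0 ((ℓ - 1 : ℕ) : ℤ) (-N) ((h + 1 : ℕ) : ℤ))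
        (TBc 0 ((ℓ - 1 : ℕ) : ℤ) (((h + 1 : ℕ) : ℤ) - (((h + 1) / 2 : ℕ) : ℤ))
          ((h + 1 : ℕ) : ℤ)) := by
      apply Pr_mono (dp_ok (gp_ok N))
      intro F _ hF
      have h2 : 1 ≤ (h + 1) / 2 := by omega
      exact TBc_sub (by omega) (by omega) le_rfl le_rfl le_rfl hF
    refine h4.trans (h3.trans ?_)
    have hh0 : (1:ℝ) ≤ h := by exact_mod_cast hh1
    have hN0 : (1:ℝ) ≤ N := by exact_mod_cast hN
    have k1 : ((ℓ - 1 : ℕ) : ℝ) / ((h + 1 : ℕ) : ℝ) ≤ (ℓ:ℝ) / h := by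
      apply div_le_div₀ (by positivity) _ (by linarith) (by push_cast; linarith)
      exact_mod_cast Nat.sub_le _ _
    have k2 : (h:ℝ)^(7/3 : ℝ) / (N:ℝ)^(4/3 : ℝ) ≤
        ((h + 1 : ℕ):ℝ)^(7/3 : ℝ) / (N:ℝ)^(4/3 : ℝ) := by
      apply div_le_div_of_nonneg_right _ (by positivity)
      apply Real.rpow_le_rpow (by linarith) _ (by norm_num)
      push_cast; linarith
    apply mul_le_mul
    · apply mul_le_mul_of_nonneg_left _ hC.le
      linarith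
    · apply Real.exp_le_exp.mpr
      have := mul_le_mul_of_nonneg_left k2 hc.le
      linarith
    · exact (Real.exp_pos _).le
    · positivity

/-- the lower bounds -/
theorem low_final (hL : WinL) (hD : WinD) : ∃ c C : ℝ, 0 < c ∧ 0 < C ∧ ∀ N ℓ h : ℕ,
    (N:ℝ)^(4/3 : ℝ) ≤ (h:ℝ)^(7/3 : ℝ) → 1 ≤ h → 4 * h ≤ N → 3 * h ≤ ℓ →
    Pr (gp N) (RE 0 ℓ (-N) N) (fun F => ¬ TBc 0 ℓ (-N) h F) ≤
      Real.exp (-(c * ((ℓ:ℝ) / h) *
        Real.exp (-(C * ((h:ℝ)^(7/3 : ℝ) / (N:ℝ)^(4/3 : ℝ)))))) ∧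
    Pr (gp N) (RE 0 ℓ (-N) N) (LRc 0 ℓ (-h) N) ≤
      Real.exp (-(c * ((ℓ:ℝ) / h) *
        Real.exp (-(C * ((h:ℝ)^(7/3 : ℝ) / (N:ℝ)^(4/3 : ℝ)))))) := by
  obtain ⟨c, C, hc, hC, hlow⟩ := low_core hL hD
  refine ⟨c / 3, 8 * C, by positivity, by positivity, ?_⟩
  intro N ℓ h hs hh1 hhN hhl
  have hN : 1 ≤ N := by omega
  have hh0 : (1:ℝ) ≤ h := by exact_mod_cast hh1
  have hN0 : (1:ℝ) ≤ N := by exact_mod_cast hN
  have hN43 : 0 < (N:ℝ)^(4/3 : ℝ) := by positivity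
  set s : ℝ := (h:ℝ)^(7/3 : ℝ) / (N:ℝ)^(4/3 : ℝ) with hsdef
  have hs0 : 0 ≤ s := by positivity
  have hlh : 0 ≤ (ℓ:ℝ) / h := by positivity
  constructor
  · have h1 := hlow N h ℓ (gp N) (gp_ok N) (fun x y => gp_lt x y) (fun x y => gp_lf x y) hh1
      (by omega) hs (by omega) (RE 0 ℓ (-N) N) (by
        rintro ⟨x, y, _ | _⟩ h8
        · simp only [mem_TBE_false, mem_RE_false] at h8 ⊢; omega
        · simp only [mem_TBE_true, mem_RE_true] at h8 ⊢; omega)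
    refine h1.trans (Real.exp_le_exp.mpr ?_)
    have h2 : Real.exp (-(8 * C * s)) ≤ Real.exp (-(C * s)) := by
      apply Real.exp_le_exp.mpr
      nlinarith [mul_nonneg hC.le hs0]
    have h3 : c / 3 * ((ℓ:ℝ) / h) ≤ c * ((ℓ:ℝ) / h) := by nlinarith [mul_nonneg hc.le hlh]
    have h4 := mul_le_mul h3 h2 (Real.exp_pos _).le (by positivity)
    linarith
  · have hsub : LRE 0 ℓ (-h) N ⊆ RE 0 ℓ (-N) N := by
      rintro ⟨x, y, _ | _⟩ h8
      · simp only [mem_LRE_false, mem_RE_false] at h8 ⊢; omega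
      · simp only [mem_LRE_true, mem_RE_true] at h8 ⊢; omega
    have hd := dual_pr (gp N) (a := 0) (b := ℓ) (c := -h) (d := N) (by omega) (by omega) hsub
    have e1 : (ℓ:ℤ) - 1 = ((ℓ - 1 : ℕ) : ℤ) := by omega
    have e2 : (1:ℤ) - (-(h:ℤ)) = ((h + 1 : ℕ) : ℤ) := by push_cast; ring
    rw [e1, e2] at hd
    have hn := Pr_not (p := dp (gp N)) (TBE 0 ((ℓ - 1 : ℕ) : ℤ) (-N) ((h + 1 : ℕ) : ℤ))
      (TBc 0 ((ℓ - 1 : ℕ) : ℤ) (-N) ((h + 1 : ℕ) : ℤ))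
    have hs2 : (N:ℝ)^(4/3 : ℝ) ≤ ((h + 1 : ℕ):ℝ)^(7/3 : ℝ) := by
      refine hs.trans (Real.rpow_le_rpow (by linarith) ?_ (by norm_num))
      push_cast; linarith
    have h1 := hlow N (h + 1) (ℓ - 1) (dp (gp N)) (dp_ok (gp_ok N)) (fun x y => dgp_lt x y)
      (fun x y => dgp_lf x y) (by omega) (by omega) hs2 (by omega)
      (TBE 0 ((ℓ - 1 : ℕ) : ℤ) (-N) ((h + 1 : ℕ) : ℤ)) (Finset.Subset.refl _)
    have h0 : Pr (gp N) (RE 0 ℓ (-N) N) (LRc 0 ℓ (-h) N) =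
        Pr (dp (gp N)) (TBE 0 ((ℓ - 1 : ℕ) : ℤ) (-N) ((h + 1 : ℕ) : ℤ))
          (fun F => ¬ TBc 0 ((ℓ - 1 : ℕ) : ℤ) (-N) ((h + 1 : ℕ) : ℤ) F) := by
      rw [hn]; linarith
    rw [h0]
    refine h1.trans (Real.exp_le_exp.mpr ?_)
    have k1 : (ℓ:ℝ) / h / 3 ≤ ((ℓ - 1 : ℕ) : ℝ) / ((h + 1 : ℕ) : ℝ) := by
      have hl1 : ((ℓ - 1 : ℕ) : ℝ) = (ℓ:ℝ) - 1 := by
        rw [Nat.cast_sub (by omega)]; norm_num
      have hl2 : 3 * (h:ℝ) ≤ ℓ := by exact_mod_cast hhl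
      rw [hl1, div_div, div_le_div_iff₀ (by positivity) (by positivity)]
      push_cast
      nlinarith
    have k2 : ((h + 1 : ℕ):ℝ)^(7/3 : ℝ) / (N:ℝ)^(4/3 : ℝ) ≤ 8 * s := by
      have e3 : ((h + 1 : ℕ):ℝ)^(7/3 : ℝ) ≤ 8 * (h:ℝ)^(7/3 : ℝ) := by
        calc ((h + 1 : ℕ):ℝ)^(7/3 : ℝ) ≤ (2 * (h:ℝ))^(7/3 : ℝ) := by
              apply Real.rpow_le_rpow (by positivity) _ (by norm_num)
              push_cast; linarith
          _ = (2:ℝ)^(7/3 : ℝ) * (h:ℝ)^(7/3 : ℝ) := Real.mul_rpow (by norm_num) (by linarith)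
          _ ≤ 8 * (h:ℝ)^(7/3 : ℝ) := by
              apply mul_le_mul_of_nonneg_right _ (by positivity)
              calc (2:ℝ)^(7/3 : ℝ) ≤ (2:ℝ)^(3 : ℝ) :=
                    Real.rpow_le_rpow_of_exponent_le (by norm_num) (by norm_num)
                _ = 8 := by norm_num
      rw [hsdef, mul_div_assoc']
      exact div_le_div_of_nonneg_right e3 hN43.le
    have h2 : Real.exp (-(8 * C * s)) ≤
        Real.exp (-(C * (((h + 1 : ℕ):ℝ)^(7/3 : ℝ) / (N:ℝ)^(4/3 : ℝ)))) := by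
      apply Real.exp_le_exp.mpr
      have := mul_le_mul_of_nonneg_left k2 hC.le
      linarith
    have h3 : c / 3 * ((ℓ:ℝ) / h) ≤ c * (((ℓ - 1 : ℕ) : ℝ) / ((h + 1 : ℕ) : ℝ)) := by
      have := mul_le_mul_of_nonneg_left k1 hc.le
      linarith
    have h4 := mul_le_mul h3 h2 (Real.exp_pos _).le (by positivity)
    linarith

end Pool.Agent.H940.GP
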