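import Pool.Agent.H940.GP.DiamWin

/-!
Percolation in the half-plane with the negative half-axis open and the positive half-axis closed:
the cluster of the negative half-axis, crossings in finite boxes.
-/

set_option maxHeartbeats 1000000

namespace Pool.Agent.H940.GP

open H974 Finset Filter Topology

/-- the edges of the half-plane which are not on the axis -/
def Bulk : Set Edg := {e | (e.2.2 = true ∧ 1 ≤ e.2.1) ∨ (e.2.2 = false ∧ 0 ≤ e.2.1)}

theorem bulk_true {x y : ℤ} : ((x, y, true) : Edg) ∈ Bulk ↔ 1 ≤ y := by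
  unfold Bulk
  simp

theorem bulk_false {x y : ℤ} : ((x, y, false) : Edg) ∈ Bulk ↔ 0 ≤ y := by
  unfold Bulk
  simp

theorem reach_nonneg {O : Set Edg} (hO : O ⊆ Bulk) {u w : Vtx} (h : Reach O u w)
    (hu : 0 ≤ u.2) : 0 ≤ w.2 := by
  induction h with
  | refl => exact hu
  | @tail w w' _ hs _ =>
    obtain ⟨⟨x, y, _ | _⟩, he, hc⟩ := hs
    · have := bulk_false.mp (hO he)
      simp only [src_mk, tgt_false] at hc
      rcases hc with ⟨h1, h2⟩ | ⟨h1, h2⟩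
      · rw [← h2]; simp only; omega
      · rw [← h1]; simp only; omega
    · have := bulk_true.mp (hO he)
      simp only [src_mk, tgt_true] at hc
      rcases hc with ⟨h1, h2⟩ | ⟨h1, h2⟩
      · rw [← h2]; simp only; omega
      · rw [← h1]; simp only; omega

/-- the crossings at the scale `R` -/
def Sc (r R : ℤ) (F : Finset Edg) : Prop :=
  TBc (r - 4 * R) r 0 R F ∨ LRc (r - 4 * R) (r - 2 * R) 0 R F ∨ LRc (r - R) r 0 R F

theorem sc_of {O : Set Edg} (hO : O ⊆ Bulk) {r R : ℤ} (hR : 1 ≤ R) {u v : Vtx} (hu : u.2 = 0)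
    (hu1 : r - 2 * R < u.1) (hu2 : u.1 ≤ r - R) (hv : r ≤ v.1) (h : Reach O u v)
    {F : Finset Edg} (hF : O ∩ ↑(RE (r - 4 * R) r 0 R) ⊆ ↑F) : Sc r R F := by
  obtain ⟨w, hw1, hw2, hw3⟩ := first_exit (G := O) (a := r - 4 * R) (b := r) (c := -1) (d := R)
    (u := u) (v := v) (by unfold inR; omega) h (Or.inr (Or.inl hv))
  have hw0 : 0 ≤ w.2 := reach_nonneg hO (hw3.mono Set.inter_subset_left) (by omega)
  have hGF : O ∩ ↑(RE (r - 4 * R) r (-1) R) ⊆ (↑F : Set Edg) := by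
    rintro ⟨x, y, _ | _⟩ ⟨h1, h2⟩
    · apply hF
      have := bulk_false.mp (hO h1)
      refine ⟨h1, ?_⟩
      simp only [mem_coe, mem_RE_false] at h2 ⊢
      omega
    · apply hF
      have := bulk_true.mp (hO h1)
      refine ⟨h1, ?_⟩
      simp only [mem_coe, mem_RE_true] at h2 ⊢
      omega
  have hH : ∀ x y, ((x, y, true) : Edg) ∈ O ∩ ↑(RE (r - 4 * R) r (-1) R) →
      r - 4 * R ≤ x ∧ x < r ∧ 0 ≤ y ∧ y ≤ R := by
    rintro x y ⟨h1, h2⟩
    have := bulk_true.mp (hO h1)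
    simp only [mem_coe, mem_RE_true] at h2
    omega
  have hV : ∀ x y, ((x, y, false) : Edg) ∈ O ∩ ↑(RE (r - 4 * R) r (-1) R) →
      r - 4 * R ≤ x ∧ x ≤ r ∧ 0 ≤ y ∧ y < R := by
    rintro x y ⟨h1, h2⟩
    have := bulk_false.mp (hO h1)
    simp only [mem_coe, mem_RE_false] at h2
    omega
  rcases hw2 with hw2 | hw2 | hw2 | hw2
  · obtain ⟨y1, y2, h3, h4, h5, -⟩ := sub_LR (G := O ∩ ↑(RE (r - 4 * R) r (-1) R))
      (a := r - 4 * R) (b := r - 2 * R) (c := 0) (d := R) (by omega)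
      (by intro x y he _ _; have := hH x y he; omega)
      (by intro x y he _ _; have := hV x y he; omega) hw3.symm (by omega) (by omega)
    exact Or.inr (Or.inl ⟨y1, y2, h3, h4, h5.mono (Set.inter_subset_inter_left _ hGF)⟩)
  · obtain ⟨y1, y2, h3, h4, h5, -⟩ := sub_LR (G := O ∩ ↑(RE (r - 4 * R) r (-1) R))
      (a := r - R) (b := r) (c := 0) (d := R) (by omega)
      (by intro x y he _ _; have := hH x y he; omega)
      (by intro x y he _ _; have := hV x y he; omega) hw3 (by omega) (by omega)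
    exact Or.inr (Or.inr ⟨y1, y2, h3, h4, h5.mono (Set.inter_subset_inter_left _ hGF)⟩)
  · omega
  · obtain ⟨y1, y2, h3, h4, h5, -⟩ := sub_TB (G := O ∩ ↑(RE (r - 4 * R) r (-1) R))
      (a := r - 4 * R) (b := r) (c := 0) (d := R) (by omega)
      (by intro x y he _ _; have := hV x y he; omega)
      (by intro x y he _ _; have := hH x y he; omega) hw3 (by omega) (by omega)
    exact Or.inl ⟨y1, y2, h3, h4, h5.mono (Set.inter_subset_inter_left _ hGF)⟩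

theorem sc_pr (hW : WinU) : ∃ c C : ℝ, 0 < c ∧ 0 < C ∧ ∀ p : ℝ, 0 ≤ p → p ≤ 1/2 →
    ∀ (r : ℤ) (R : ℕ), 1 ≤ R →
      Pr (fun _ => p) (RE (r - 4 * R) r 0 R) (Sc r R) ≤
        C * Real.exp (-(c * (R * (1/2 - p)^(4/3 : ℝ)))) := by
  obtain ⟨c, C, hc, hC, hup⟩ := hh_up hW
  refine ⟨c, 9 * C, hc, by positivity, ?_⟩
  intro p hp0 hp1 r R hR
  have hp : Ok (fun _ : Edg => p) := okq hp0 (by linarith)
  have hR0 : (1:ℝ) ≤ R := by exact_mod_cast hR
  have hR1 : (1:ℤ) ≤ R := by exact_mod_cast hR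
  obtain ⟨E, hE⟩ : ∃ E : ℝ, E = Real.exp (-(c * (R * (1/2 - p)^(4/3 : ℝ)))) := ⟨_, rfl⟩
  have h1 := hup p hp0 hp1 (4 * R) R hR
  have h2 := hup p hp0 hp1 R R hR
  have h3 := hh_mono (q := p) hp0 (by linarith) (w := 2 * (R:ℤ)) (w' := R) (h := (R:ℤ))
    (h' := R) (by omega) (by omega) le_rfl
  rw [← hE] at h1 h2
  have e1 : ((4 * R : ℕ) : ℝ) / R = 4 := by push_cast; field_simp
  have e2 : (R:ℝ) / R = 1 := by field_simp
  rw [e1] at h1
  rw [e2] at h2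
  have g1 : Pr (fun _ => p) (RE (r - 4 * R) r 0 R) (TBc (r - 4 * R) r 0 R) =
      hh p R ((4 * R : ℕ) : ℤ) := by
    rw [pr_TBc p TBE_subset_RE]
    congr 1 <;> (try push_cast) <;> ring
  have g2 : Pr (fun _ => p) (RE (r - 4 * R) r 0 R) (LRc (r - 4 * R) (r - 2 * R) 0 R) =
      hh p (2 * (R:ℤ)) R := by
    rw [pr_LRc p (by
      rintro ⟨x, y, _ | _⟩ h8
      · simp only [mem_LRE_false, mem_RE_false] at h8 ⊢; omega
      · simp only [mem_LRE_true, mem_RE_true] at h8 ⊢; omega)]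
    congr 1 <;> (try push_cast) <;> ring
  have g3 : Pr (fun _ => p) (RE (r - 4 * R) r 0 R) (LRc (r - R) r 0 R) = hh p R R := by
    rw [pr_LRc p (by
      rintro ⟨x, y, _ | _⟩ h8
      · simp only [mem_LRE_false, mem_RE_false] at h8 ⊢; omega
      · simp only [mem_LRE_true, mem_RE_true] at h8 ⊢; omega)]
    congr 1 <;> (try push_cast) <;> ring
  have u1 : Pr (fun _ => p) (RE (r - 4 * R) r 0 R) (Sc r R) ≤ _ :=
    Pr_or_le hp (RE (r - 4 * R) r 0 R) (TBc (r - 4 * R) r 0 R)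
      (fun F => LRc (r - 4 * R) (r - 2 * R) 0 R F ∨ LRc (r - R) r 0 R F)
  have u2 := Pr_or_le hp (RE (r - 4 * R) r 0 R) (LRc (r - 4 * R) (r - 2 * R) 0 R)
    (LRc (r - R) r 0 R)
  rw [g1] at u1
  rw [g2, g3] at u2
  rw [← hE]
  linarith

/-- the crossings for the lower bound -/
def Lo (r : ℤ) (F : Finset Edg) : Prop := LRc (-r) r 1 (r + 1) F ∧ TBc (-r) 0 0 (r + 1) F

theorem lo_reach {O : Set Edg} {r : ℤ} (hr : 1 ≤ r) {F : Finset Edg}
    (hF : (↑F : Set Edg) ⊆ O) (h : Lo r F) :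
    ∃ x : ℤ, x ≤ 0 ∧ ∃ v : Vtx, r ≤ v.1 ∧ Reach (O ∩ Bulk) (x, 0) v := by
  obtain ⟨⟨y, y', hy, hy', h1⟩, x, x', hx, hx', h2⟩ := h
  have h3 : Reach ((O ∩ Bulk) ∩ ↑(RE (-r) r 1 (r + 1))) (-r, y) (r, y') := by
    apply h1.mono
    rintro ⟨x, y, _ | _⟩ ⟨h8, h9⟩
    · simp only [mem_coe, mem_LRE_false] at h9
      refine ⟨⟨hF h8, bulk_false.mpr (by omega)⟩, ?_⟩
      simp only [mem_coe, mem_RE_false]; omega
    · simp only [mem_coe, mem_LRE_true] at h9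
      refine ⟨⟨hF h8, bulk_true.mpr (by omega)⟩, ?_⟩
      simp only [mem_coe, mem_RE_true]; omega
  have h4 : Reach ((O ∩ Bulk) ∩ ↑(RE (-r) 0 0 (r + 1))) (x, 0) (x', r + 1) := by
    apply h2.mono
    rintro ⟨x, y, _ | _⟩ ⟨h8, h9⟩
    · simp only [mem_coe, mem_TBE_false] at h9
      refine ⟨⟨hF h8, bulk_false.mpr (by omega)⟩, ?_⟩
      simp only [mem_coe, mem_RE_false]; omega
    · simp only [mem_coe, mem_TBE_true] at h9
      refine ⟨⟨hF h8, bulk_true.mpr (by omega)⟩, ?_⟩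
      simp only [mem_coe, mem_RE_true]; omega
  have h5 := cross_meet (F := O ∩ Bulk) (A := -r) (B := r) (C := 0) (D := r + 1)
    (a := -r) (b := 0) (c := 1) (d := r + 1) le_rfl (by omega) (by omega) (by omega) (by omega)
    le_rfl h3 (by simp only; omega) (by simp only; omega) h4 (by simp only; omega)
    (by simp only; omega)
  exact ⟨x, by omega, (r, y'), le_rfl, (h5.mono Set.inter_subset_left).symm.trans
    (h3.mono Set.inter_subset_left)⟩

theorem lo_pr (hL : WinL) : ∃ c C : ℝ, 0 < c ∧ 0 < C ∧ ∀ p : ℝ, 1/4 ≤ p → p ≤ 1 →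
    ∀ r : ℕ, 1 ≤ r →
      c * Real.exp (-(C * (r * (1/2 - min p (1/2))^(4/3 : ℝ)))) ≤
        Pr (fun _ => p) (RE (-(r:ℤ)) r 0 (r + 1)) (Lo r) := by
  obtain ⟨c, C, hc, hC, hlow⟩ := hL
  refine ⟨c * c, 4 * C, by positivity, by positivity, ?_⟩
  intro p hp0 hp1 r hr
  have hp : Ok (fun _ : Edg => p) := okq (by linarith) hp1
  obtain ⟨q, hq⟩ : ∃ q : ℝ, q = min p (1/2) := ⟨_, rfl⟩
  have hq0 : 1/4 ≤ q := by rw [hq]; exact le_min hp0 (by norm_num)
  have hq1 : q ≤ 1/2 := by rw [hq]; exact min_le_right _ _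
  have hqp : q ≤ p := by rw [hq]; exact min_le_left _ _
  rw [← hq]
  have hr0 : (1:ℝ) ≤ r := by exact_mod_cast hr
  have hδ : 0 ≤ (1/2 - q)^(4/3 : ℝ) := Real.rpow_nonneg (by linarith) _
  obtain ⟨E, hE⟩ : ∃ E : ℝ, E = Real.exp (-(2 * C * (r * (1/2 - q)^(4/3 : ℝ)))) := ⟨_, rfl⟩
  have hE0 : 0 < E := by rw [hE]; exact Real.exp_pos _
  have h1 := hlow q hq0 hq1 (2 * r) r (by omega) hr (by omega) (by omega)
  have h2 := hlow q hq0 hq1 (r + 1) r (by omega) hr (by omega) (by omega)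
  have h1' : c * E ≤ hh p ((2 * r : ℕ) : ℤ) r := by
    refine le_trans ?_ (h1.trans (hh_mono_param (by linarith) hqp hp1 _ _))
    apply mul_le_mul_of_nonneg_left _ hc.le
    rw [hE]
    apply Real.exp_le_exp.mpr
    push_cast
    linarith
  have h2' : c * E ≤ hh p ((r + 1 : ℕ) : ℤ) r := by
    refine le_trans ?_ (h2.trans (hh_mono_param (by linarith) hqp hp1 _ _))
    apply mul_le_mul_of_nonneg_left _ hc.le
    rw [hE]
    apply Real.exp_le_exp.mpr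
    push_cast
    have e1 : ((r:ℝ) + 1) * (1/2 - q)^(4/3 : ℝ) ≤ (2 * r) * (1/2 - q)^(4/3 : ℝ) :=
      mul_le_mul_of_nonneg_right (by linarith) hδ
    have := mul_le_mul_of_nonneg_left e1 hC.le
    linarith
  have g1 : Pr (fun _ => p) (RE (-(r:ℤ)) r 0 (r + 1)) (LRc (-(r:ℤ)) r 1 (r + 1)) =
      hh p ((2 * r : ℕ) : ℤ) r := by
    rw [pr_LRc p (by
      rintro ⟨x, y, _ | _⟩ h8
      · simp only [mem_LRE_false, mem_RE_false] at h8 ⊢; omega
      · simp only [mem_LRE_true, mem_RE_true] at h8 ⊢; omega)]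
    congr 1 <;> (try push_cast) <;> ring
  have g2 : Pr (fun _ => p) (RE (-(r:ℤ)) r 0 (r + 1)) (TBc (-(r:ℤ)) 0 0 (r + 1)) =
      hh p ((r + 1 : ℕ) : ℤ) r := by
    rw [pr_TBc p (by
      rintro ⟨x, y, _ | _⟩ h8
      · simp only [mem_TBE_false, mem_RE_false] at h8 ⊢; omega
      · simp only [mem_TBE_true, mem_RE_true] at h8 ⊢; omega)]
    congr 1 <;> (try push_cast) <;> ring
  have h3 := Pr_harris hp (S := RE (-(r:ℤ)) r 0 (r + 1))
    (LRc_incr (RE (-(r:ℤ)) r 0 (r + 1)) (-(r:ℤ)) r 1 (r + 1))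
    (TBc_incr (RE (-(r:ℤ)) r 0 (r + 1)) (-(r:ℤ)) 0 0 (r + 1))
  rw [g1, g2] at h3
  refine le_trans ?_ h3
  have h4 : (c * E) * (c * E) ≤ hh p ((2 * r : ℕ) : ℤ) r * hh p ((r + 1 : ℕ) : ℤ) r :=
    mul_le_mul h1' h2' (by positivity) (by
      exact (by positivity : 0 ≤ c * E).trans h1')
  refine le_trans (le_of_eq ?_) h4
  have e1 : Real.exp (-(4 * C * (r * (1/2 - q)^(4/3 : ℝ)))) = E * E := by
    rw [hE, ← Real.exp_add]; congr 1; ring
  rw [e1]; ring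

end Pool.Agent.H940.GP
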