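import Pool.Agent.H940.GP.Up
import Pool.Agent.H940.GP.Many

/-!
Homogeneous percolation: the height of the cluster of the bottom side of a box.
-/

set_option maxHeartbeats 1000000

namespace Pool.Agent.H940.GP

open H974 Finset

/-- upper bound for the height of the cluster of the bottom side -/
theorem hom_up (hW : WinU) : ∃ c C : ℝ, 0 < c ∧ 0 < C ∧ ∀ p : ℝ, 0 ≤ p → p ≤ 1/2 →
    ∀ (S : Finset Edg) (ℓ h : ℕ), 1 ≤ h →
      Pr (fun _ => p) S (TBc 0 ℓ 0 h) ≤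
        C * ((ℓ:ℝ) / h + 1) * Real.exp (-(c * (h * (1/2 - p)^(4/3 : ℝ)))) := by
  obtain ⟨c, C, hc, hC, hw⟩ := hW
  refine ⟨c, 3 * C, hc, by positivity, ?_⟩
  intro p hp0 hp1 S ℓ h hh1
  have hp : Ok (fun _ : Edg => p) := okq hp0 (by linarith)
  have hh0 : (1:ℝ) ≤ h := by exact_mod_cast hh1
  set E : ℝ := Real.exp (-(c * (h * (1/2 - p)^(4/3 : ℝ)))) with hE
  have hE0 : 0 < E := Real.exp_pos _
  have hw1 := hw p hp0 hp1 h (3 * h) hh1 (by omega) (by omega)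
  have hw2 := hw p hp0 hp1 h h hh1 (by omega) (by omega)
  set T : Finset Edg := S ∪ RE (-(h:ℤ)) (ℓ + 2 * h) 0 h with hT
  have hST : Pr (fun _ => p) S (TBc 0 ℓ 0 h) ≤ Pr (fun _ => p) T (TBc 0 ℓ 0 h) :=
    Pr_mono_set hp Finset.subset_union_left (TBc_incr _ _ _ _ _)
  have hev : Pr (fun _ => p) T (TBc 0 ℓ 0 h) ≤ Pr (fun _ => p) T (fun F => ∃ j < ℓ / h + 1,
      TBc (((j:ℕ):ℤ) * h - h) (j * h + 2 * h) 0 (0 + h) F ∨
      LRc (((j:ℕ):ℤ) * h - h) (j * h) 0 (0 + h) F ∨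
      LRc (((j:ℕ):ℤ) * h + h) (j * h + 2 * h) 0 (0 + h) F) := by
    apply Pr_mono hp
    intro F _ hF
    have e0 : (h:ℤ) = 0 + h := by ring
    rw [e0] at hF
    exact TB_windows hh1 hF
  have hbd := Pr_exists_le hp T (fun j F =>
      TBc (((j:ℕ):ℤ) * h - h) (j * h + 2 * h) 0 (0 + h) F ∨
      LRc (((j:ℕ):ℤ) * h - h) (j * h) 0 (0 + h) F ∨
      LRc (((j:ℕ):ℤ) * h + h) (j * h + 2 * h) 0 (0 + h) F) (ε := 3 * (C * E)) (ℓ / h + 1) (by
        intro j hj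
        have hjk : (j:ℤ) * h ≤ ℓ := by
          have h1 : j * h ≤ ℓ := by
            have h2 : j ≤ ℓ / h := by omega
            calc j * h ≤ ℓ / h * h := Nat.mul_le_mul_right _ h2
              _ ≤ ℓ := Nat.div_mul_le_self _ _
          exact_mod_cast h1
        have hjk0 : 0 ≤ (j:ℤ) * h := by positivity
        have hsub1 : TBE ((j:ℤ) * h - h) (j * h + 2 * h) 0 (0 + h) ⊆ T := by
          refine Finset.Subset.trans ?_ Finset.subset_union_right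
          rintro ⟨x, y, _ | _⟩ h8
          · simp only [mem_TBE_false, mem_RE_false] at h8 ⊢; omega
          · simp only [mem_TBE_true, mem_RE_true] at h8 ⊢; omega
        have hsub2 : LRE ((j:ℤ) * h - h) (j * h) 0 (0 + h) ⊆ T := by
          refine Finset.Subset.trans ?_ Finset.subset_union_right
          rintro ⟨x, y, _ | _⟩ h8
          · simp only [mem_LRE_false, mem_RE_false] at h8 ⊢; omega
          · simp only [mem_LRE_true, mem_RE_true] at h8 ⊢; omega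
        have hsub3 : LRE ((j:ℤ) * h + h) (j * h + 2 * h) 0 (0 + h) ⊆ T := by
          refine Finset.Subset.trans ?_ Finset.subset_union_right
          rintro ⟨x, y, _ | _⟩ h8
          · simp only [mem_LRE_false, mem_RE_false] at h8 ⊢; omega
          · simp only [mem_LRE_true, mem_RE_true] at h8 ⊢; omega
        have b1 := TB_le hp hp0 (by linarith) hsub1 (fun e _ => le_refl p)
        have b2 := LR_le hp hp0 (by linarith) hsub2 (fun e _ => le_refl p)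
        have b3 := LR_le hp hp0 (by linarith) hsub3 (fun e _ => le_refl p)
        have e1 : 0 + (h:ℤ) - 0 = h := by ring
        have e2 : (j:ℤ) * h + 2 * h - (j * h - h) = ((3 * h : ℕ) : ℤ) := by push_cast; ring
        have e3 : (j:ℤ) * h - (j * h - h) = h := by ring
        have e4 : (j:ℤ) * h + 2 * h - (j * h + h) = h := by ring
        rw [e1, e2] at b1
        rw [e1, e3] at b2
        rw [e1, e4] at b3
        have u1 := Pr_or_le hp T (TBc ((j:ℤ) * h - h) (j * h + 2 * h) 0 (0 + h))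
          (fun F => LRc ((j:ℤ) * h - h) (j * h) 0 (0 + h) F ∨
            LRc ((j:ℤ) * h + h) (j * h + 2 * h) 0 (0 + h) F)
        have u2 := Pr_or_le hp T (LRc ((j:ℤ) * h - h) (j * h) 0 (0 + h))
          (LRc ((j:ℤ) * h + h) (j * h + 2 * h) 0 (0 + h))
        linarith)
  have hnum : (((ℓ / h + 1 : ℕ)) : ℝ) ≤ (ℓ:ℝ) / h + 1 := by
    have h1 : ((ℓ / h : ℕ) : ℝ) ≤ (ℓ:ℝ) / h := Nat.cast_div_le
    push_cast
    linarith
  calc Pr (fun _ => p) S (TBc 0 ℓ 0 h) ≤ _ := hST.trans (hev.trans hbd)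
    _ ≤ ((ℓ:ℝ) / h + 1) * (3 * (C * E)) := mul_le_mul_of_nonneg_right hnum (by positivity)
    _ = 3 * C * ((ℓ:ℝ) / h + 1) * E := by ring

/-- lower bound for the height of the cluster of the bottom side -/
theorem hom_low (hL : WinL) : ∃ c C : ℝ, 0 < c ∧ 0 < C ∧ ∀ p : ℝ, 1/4 ≤ p → p ≤ 1/2 →
    ∀ (S : Finset Edg) (ℓ h : ℕ), 1 ≤ h → h ≤ ℓ → TBE 0 ℓ 0 h ⊆ S →
      Pr (fun _ => p) S (fun F => ¬ TBc 0 ℓ 0 h F) ≤
        Real.exp (-(c * ((ℓ:ℝ) / h) *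
          Real.exp (-(C * (h * (1/2 - p)^(4/3 : ℝ)))))) := by
  obtain ⟨c, C, hc, hC, hw⟩ := hL
  refine ⟨c / 4, C, by positivity, hC, ?_⟩
  intro p hp0 hp1 S ℓ h hh1 hhl hS
  have hp : Ok (fun _ : Edg => p) := okq (by linarith) (by linarith)
  obtain ⟨n, hn⟩ : ∃ n : ℕ, n = (ℓ + 1) / (h + 1) := ⟨_, rfl⟩
  have hn1 : n * (h + 1) ≤ ℓ + 1 := by rw [hn]; exact Nat.div_mul_le_self _ _
  have hn2 : ℓ + 1 < n * (h + 1) + (h + 1) := by rw [hn]; exact Nat.lt_div_mul_add (by omega)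
  have hnpos : 1 ≤ n := by
    rw [hn]
    exact (Nat.one_le_div_iff (by omega)).mpr (by omega)
  have hil : ∀ i < n, (i:ℤ) * (h + 1) + h ≤ ℓ := by
    intro i hi
    have h1 : (i + 1) * (h + 1) ≤ n * (h + 1) := Nat.mul_le_mul_right _ hi
    have h2 : (i + 1) * (h + 1) ≤ ℓ + 1 := h1.trans hn1
    have h3 : ((i:ℤ) + 1) * (h + 1) ≤ ℓ + 1 := by exact_mod_cast h2
    have h4 : ((i:ℤ) + 1) * (h + 1) = i * (h + 1) + h + 1 := by ring
    omega
  have hi0 : ∀ i : ℕ, 0 ≤ (i:ℤ) * (h + 1) := fun i => by positivity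
  have hsub : ∀ i < n, TBE (((i:ℕ):ℤ) * (h + 1)) (i * (h + 1) + h) (-((0:ℕ):ℤ)) h ⊆ S := by
    intro i hi
    refine Finset.Subset.trans ?_ hS
    have h1 := hil i hi
    have h2 := hi0 i
    rintro ⟨x, y, _ | _⟩ h8
    · simp only [mem_TBE_false] at h8 ⊢; omega
    · simp only [mem_TBE_true] at h8 ⊢; omega
  set β : ℝ := c * Real.exp (-(C * (h * (1/2 - p)^(4/3 : ℝ)))) with hβ
  have hβ0 : 0 < β := by positivity
  have hb : ∀ i < n, β ≤ Pr (fun _ => p) S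
      (TBc (((i:ℕ):ℤ) * (h + 1)) (i * (h + 1) + h) (-((0:ℕ):ℤ)) h) := by
    intro i hi
    rw [pr_TBc p (hsub i hi)]
    have e1 : (h:ℤ) - (-((0:ℕ):ℤ)) = h := by push_cast; ring
    have e2 : (i:ℤ) * (h + 1) + h - i * (h + 1) = h := by ring
    rw [e1, e2]
    exact hw p hp0 hp1 h h hh1 hh1 (by omega) (by omega)
  have hβ1 : β ≤ 1 := (hb 0 hnpos).trans (Pr_le_one hp _ _)
  have h1 := many hp hh1 n hsub hb
  have h2 : Pr (fun _ => p) S (fun F => ¬ TBc 0 ℓ 0 h F) ≤ Pr (fun _ => p) S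
      (fun F => ∀ i < n, ¬ TBc (((i:ℕ):ℤ) * (h + 1)) (i * (h + 1) + h) (-((0:ℕ):ℤ)) h F) := by
    apply Pr_mono hp
    intro F _ hF i hi hT
    apply hF
    have e0 : -((0:ℕ):ℤ) = 0 := by norm_num
    rw [e0] at hT
    exact TBc_sub le_rfl (by omega) le_rfl (hi0 i) (hil i hi) hT
  have h3 : (1 - β)^n ≤ Real.exp (-((n:ℝ) * β)) := by
    calc (1 - β)^n ≤ (Real.exp (-β))^n :=
          pow_le_pow_left₀ (by linarith) (Real.one_sub_le_exp_neg β) n
      _ = Real.exp (-((n:ℝ) * β)) := by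
          rw [← Real.exp_nat_mul]; congr 1; ring
  have h4 : (ℓ:ℝ) / h / 4 ≤ n := by
    have hh0 : (1:ℝ) ≤ h := by exact_mod_cast hh1
    rw [div_div, div_le_iff₀ (by positivity)]
    have e1 : (ℓ:ℝ) + 1 < n * (h + 1) + (h + 1) := by exact_mod_cast hn2
    have e2 : (1:ℝ) ≤ n := by exact_mod_cast hnpos
    nlinarith
  refine h2.trans (h1.trans (h3.trans ?_))
  apply Real.exp_le_exp.mpr
  have h5 : c / 4 * ((ℓ:ℝ) / h) * Real.exp (-(C * (h * (1/2 - p)^(4/3 : ℝ)))) =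
      ((ℓ:ℝ) / h / 4) * β := by
    rw [hβ]; ring
  rw [h5]
  have := mul_le_mul_of_nonneg_right h4 hβ0.le
  linarith

/-- the computation for the upper bound -/
theorem hkey_up {c1 C1 A M Λ R ℓ k : ℝ} (hc1 : 0 < c1) (hC1 : 0 < C1) (hA2 : 2 ≤ A)
    (hAc : 4 ≤ A * c1) (hAC : 4 * C1 ≤ A) (hM0 : 0 < M) (hℓ0 : 0 < ℓ)
    (hΛ1 : 1 ≤ Λ) (hMℓ : M ≤ ℓ) (hexp : Real.exp Λ = ℓ / M)
    (hR : R = M * Λ) (hk : A * R / 2 ≤ k) :
    C1 * (ℓ / k + 1) * Real.exp (-(c1 * (k * M⁻¹))) ≤ A / 2 * Real.exp (-Λ) := by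
  have hA0 : 0 < A := by linarith
  have hRM : M ≤ R := by rw [hR]; nlinarith
  have hMk : M ≤ k := by nlinarith
  have k1 : ℓ / k ≤ ℓ / M := div_le_div_of_nonneg_left hℓ0.le hM0 hMk
  have k2 : 1 ≤ ℓ / M := by rw [le_div_iff₀ hM0]; linarith
  have k3 : 2 * Λ ≤ c1 * (k * M⁻¹) := by
    have e5 : A / 2 * Λ ≤ k * M⁻¹ := by
      rw [← div_eq_mul_inv, le_div_iff₀ hM0]
      rw [hR] at hk
      linarith
    have e7 := mul_le_mul_of_nonneg_left e5 hc1.le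
    have e8 : 4 * Λ ≤ A * c1 * Λ := mul_le_mul_of_nonneg_right hAc (by linarith)
    linarith
  have k4 : Real.exp (-(c1 * (k * M⁻¹))) ≤ Real.exp (-Λ) * Real.exp (-Λ) := by
    rw [← Real.exp_add]
    apply Real.exp_le_exp.mpr
    linarith
  have k5 : Real.exp (-Λ) * (ℓ / M) = 1 := by
    rw [← hexp, ← Real.exp_add]; simp
  have kE : 0 < Real.exp (-Λ) := Real.exp_pos _
  calc C1 * (ℓ / k + 1) * Real.exp (-(c1 * (k * M⁻¹)))
      ≤ C1 * (2 * (ℓ / M)) * (Real.exp (-Λ) * Real.exp (-Λ)) := by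
        apply mul_le_mul _ k4 (Real.exp_pos _).le (by positivity)
        apply mul_le_mul_of_nonneg_left _ hC1.le
        linarith
    _ = 2 * C1 * Real.exp (-Λ) * (Real.exp (-Λ) * (ℓ / M)) := by ring
    _ = 2 * C1 * Real.exp (-Λ) := by rw [k5, mul_one]
    _ ≤ A / 2 * Real.exp (-Λ) := by
        apply mul_le_mul_of_nonneg_right _ kE.le
        linarith

/-- the computation for the lower bound -/
theorem hkey_low {c2 C2 a A M Λ R ℓ k : ℝ} (hc2 : 0 < c2) (hC2 : 0 < C2) (ha0 : 0 < a)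
    (ha1 : a ≤ 1/4) (ha2 : C2 * (2 * a) ≤ 1/4) (hAd : 64 / c2 ^ 2 ≤ A) (hM0 : 0 < M)
    (hΛ1 : 1 ≤ Λ) (hR : R = M * Λ) (hMexp : M * Real.exp Λ = ℓ) (hk0 : 0 < k)
    (hk : k ≤ 2 * (a * R)) :
    Real.exp (-(c2 * (ℓ / k) * Real.exp (-(C2 * (k * M⁻¹))))) ≤ A / 2 * Real.exp (-Λ) := by
  have hR0 : 0 < R := by rw [hR]; positivity
  have k1 : C2 * (k * M⁻¹) ≤ Λ / 4 := by
    have e4 : k * M⁻¹ ≤ 2 * a * Λ := by
      rw [← div_eq_mul_inv, div_le_iff₀ hM0]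
      rw [hR] at hk
      linarith
    have e5 := mul_le_mul_of_nonneg_left e4 hC2.le
    have e6 := mul_le_mul_of_nonneg_right ha2 (by linarith : 0 ≤ Λ)
    linarith
  have k2 : Real.exp (-(Λ / 4)) ≤ Real.exp (-(C2 * (k * M⁻¹))) :=
    Real.exp_le_exp.mpr (by linarith)
  have k3 : Λ ≤ 4 * Real.exp (Λ / 4) := by
    have := Real.add_one_le_exp (Λ / 4)
    linarith
  have k4 : Real.exp (3 * Λ / 4) / 4 ≤ ℓ / k := by
    rw [div_le_div_iff₀ (by norm_num) hk0]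
    have e0 : 2 * (a * R) ≤ R := by nlinarith
    have e1 : k ≤ M * Λ := by rw [← hR]; linarith
    have e2 : k ≤ M * (4 * Real.exp (Λ / 4)) :=
      e1.trans (mul_le_mul_of_nonneg_left k3 hM0.le)
    have e3 : Real.exp (3 * Λ / 4) * Real.exp (Λ / 4) = Real.exp Λ := by
      rw [← Real.exp_add]; congr 1; ring
    calc Real.exp (3 * Λ / 4) * k
        ≤ Real.exp (3 * Λ / 4) * (M * (4 * Real.exp (Λ / 4))) :=
          mul_le_mul_of_nonneg_left e2 (Real.exp_pos _).le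
      _ = M * (Real.exp (3 * Λ / 4) * Real.exp (Λ / 4)) * 4 := by ring
      _ = ℓ * 4 := by rw [e3, hMexp]
  have k5 : c2 / 4 * Real.exp (Λ / 2) ≤ c2 * (ℓ / k) * Real.exp (-(C2 * (k * M⁻¹))) := by
    have e1 : Real.exp (3 * Λ / 4) * Real.exp (-(Λ / 4)) = Real.exp (Λ / 2) := by
      rw [← Real.exp_add]; congr 1; ring
    calc c2 / 4 * Real.exp (Λ / 2)
        = (c2 * (Real.exp (3 * Λ / 4) / 4)) * Real.exp (-(Λ / 4)) := by
          rw [← e1]; ring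
      _ ≤ _ := by
          apply mul_le_mul (mul_le_mul_of_nonneg_left k4 hc2.le) k2 (Real.exp_pos _).le
          exact mul_nonneg hc2.le ((by positivity : 0 ≤ Real.exp (3 * Λ / 4) / 4).trans k4)
  obtain ⟨x, hx⟩ : ∃ x : ℝ, x = c2 / 4 * Real.exp (Λ / 2) := ⟨_, rfl⟩
  rw [← hx] at k5
  have hx0 : 0 < x := by rw [hx]; positivity
  have k6 : Real.exp (-x) ≤ 2 / x ^ 2 := by
    have e1 := Real.quadratic_le_exp_of_nonneg hx0.le
    rw [Real.exp_neg, ← one_div, div_le_div_iff₀ (Real.exp_pos _) (by positivity)]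
    nlinarith
  have k7 : 2 / x ^ 2 = 32 / c2 ^ 2 * Real.exp (-Λ) := by
    have e1 : Real.exp (Λ / 2) ^ 2 = Real.exp Λ := by
      rw [← Real.exp_nat_mul]; congr 1; push_cast; ring
    rw [hx, mul_pow, e1, Real.exp_neg]
    have := Real.exp_pos Λ
    field_simp
    norm_num
  calc _ ≤ Real.exp (-x) := Real.exp_le_exp.mpr (by linarith)
    _ ≤ 32 / c2 ^ 2 * Real.exp (-Λ) := by rw [← k7]; exact k6
    _ ≤ A / 2 * Real.exp (-Λ) := by
        apply mul_le_mul_of_nonneg_right _ (Real.exp_pos _).le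
        have e2 : 32 / c2 ^ 2 = 64 / c2 ^ 2 / 2 := by ring
        rw [e2]
        linarith

end Pool.Agent.H940.GP
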