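import Pool.Agent.H940.GP.Hom

/-!
Homogeneous percolation below criticality: the order of magnitude of the height of the cluster of
the bottom side of a box, and the critical window.
-/

set_option maxHeartbeats 1000000

namespace Pool.Agent.H940.GP

open H974 Finset Filter Topology

theorem hom_asym (hW : WinU) (hL : WinL) : ∃ a A : ℝ, 0 < a ∧ 0 < A ∧
    ∀ p : ℝ, 1/4 ≤ p → p < 1/2 → ∀ ℓ H : ℕ, ∀ M R : ℝ, M = (1/2 - p)^(-(4/3) : ℝ) →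
      R = M * Real.log ((ℓ:ℝ) / M) → A * M ≤ ℓ → R ≤ H →
    ∃ h0 h1 : ℕ, (h0:ℝ) ≤ A * R ∧ 1 ≤ h0 ∧ a * R ≤ h1 ∧ 1 ≤ h1 ∧ h1 ≤ H ∧ h1 ≤ ℓ ∧ 0 < ℓ ∧
      Pr (fun _ => p) (RE 0 ℓ 0 H) (TBc 0 ℓ 0 h0) ≤ A / 2 * (M / ℓ) ∧
      Pr (fun _ => p) (RE 0 ℓ 0 H) (fun F => ¬ TBc 0 ℓ 0 h1 F) ≤ A / 2 * (M / ℓ) := by
  obtain ⟨c1, C1, hc1, hC1, hup⟩ := hom_up hW
  obtain ⟨c2, C2, hc2, hC2, hlow⟩ := hom_low hL
  obtain ⟨a, ha⟩ : ∃ a : ℝ, a = min (1/4) (1 / (8 * C2)) := ⟨_, rfl⟩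
  have ha0 : 0 < a := by rw [ha]; positivity
  have ha1 : a ≤ 1/4 := by rw [ha]; exact min_le_left _ _
  have ha2 : C2 * (2 * a) ≤ 1/4 := by
    have h1 : a ≤ 1 / (8 * C2) := by rw [ha]; exact min_le_right _ _
    rw [le_div_iff₀ (by positivity)] at h1
    linarith
  obtain ⟨Λ0, hΛ0⟩ : ∃ Λ0 : ℝ, Λ0 = max 1 a⁻¹ := ⟨_, rfl⟩
  have hΛ01 : 1 ≤ Λ0 := by rw [hΛ0]; exact le_max_left _ _
  have hΛ0a : a⁻¹ ≤ Λ0 := by rw [hΛ0]; exact le_max_right _ _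
  obtain ⟨A, hA⟩ : ∃ A : ℝ, A = 2 + 4 / c1 + Real.exp Λ0 + 4 * C1 + 64 / c2 ^ 2 := ⟨_, rfl⟩
  have p1 : 0 < 4 / c1 := by positivity
  have p2 : 0 < Real.exp Λ0 := Real.exp_pos _
  have p3 : 0 < 64 / c2 ^ 2 := by positivity
  have hA2 : 2 ≤ A := by rw [hA]; linarith
  have hAc : 4 ≤ A * c1 := by
    have : 4 / c1 ≤ A := by rw [hA]; linarith
    rwa [div_le_iff₀ hc1] at this
  have hAe : Real.exp Λ0 ≤ A := by rw [hA]; linarith
  have hAC : 4 * C1 ≤ A := by rw [hA]; linarith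
  have hAd : 64 / c2 ^ 2 ≤ A := by rw [hA]; linarith
  refine ⟨a, A, ha0, by linarith, ?_⟩
  intro p hp0 hp1 ℓ H M R hM hR hℓ1 hRH
  have hδ : 0 < 1/2 - p := by linarith
  have hMinv : M⁻¹ = (1/2 - p)^(4/3 : ℝ) := by
    rw [hM, Real.rpow_neg hδ.le, inv_inv]
  have hM1 : 1 ≤ M := by
    rw [hM]
    exact Real.one_le_rpow_of_pos_of_le_one_of_nonpos hδ (by linarith) (by norm_num)
  have hM0 : 0 < M := by linarith
  have hℓ0 : (0:ℝ) < ℓ := by nlinarith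
  have hℓn : 0 < ℓ := by exact_mod_cast hℓ0
  obtain ⟨Λ, hΛ⟩ : ∃ Λ : ℝ, Λ = Real.log ((ℓ:ℝ) / M) := ⟨_, rfl⟩
  rw [← hΛ] at hR
  have hexpΛ : Real.exp Λ = ℓ / M := by rw [hΛ]; exact Real.exp_log (by positivity)
  have hMexp : M * Real.exp Λ = ℓ := by rw [hexpΛ]; field_simp
  have hMℓ : M / ℓ = Real.exp (-Λ) := by rw [Real.exp_neg, hexpΛ, inv_div]
  have hΛge : Λ0 ≤ Λ := by
    rw [← Real.exp_le_exp, hexpΛ, le_div_iff₀ hM0]
    exact (mul_le_mul_of_nonneg_right hAe hM0.le).trans hℓ1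
  have hΛ1 : 1 ≤ Λ := hΛ01.trans hΛge
  have haΛ : 1 ≤ a * Λ := by
    calc 1 = a * a⁻¹ := (mul_inv_cancel₀ ha0.ne').symm
      _ ≤ a * Λ := mul_le_mul_of_nonneg_left (hΛ0a.trans hΛge) ha0.le
  have hMℓ1 : M ≤ ℓ := by nlinarith
  have hRM : M ≤ R := by rw [hR]; nlinarith
  have haR : M ≤ a * R := by rw [hR]; nlinarith
  have hR1 : 1 ≤ R := hM1.trans hRM
  have hRℓ : R ≤ ℓ := by
    rw [hR, ← hMexp]
    have := Real.add_one_le_exp Λ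
    exact mul_le_mul_of_nonneg_left (by linarith) hM0.le
  have hceil1 : ((⌈a * R⌉₊ : ℕ) : ℝ) < a * R + 1 := Nat.ceil_lt_add_one (by positivity)
  have hceil2 : a * R ≤ ((⌈a * R⌉₊ : ℕ) : ℝ) := Nat.le_ceil _
  have hceil5 : (1:ℝ) ≤ ((⌈a * R⌉₊ : ℕ) : ℝ) := by linarith
  have hceil6 : 1 ≤ ⌈a * R⌉₊ := by exact_mod_cast hceil5
  have hceil7 : ((⌈a * R⌉₊ : ℕ) : ℝ) ≤ R := by nlinarith
  have hceil8 : ⌈a * R⌉₊ ≤ H := by exact_mod_cast hceil7.trans hRH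
  have hceil9 : ⌈a * R⌉₊ ≤ ℓ := by exact_mod_cast hceil7.trans hRℓ
  have h1 : A * R < (⌊A * R⌋₊ : ℝ) + 1 := Nat.lt_floor_add_one _
  have h2 : A * R / 2 ≤ (⌊A * R⌋₊ : ℝ) := by nlinarith
  have h3 : (1:ℝ) ≤ (⌊A * R⌋₊ : ℝ) := by nlinarith
  have h3' : 1 ≤ ⌊A * R⌋₊ := by exact_mod_cast h3
  refine ⟨⌊A * R⌋₊, ⌈a * R⌉₊, Nat.floor_le (by positivity), h3', hceil2, hceil6, hceil8, hceil9,
    hℓn, ?_, ?_⟩
  · have u1 := hup p (by linarith) hp1.le (RE 0 ℓ 0 H) ℓ ⌊A * R⌋₊ h3'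
    rw [← hMinv] at u1
    rw [hMℓ]
    exact u1.trans (hkey_up hc1 hC1 hA2 hAc hAC hM0 hℓ0 hΛ1 hMℓ1 hexpΛ hR h2)
  · have u1 := hlow p hp0 hp1.le (RE 0 ℓ 0 H) ℓ ⌈a * R⌉₊ hceil6 hceil9 (by
      rintro ⟨x, y, _ | _⟩ h8
      · simp only [mem_TBE_false, mem_RE_false] at h8 ⊢; omega
      · simp only [mem_TBE_true, mem_RE_true] at h8 ⊢; omega)
    rw [← hMinv] at u1
    rw [hMℓ]
    exact u1.trans (hkey_low hc2 hC2 ha0 ha1 ha2 hAd hM0 hΛ1 hR hMexp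
      (by linarith : (0:ℝ) < ((⌈a * R⌉₊ : ℕ) : ℝ)) (by linarith))

/-- The critical window, in terms of the scaling variable `(1/2 - p) n ^ (3/4)`. -/
theorem hom_window (hW : WinU) (hL : WinL) (p : ℕ → ℝ) (hp : ∀ n, 0 ≤ p n ∧ p n ≤ 1/2) :
    (∀ ε : ℝ, 0 < ε → Tendsto (fun n : ℕ => Pr (fun _ => p n) (RE 0 n 0 n)
      (TBc 0 n 0 ⌈ε * n⌉₊)) atTop (𝓝 0)) ↔
    Tendsto (fun n : ℕ => (1/2 - p n) * (n:ℝ)^(3/4 : ℝ)) atTop atTop := by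
  obtain ⟨c1, C1, hc1, hC1, hup⟩ := hom_up hW
  obtain ⟨c2, C2, hc2, hC2, hlow⟩ := hom_low hL
  have hpow : ∀ n : ℕ, (n:ℝ) * (1/2 - p n)^(4/3 : ℝ) =
      ((1/2 - p n) * (n:ℝ)^(3/4 : ℝ))^(4/3 : ℝ) := by
    intro n
    rw [Real.mul_rpow (by linarith [(hp n).2]) (by positivity), ← Real.rpow_mul (by positivity)]
    norm_num
    ring
  constructor
  · intro hT
    by_contra hcon
    rw [tendsto_atTop] at hcon
    push Not at hcon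
    obtain ⟨K, hK⟩ := hcon
    -- the lower bound on the probabilities
    obtain ⟨q, hq⟩ : ∃ q : ℝ, q = Real.exp (-(c2 * Real.exp (-(C2 * (max K 0)^(4/3 : ℝ))))) :=
      ⟨_, rfl⟩
    have hq1 : q < 1 := by
      rw [hq, ← Real.exp_zero]
      apply Real.exp_lt_exp.mpr
      have : 0 < c2 * Real.exp (-(C2 * (max K 0)^(4/3 : ℝ))) := by positivity
      linarith
    have hev1 : ∀ᶠ n : ℕ in atTop, Pr (fun _ => p n) (RE 0 n 0 n)
        (TBc 0 n 0 ⌈(1:ℝ) * n⌉₊) < 1 - q :=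
      (hT 1 one_pos).eventually (gt_mem_nhds (by linarith))
    have hev2 : ∀ᶠ n : ℕ in atTop, 4 * max K 0 ≤ (n:ℝ)^(3/4 : ℝ) :=
      ((tendsto_rpow_atTop (by norm_num : (0:ℝ) < 3/4)).comp
        tendsto_natCast_atTop_atTop).eventually_ge_atTop _
    obtain ⟨n, hn1, hn2, hn3, hn4⟩ := (hK.and_eventually
      (hev1.and (hev2.and (eventually_ge_atTop 1)))).exists
    have hn0 : (1:ℝ) ≤ n := by exact_mod_cast hn4
    have hnp : 0 < (n:ℝ)^(3/4 : ℝ) := by positivity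
    have hδ : 1/2 - p n ≤ 1/4 := by
      have h1 : (1/2 - p n) * (n:ℝ)^(3/4 : ℝ) ≤ max K 0 := hn1.le.trans (le_max_left _ _)
      by_contra h2
      push Not at h2
      nlinarith
    have hδ0 : 0 ≤ 1/2 - p n := by linarith [(hp n).2]
    have hc : ⌈(1:ℝ) * n⌉₊ = n := by rw [one_mul, Nat.ceil_natCast]
    rw [hc] at hn2
    have hl := hlow (p n) (by linarith) (hp n).2 (RE 0 n 0 n) n n hn4 le_rfl (by
      rintro ⟨x, y, _ | _⟩ h8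
      · simp only [mem_TBE_false, mem_RE_false] at h8 ⊢; omega
      · simp only [mem_TBE_true, mem_RE_true] at h8 ⊢; omega)
    rw [Pr_not, div_self (by linarith : (n:ℝ) ≠ 0), mul_one, hpow n] at hl
    have h5 : Real.exp (-(c2 * Real.exp (-(C2 *
        ((1/2 - p n) * (n:ℝ)^(3/4 : ℝ))^(4/3 : ℝ))))) ≤ q := by
      rw [hq]
      apply Real.exp_le_exp.mpr
      have h6 : ((1/2 - p n) * (n:ℝ)^(3/4 : ℝ))^(4/3 : ℝ) ≤ (max K 0)^(4/3 : ℝ) :=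
        Real.rpow_le_rpow (by positivity) (hn1.le.trans (le_max_left _ _)) (by norm_num)
      have h7 : Real.exp (-(C2 * (max K 0)^(4/3 : ℝ))) ≤
          Real.exp (-(C2 * ((1/2 - p n) * (n:ℝ)^(3/4 : ℝ))^(4/3 : ℝ))) := by
        apply Real.exp_le_exp.mpr
        have := mul_le_mul_of_nonneg_left h6 hC2.le
        linarith
      have := mul_le_mul_of_nonneg_left h7 hc2.le
      linarith
    linarith
  · intro hT ε hε
    have hbd : ∀ᶠ n : ℕ in atTop, Pr (fun _ => p n) (RE 0 n 0 n) (TBc 0 n 0 ⌈ε * n⌉₊) ≤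
        C1 * (1 / ε + 1) * Real.exp (-(c1 * ε * ((1/2 - p n) * (n:ℝ)^(3/4 : ℝ))^(4/3 : ℝ))) := by
      filter_upwards [eventually_ge_atTop 1] with n hn
      have hn0 : (1:ℝ) ≤ n := by exact_mod_cast hn
      have hc1' : ε * n ≤ (⌈ε * n⌉₊ : ℝ) := Nat.le_ceil _
      have hpos : 0 < (⌈ε * n⌉₊ : ℝ) := (by positivity : 0 < ε * n).trans_le hc1'
      have h1 := hup (p n) (hp n).1 (hp n).2 (RE 0 n 0 n) n ⌈ε * n⌉₊
        (by exact_mod_cast hpos)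
      refine h1.trans ?_
      have hδ0 : 0 ≤ 1/2 - p n := by linarith [(hp n).2]
      apply mul_le_mul
      · apply mul_le_mul_of_nonneg_left _ hC1.le
        have h2 : (n:ℝ) / (⌈ε * n⌉₊ : ℝ) ≤ 1 / ε := by
          rw [div_le_div_iff₀ hpos hε]
          linarith
        linarith
      · apply Real.exp_le_exp.mpr
        rw [← hpow n]
        have h3 : 0 ≤ (1/2 - p n)^(4/3 : ℝ) := Real.rpow_nonneg hδ0 _
        have h4 := mul_le_mul_of_nonneg_right hc1' h3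
        have h5 := mul_le_mul_of_nonneg_left h4 hc1.le
        nlinarith
      · exact (Real.exp_pos _).le
      · positivity
    have hlim : Tendsto (fun n : ℕ => C1 * (1 / ε + 1) *
        Real.exp (-(c1 * ε * ((1/2 - p n) * (n:ℝ)^(3/4 : ℝ))^(4/3 : ℝ)))) atTop (𝓝 0) := by
      have h1 : Tendsto (fun n : ℕ => ((1/2 - p n) * (n:ℝ)^(3/4 : ℝ))^(4/3 : ℝ)) atTop atTop :=
        (tendsto_rpow_atTop (by norm_num : (0:ℝ) < 4/3)).comp hT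
      have h2 : Tendsto (fun n : ℕ => c1 * ε * ((1/2 - p n) * (n:ℝ)^(3/4 : ℝ))^(4/3 : ℝ)) atTop
          atTop := h1.const_mul_atTop (by positivity)
      have h3 := Real.tendsto_exp_neg_atTop_nhds_zero.comp h2
      have h4 := h3.const_mul (C1 * (1 / ε + 1))
      rw [mul_zero] at h4
      exact h4
    refine squeeze_zero' ?_ hbd hlim
    filter_upwards with n
    exact Pr_nonneg (okq (hp n).1 (by linarith [(hp n).2])) _ _

end Pool.Agent.H940.GP
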