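import Pool.Agent.H940.GP.Param

/-!
Gradient percolation: lower bound for the probability that a block is crossed from the bottom of
the strip up to a given height.
-/

set_option maxHeartbeats 1000000

namespace Pool.Agent.H940.GP

open H974 Finset

/-- The lower bound for crossing probabilities (proved in `Pool.Agent.W424.NC.Win`). -/
def WinL : Prop := ∃ c C : ℝ, 0 < c ∧ 0 < C ∧ ∀ p : ℝ, 1/4 ≤ p → p ≤ 1/2 →
    ∀ w h : ℕ, 1 ≤ w → 1 ≤ h → w ≤ 2 * h → h ≤ 2 * w →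
      c * Real.exp (-(C * (w * (1/2 - p)^(4/3 : ℝ)))) ≤ hh p w h

/-- The upper bound for dual crossing probabilities (proved in `Pool.Agent.W424.NC.Win`). -/
def WinD : Prop := ∃ c C : ℝ, 0 < c ∧ 0 < C ∧ ∀ p : ℝ, 1/4 ≤ p → p ≤ 1/2 →
    ∀ w h : ℕ, 1 ≤ w → 1 ≤ h → w ≤ 2 * h → h ≤ 2 * w →
      1 - hh (1 - p) w h ≤ C * Real.exp (-(c * (w * (1/2 - p)^(4/3 : ℝ))))

theorem super (hL : WinL) (hD : WinD) : ∃ c C c0 : ℝ, 0 < c ∧ 0 < C ∧ 0 < c0 ∧ c0 ≤ 1 ∧
    ∀ δ : ℝ, 0 ≤ δ → δ ≤ 1/2 → ∀ w h : ℕ, 1 ≤ w → 1 ≤ h → w ≤ 2 * h → h ≤ 2 * w →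
      c0 ≤ hh (1/2 + δ) w h ∧
      1 - C * Real.exp (-(c * (w * δ^(4/3 : ℝ)))) ≤ hh (1/2 + δ) w h := by
  obtain ⟨c1, C1, hc1, hC1, h1⟩ := hL
  obtain ⟨c2, C2, hc2, hC2, h2⟩ := hD
  refine ⟨c2 / 4, C2, min c1 1, by positivity, hC2, by positivity, min_le_right _ _, ?_⟩
  intro δ hδ0 hδ1 w h hw hh1 hwh hhw
  constructor
  · have e1 := h1 (1/2) (by norm_num) le_rfl w h hw hh1 hwh hhw
    rw [sub_self, Real.zero_rpow (by norm_num), mul_zero, mul_zero, neg_zero, Real.exp_zero,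
      mul_one] at e1
    exact (min_le_left _ _).trans (e1.trans (hh_mono_param (by norm_num) (by linarith)
      (by linarith) _ _))
  · have hm0 : 0 ≤ min δ (1/4) := le_min hδ0 (by norm_num)
    have hm1 : min δ (1/4) ≤ 1/4 := min_le_right _ _
    have hm2 : min δ (1/4) ≤ δ := min_le_left _ _
    have hm3 : δ / 2 ≤ min δ (1/4) := le_min (by linarith) (by linarith)
    have e1 := h2 (1/2 - min δ (1/4)) (by linarith) (by linarith) w h hw hh1 hwh hhw
    have e2 : (1:ℝ) - (1/2 - min δ (1/4)) = 1/2 + min δ (1/4) := by ring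
    have e3 : (1:ℝ)/2 - (1/2 - min δ (1/4)) = min δ (1/4) := by ring
    rw [e2, e3] at e1
    have e4 : hh (1/2 + min δ (1/4)) w h ≤ hh (1/2 + δ) w h :=
      hh_mono_param (by linarith) (by linarith) (by linarith) _ _
    have e5 : Real.exp (-(c2 * (w * (min δ (1/4))^(4/3 : ℝ)))) ≤
        Real.exp (-(c2 / 4 * (w * δ^(4/3 : ℝ)))) := by
      apply Real.exp_le_exp.mpr
      have f1 : (δ / 2)^(4/3 : ℝ) ≤ (min δ (1/4))^(4/3 : ℝ) :=
        Real.rpow_le_rpow (by linarith) hm3 (by norm_num)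
      have f2 : (δ / 2)^(4/3 : ℝ) = δ^(4/3 : ℝ) / 2^(4/3 : ℝ) :=
        Real.div_rpow hδ0 (by norm_num) _
      have f3 : (2:ℝ)^(4/3 : ℝ) ≤ 4 := by
        calc (2:ℝ)^(4/3 : ℝ) ≤ (2:ℝ)^(2 : ℝ) :=
              Real.rpow_le_rpow_of_exponent_le (by norm_num) (by norm_num)
          _ = 4 := by norm_num
      have f4 : 0 < (2:ℝ)^(4/3 : ℝ) := by positivity
      have f5 : 0 ≤ δ^(4/3 : ℝ) := Real.rpow_nonneg hδ0 _
      have f6 : δ^(4/3 : ℝ) / 4 ≤ δ^(4/3 : ℝ) / 2^(4/3 : ℝ) :=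
        div_le_div_of_nonneg_left f5 f4 f3
      have f7 : δ^(4/3 : ℝ) / 4 ≤ (min δ (1/4))^(4/3 : ℝ) := by rw [← f2] at f6; exact f6.trans f1
      have f8 : (0:ℝ) ≤ c2 * w := by positivity
      have f9 := mul_le_mul_of_nonneg_left f7 f8
      nlinarith
    have e6 := mul_le_mul_of_nonneg_left e5 hC2.le
    linarith

/-- A product of factors which tend to one exponentially fast is bounded below. -/
theorem prod_lower {c0 c C : ℝ} (hc0 : 0 < c0) (hc01 : c0 ≤ 1) (hc : 0 < c) (hC : 0 < C) :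
    ∃ κ : ℝ, 0 < κ ∧ ∀ n : ℕ,
      κ ≤ ∏ j ∈ range n, max c0 (1 - C * Real.exp (-(c * (j:ℝ)))) := by
  set ρ : ℝ := Real.exp (-c) with hρ
  have hρ0 : 0 < ρ := Real.exp_pos _
  have hρ1 : ρ < 1 := by
    rw [hρ, ← Real.exp_zero]
    exact Real.exp_lt_exp.mpr (by linarith)
  have hexp : ∀ j : ℕ, Real.exp (-(c * (j:ℝ))) = ρ^j := by
    intro j
    rw [hρ, ← Real.exp_nat_mul]
    congr 1; ring
  obtain ⟨m, hm⟩ : ∃ m : ℕ, C * ρ^m / (1 - ρ) ≤ 1/2 := by
    have h1 : Filter.Tendsto (fun m : ℕ => C * ρ^m / (1 - ρ)) Filter.atTop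
        (nhds (C * 0 / (1 - ρ))) :=
      ((tendsto_pow_atTop_nhds_zero_of_lt_one hρ0.le hρ1).const_mul C).div_const _
    rw [mul_zero, zero_div] at h1
    obtain ⟨m, hm⟩ := (h1.eventually (gt_mem_nhds (by norm_num : (0:ℝ) < 1/2))).exists
    exact ⟨m, hm.le⟩
  have h1ρ : 0 < 1 - ρ := by linarith
  have hx : C * ρ^m ≤ 1/2 := by
    rw [div_le_iff₀ h1ρ] at hm
    nlinarith
  have hlow : ∀ n, c0^n ≤ ∏ j ∈ range n, max c0 (1 - C * Real.exp (-(c * (j:ℝ)))) := by
    intro n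
    calc c0^n = ∏ _j ∈ range n, c0 := by simp
      _ ≤ _ := prod_le_prod (fun _ _ => hc0.le) (fun _ _ => le_max_left _ _)
  have key : ∀ i : ℕ, c0^m * (1 - ∑ j ∈ range i, C * ρ^m * ρ^j) ≤
      ∏ j ∈ range (m + i), max c0 (1 - C * Real.exp (-(c * (j:ℝ)))) := by
    intro i
    induction i with
    | zero => simpa using hlow m
    | succ i ih =>
      rw [← add_assoc, prod_range_succ, sum_range_succ]
      have hxi0 : 0 ≤ C * ρ^m * ρ^i := by positivity
      have hxi1 : C * ρ^m * ρ^i ≤ 1/2 := by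
        have : ρ^i ≤ 1 := pow_le_one₀ hρ0.le hρ1.le
        have h0 : 0 ≤ C * ρ^m := by positivity
        nlinarith
      have hg : 1 - C * ρ^m * ρ^i ≤ max c0 (1 - C * Real.exp (-(c * ((m + i : ℕ):ℝ)))) := by
        rw [hexp, pow_add, ← mul_assoc]
        exact le_max_right _ _
      have hP : 0 ≤ ∏ j ∈ range (m + i), max c0 (1 - C * Real.exp (-(c * (j:ℝ)))) :=
        (pow_pos hc0 _).le.trans (hlow _)
      have hS : 0 ≤ ∑ j ∈ range i, C * ρ^m * ρ^j := sum_nonneg (fun _ _ => by positivity)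
      have hcm : 0 < c0^m := pow_pos hc0 _
      calc c0^m * (1 - (∑ j ∈ range i, C * ρ^m * ρ^j + C * ρ^m * ρ^i))
          ≤ (c0^m * (1 - ∑ j ∈ range i, C * ρ^m * ρ^j)) * (1 - C * ρ^m * ρ^i) := by
            have := mul_nonneg hcm.le (mul_nonneg hS hxi0)
            nlinarith
        _ ≤ _ * (1 - C * ρ^m * ρ^i) := mul_le_mul_of_nonneg_right ih (by linarith)
        _ ≤ _ := mul_le_mul_of_nonneg_left hg hP
  have hgeo : ∀ i : ℕ, ∑ j ∈ range i, C * ρ^m * ρ^j ≤ 1/2 := by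
    intro i
    rw [← mul_sum]
    have h1 : ∑ j ∈ range i, ρ^j ≤ 1 / (1 - ρ) := by
      rw [geom_sum_eq hρ1.ne, ← neg_div_neg_eq]
      apply div_le_div₀ (by norm_num) _ h1ρ (by linarith)
      have : 0 < ρ^i := pow_pos hρ0 _
      linarith
    calc C * ρ^m * ∑ j ∈ range i, ρ^j ≤ C * ρ^m * (1 / (1 - ρ)) :=
          mul_le_mul_of_nonneg_left h1 (by positivity)
      _ = C * ρ^m / (1 - ρ) := by ring
      _ ≤ 1/2 := hm
  refine ⟨c0^m / 2, by positivity, ?_⟩
  intro n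
  have hcm : 0 < c0^m := pow_pos hc0 _
  rcases le_or_gt m n with hmn | hmn
  · obtain ⟨i, rfl⟩ := Nat.exists_eq_add_of_le hmn
    refine le_trans ?_ (key i)
    have := hgeo i
    nlinarith
  · have h1 : c0^m ≤ c0^n := pow_le_pow_of_le_one hc0.le hc01 hmn.le
    have := hlow n
    linarith

theorem block_core (hL : WinL) (hD : WinD) : ∃ c C : ℝ, 0 < c ∧ 0 < C ∧
    ∀ (N h : ℕ) (p : Edg → ℝ), Ok p →
    (∀ x y : ℤ, min 1 (1/2 - (y:ℝ) / (2 * N)) ≤ p (x, y, true)) →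
    (∀ x y : ℤ, min 1 (1/2 - ((y:ℝ) + 1) / (2 * N)) ≤ p (x, y, false)) →
    1 ≤ h → 2 * h ≤ N → (N:ℝ)^(4/3 : ℝ) ≤ (h:ℝ)^(7/3 : ℝ) →
    ∀ (a : ℤ) (S : Finset Edg), TBE a (a + h) (-N) h ⊆ S →
      c * Real.exp (-(C * ((h:ℝ)^(7/3 : ℝ) / (N:ℝ)^(4/3 : ℝ)))) ≤
        Pr p S (TBc a (a + h) (-N) h) := by
  obtain ⟨c, C, c0, hc, hC, hc0, hc01, hsup⟩ := super hL hD
  obtain ⟨c1, C1, hc1, hC1, h1⟩ := hL
  obtain ⟨κ, hκ, hprod⟩ := prod_lower (c := c / 4) hc0 hc01 (by positivity) hC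
  refine ⟨c1 * (κ * κ), C1 * 2, by positivity, by positivity, ?_⟩
  intro N h p hp hpt hpf hh1 hhN hs1 a S hS
  have hN0' : 0 < N := by omega
  have hN0 : (0:ℝ) < N := by exact_mod_cast hN0'
  have hh0 : (1:ℝ) ≤ h := by exact_mod_cast hh1
  have hhN' : 2 * (h:ℝ) ≤ N := by exact_mod_cast hhN
  have hhz : (1:ℤ) ≤ h := by exact_mod_cast hh1
  set s : ℝ := (h:ℝ)^(7/3 : ℝ) / (N:ℝ)^(4/3 : ℝ) with hs
  have hN43 : 0 < (N:ℝ)^(4/3 : ℝ) := by positivity
  have hs1' : 1 ≤ s := by rw [hs, le_div_iff₀ hN43]; linarith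
  have h73 : (h:ℝ)^(7/3 : ℝ) = h * (h:ℝ)^(4/3 : ℝ) := by
    rw [show (7/3 : ℝ) = 1 + 4/3 by norm_num, Real.rpow_add (by linarith), Real.rpow_one]
  -- the parameters
  have hpt' : ∀ (x y : ℤ) (r : ℝ), r ≤ 1 → r ≤ 1/2 - (y:ℝ) / (2 * N) → r ≤ p (x, y, true) :=
    fun x y r h1 h2 => (le_min h1 h2).trans (hpt x y)
  have hpf' : ∀ (x y : ℤ) (r : ℝ), r ≤ 1 → r ≤ 1/2 - ((y:ℝ) + 1) / (2 * N) →
      r ≤ p (x, y, false) := fun x y r h1 h2 => (le_min h1 h2).trans (hpf x y)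
  -- the number of layers
  obtain ⟨n, hn⟩ : ∃ n : ℕ, n = N / h := ⟨_, rfl⟩
  have hn1 : n * h ≤ N := by rw [hn]; exact Nat.div_mul_le_self _ _
  have hn2 : N < n * h + h := by rw [hn]; exact Nat.lt_div_mul_add (by omega)
  set T : Finset Edg := RE a (a + h) (-((n:ℤ) * h + h)) h with hT
  have hTT : TBE a (a + h) (-N) h ⊆ T := by
    rintro ⟨x, y, _ | _⟩ h8
    · simp only [mem_TBE_false, mem_RE_false, hT] at h8 ⊢
      have : (N:ℤ) < n * h + h := by exact_mod_cast hn2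
      omega
    · simp only [mem_TBE_true, mem_RE_true, hT] at h8 ⊢
      have : (N:ℤ) < n * h + h := by exact_mod_cast hn2
      omega
  have hloc : Pr p S (TBc a (a + h) (-N) h) = Pr p T (TBc a (a + h) (-N) h) := by
    rw [pr_TB_loc p hS, pr_TB_loc p hTT]
  -- induction over the layers
  have hchain : ∀ j : ℕ, j ≤ n → c1 * Real.exp (-(C1 * 2 * s)) *
      ∏ i ∈ range j, (max c0 (1 - C * Real.exp (-(c / 4 * (i:ℝ)))) *
        max c0 (1 - C * Real.exp (-(c / 4 * (i:ℝ))))) ≤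
      Pr p T (TBc a (a + h) (-((j:ℤ) * h + h)) h) := by
    intro j
    induction j with
    | zero =>
      intro _
      rw [prod_range_zero, mul_one]
      have hq1 : (h:ℝ) / (2 * N) ≤ 1/4 := by
        rw [div_le_iff₀ (by positivity)]; linarith
      have hq0 : 0 ≤ (h:ℝ) / (2 * N) := by positivity
      have hsub : TBE a (a + h) (-(((0:ℕ):ℤ) * h + h)) h ⊆ T := by
        rintro ⟨x, y, _ | _⟩ h8
        · simp only [mem_TBE_false, mem_RE_false, hT] at h8 ⊢
          have : 0 ≤ (n:ℤ) * h := by positivity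
          push_cast at h8
          omega
        · simp only [mem_TBE_true, mem_RE_true, hT] at h8 ⊢
          have : 0 ≤ (n:ℤ) * h := by positivity
          push_cast at h8
          omega
      have b1 := TB_ge hp (q := 1/2 - h / (2 * N)) (by linarith) (by linarith) hsub (fun e he => by
        obtain ⟨x, y, _ | _⟩ := e
        · simp only [mem_TBE_false] at he
          apply hpf' _ _ _ (by linarith)
          have : (y:ℝ) + 1 ≤ h := by exact_mod_cast (by omega : y + 1 ≤ (h:ℤ))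
          have := div_le_div_of_nonneg_right this (by positivity : (0:ℝ) ≤ 2 * N)
          linarith
        · simp only [mem_TBE_true] at he
          apply hpt' _ _ _ (by linarith)
          have : (y:ℝ) ≤ h := by exact_mod_cast (by omega : y ≤ (h:ℤ))
          have := div_le_div_of_nonneg_right this (by positivity : (0:ℝ) ≤ 2 * N)
          linarith)
      have e1 : (h:ℤ) - (-(((0:ℕ):ℤ) * h + h)) = ((2 * h : ℕ) : ℤ) := by push_cast; ring
      have e2 : a + (h:ℤ) - a = h := by ring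
      rw [e1, e2] at b1
      refine le_trans ?_ b1
      refine le_trans ?_ (h1 (1/2 - h / (2 * N)) (by linarith) (by linarith) (2 * h) h (by omega)
        hh1 le_rfl (by omega))
      apply mul_le_mul_of_nonneg_left _ hc1.le
      apply Real.exp_le_exp.mpr
      have e3 : (1:ℝ)/2 - (1/2 - h / (2 * N)) = h / (2 * N) := by ring
      rw [e3, Real.div_rpow (by linarith) (by positivity), Real.mul_rpow (by norm_num) hN0.le]
      have e4 : (1:ℝ) ≤ (2:ℝ)^(4/3 : ℝ) := Real.one_le_rpow (by norm_num) (by norm_num)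
      have e5 : (h:ℝ)^(4/3 : ℝ) / ((2:ℝ)^(4/3 : ℝ) * (N:ℝ)^(4/3 : ℝ)) ≤
          (h:ℝ)^(4/3 : ℝ) / (N:ℝ)^(4/3 : ℝ) :=
        div_le_div_of_nonneg_left (by positivity) hN43 (by nlinarith)
      have e6 : C1 * 2 * s = C1 * (2 * h * ((h:ℝ)^(4/3 : ℝ) / (N:ℝ)^(4/3 : ℝ))) := by
        rw [hs, h73]; ring
      rw [e6]
      push_cast
      have e7 := mul_le_mul_of_nonneg_left e5 (by positivity : (0:ℝ) ≤ C1 * (2 * h))
      nlinarith
    | succ j ih =>
      intro hj
      have ih' := ih (by omega)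
      rw [prod_range_succ]
      have hjN : j * h ≤ N := (Nat.mul_le_mul_right h (by omega : j ≤ n)).trans hn1
      have hjN' : (j:ℝ) * h ≤ N := by exact_mod_cast hjN
      set δ : ℝ := (j:ℝ) * h / (2 * N) with hδ
      have hδ0 : 0 ≤ δ := by positivity
      have hδ1 : δ ≤ 1/2 := by
        rw [hδ, div_le_iff₀ (by positivity)]; linarith
      have hjh : (j:ℤ) * h + h + h ≤ n * h + h := by
        have : (j + 1) * h ≤ n * h := Nat.mul_le_mul_right h hj
        have : ((j:ℤ) + 1) * h ≤ n * h := by exact_mod_cast this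
        linarith
      have hjh0 : 0 ≤ (j:ℤ) * h := by positivity
      have hsubV : TBE a (a + h) (-((j:ℤ) * h + h + h)) (-((j:ℤ) * h)) ⊆ T := by
        rintro ⟨x, y, _ | _⟩ h8
        · simp only [mem_TBE_false, mem_RE_false, hT] at h8 ⊢
          omega
        · simp only [mem_TBE_true, mem_RE_true, hT] at h8 ⊢
          omega
      have hsubH : LRE a (a + h) (-((j:ℤ) * h + h)) (-((j:ℤ) * h)) ⊆ T := by
        rintro ⟨x, y, _ | _⟩ h8
        · simp only [mem_LRE_false, mem_RE_false, hT] at h8 ⊢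
          omega
        · simp only [mem_LRE_true, mem_RE_true, hT] at h8 ⊢
          omega
      have hpar : ∀ (y : ℤ), y ≤ -((j:ℤ) * h) → 1/2 + δ ≤ 1/2 - (y:ℝ) / (2 * N) := by
        intro y hy
        have h2 : (j:ℝ) * h ≤ -(y:ℝ) := by
          have : (j:ℤ) * h ≤ -y := by omega
          exact_mod_cast this
        have h3 := div_le_div_of_nonneg_right h2 (by positivity : (0:ℝ) ≤ 2 * N)
        rw [neg_div] at h3
        rw [hδ]
        linarith
      have hpar' : ∀ (y : ℤ), y + 1 ≤ -((j:ℤ) * h) →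
          1/2 + δ ≤ 1/2 - ((y:ℝ) + 1) / (2 * N) := by
        intro y hy
        have := hpar (y + 1) hy
        push_cast at this
        exact this
      have bV := TB_ge hp (q := 1/2 + δ) (by linarith) (by linarith) hsubV (fun e he => by
        obtain ⟨x, y, _ | _⟩ := e
        · simp only [mem_TBE_false] at he
          exact hpf' _ _ _ (by linarith) (hpar' y (by omega))
        · simp only [mem_TBE_true] at he
          exact hpt' _ _ _ (by linarith) (hpar y (by omega)))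
      have bH := LR_ge hp (q := 1/2 + δ) (by linarith) (by linarith) hsubH (fun e he => by
        obtain ⟨x, y, _ | _⟩ := e
        · simp only [mem_LRE_false] at he
          exact hpf' _ _ _ (by linarith) (hpar' y (by omega))
        · simp only [mem_LRE_true] at he
          exact hpt' _ _ _ (by linarith) (hpar y (by omega)))
      have e1 : -((j:ℤ) * h) - (-((j:ℤ) * h + h + h)) = ((2 * h : ℕ) : ℤ) := by push_cast; ring
      have e2 : a + (h:ℤ) - a = h := by ring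
      have e3 : -((j:ℤ) * h) - (-((j:ℤ) * h + h)) = h := by ring
      rw [e1, e2] at bV
      rw [e2, e3] at bH
      obtain ⟨v1, v2⟩ := hsup δ hδ0 hδ1 (2 * h) h (by omega) hh1 le_rfl (by omega)
      obtain ⟨w1, w2⟩ := hsup δ hδ0 hδ1 h h hh1 hh1 (by omega) (by omega)
      -- the exponent
      have hδw : (j:ℝ) / 4 ≤ h * δ^(4/3 : ℝ) := by
        rcases Nat.eq_zero_or_pos j with hj0 | hj0
        · rw [hj0]
          simp only [Nat.cast_zero, zero_div]
          positivity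
        · have hj1 : (1:ℝ) ≤ j := by exact_mod_cast hj0
          have e5 : δ^(4/3 : ℝ) = (j:ℝ)^(4/3 : ℝ) * (h:ℝ)^(4/3 : ℝ) /
              ((2:ℝ)^(4/3 : ℝ) * (N:ℝ)^(4/3 : ℝ)) := by
            rw [hδ, Real.div_rpow (by positivity) (by positivity),
              Real.mul_rpow (by linarith) (by linarith), Real.mul_rpow (by norm_num) hN0.le]
          have f3 : (2:ℝ)^(4/3 : ℝ) ≤ 4 := by
            calc (2:ℝ)^(4/3 : ℝ) ≤ (2:ℝ)^(2 : ℝ) :=
                  Real.rpow_le_rpow_of_exponent_le (by norm_num) (by norm_num)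
              _ = 4 := by norm_num
          have f4 : 0 < (2:ℝ)^(4/3 : ℝ) := by positivity
          have f5 : (j:ℝ) ≤ (j:ℝ)^(4/3 : ℝ) := by
            calc (j:ℝ) = (j:ℝ)^(1:ℝ) := (Real.rpow_one _).symm
              _ ≤ _ := Real.rpow_le_rpow_of_exponent_le hj1 (by norm_num)
          have f6 : h * δ^(4/3 : ℝ) = (j:ℝ)^(4/3 : ℝ) * s / (2:ℝ)^(4/3 : ℝ) := by
            rw [e5, hs, h73]
            field_simp
          rw [f6, div_le_div_iff₀ (by norm_num) f4]
          have f7 : (j:ℝ) ≤ (j:ℝ)^(4/3 : ℝ) * s := by nlinarith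
          nlinarith
      have hE1 : Real.exp (-(c * (h * δ^(4/3 : ℝ)))) ≤ Real.exp (-(c / 4 * (j:ℝ))) := by
        apply Real.exp_le_exp.mpr
        have := mul_le_mul_of_nonneg_left hδw hc.le
        nlinarith
      have hE2 : Real.exp (-(c * (((2 * h : ℕ):ℝ) * δ^(4/3 : ℝ)))) ≤
          Real.exp (-(c / 4 * (j:ℝ))) := by
        refine le_trans (Real.exp_le_exp.mpr ?_) hE1
        have h9 : 0 ≤ c * (h * δ^(4/3 : ℝ)) := by positivity
        push_cast
        nlinarith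
      have gV : max c0 (1 - C * Real.exp (-(c / 4 * (j:ℝ)))) ≤
          Pr p T (TBc a (a + h) (-((j:ℤ) * h + h + h)) (-((j:ℤ) * h))) := by
        refine (max_le v1 ?_).trans bV
        have := mul_le_mul_of_nonneg_left hE2 hC.le
        linarith
      have gH : max c0 (1 - C * Real.exp (-(c / 4 * (j:ℝ)))) ≤
          Pr p T (LRc a (a + h) (-((j:ℤ) * h + h)) (-((j:ℤ) * h))) := by
        refine (max_le w1 ?_).trans bH
        have := mul_le_mul_of_nonneg_left hE1 hC.le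
        linarith
      -- positive association
      have i1 := Pr_harris hp (TBc_incr T a (a + h) (-((j:ℤ) * h + h)) h)
        (TBc_incr T a (a + h) (-((j:ℤ) * h + h + h)) (-((j:ℤ) * h)))
      have hinc : IncrE T (fun F => TBc a (a + h) (-((j:ℤ) * h + h)) h F ∧
          TBc a (a + h) (-((j:ℤ) * h + h + h)) (-((j:ℤ) * h)) F) :=
        fun F G hFG _ hF => ⟨hF.1.mono hFG, hF.2.mono hFG⟩
      have i2 := Pr_harris hp hinc (LRc_incr T a (a + h) (-((j:ℤ) * h + h)) (-((j:ℤ) * h)))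
      have i3 : Pr p T (fun F => (TBc a (a + h) (-((j:ℤ) * h + h)) h F ∧
          TBc a (a + h) (-((j:ℤ) * h + h + h)) (-((j:ℤ) * h)) F) ∧
          LRc a (a + h) (-((j:ℤ) * h + h)) (-((j:ℤ) * h)) F) ≤
          Pr p T (TBc a (a + h) (-(((j + 1 : ℕ):ℤ) * h + h)) h) := by
        apply Pr_mono hp
        rintro F - ⟨⟨hA, hB⟩, hC'⟩
        have e9 : -(((j + 1 : ℕ):ℤ) * h + h) = -((j:ℤ) * h + h + h) := by push_cast; ring
        rw [e9]
        exact glueT (by omega) (by omega) (by omega) (by omega) hB hA hC'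
      set g : ℝ := max c0 (1 - C * Real.exp (-(c / 4 * (j:ℝ)))) with hg
      have hg0 : 0 ≤ g := hc0.le.trans (le_max_left _ _)
      have hPA : 0 ≤ Pr p T (TBc a (a + h) (-((j:ℤ) * h + h)) h) := Pr_nonneg hp _ _
      calc c1 * Real.exp (-(C1 * 2 * s)) *
            ((∏ i ∈ range j, (max c0 (1 - C * Real.exp (-(c / 4 * (i:ℝ)))) *
              max c0 (1 - C * Real.exp (-(c / 4 * (i:ℝ)))))) * (g * g))
          = (c1 * Real.exp (-(C1 * 2 * s)) *
            ∏ i ∈ range j, (max c0 (1 - C * Real.exp (-(c / 4 * (i:ℝ)))) *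
              max c0 (1 - C * Real.exp (-(c / 4 * (i:ℝ)))))) * (g * g) := by ring
        _ ≤ Pr p T (TBc a (a + h) (-((j:ℤ) * h + h)) h) * (g * g) :=
            mul_le_mul_of_nonneg_right ih' (by positivity)
        _ = (Pr p T (TBc a (a + h) (-((j:ℤ) * h + h)) h) * g) * g := by ring
        _ ≤ (Pr p T (TBc a (a + h) (-((j:ℤ) * h + h)) h) *
            Pr p T (TBc a (a + h) (-((j:ℤ) * h + h + h)) (-((j:ℤ) * h)))) * g :=
            mul_le_mul_of_nonneg_right (mul_le_mul_of_nonneg_left gV hPA) hg0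
        _ ≤ _ * g := mul_le_mul_of_nonneg_right i1 hg0
        _ ≤ _ * Pr p T (LRc a (a + h) (-((j:ℤ) * h + h)) (-((j:ℤ) * h))) :=
            mul_le_mul_of_nonneg_left gH (Pr_nonneg hp _ _)
        _ ≤ _ := i2
        _ ≤ _ := i3
  have hfin := hchain n le_rfl
  rw [hloc]
  have hsub : Pr p T (TBc a (a + h) (-((n:ℤ) * h + h)) h) ≤ Pr p T (TBc a (a + h) (-N) h) := by
    apply Pr_mono hp
    intro F _ hF
    have : (N:ℤ) < n * h + h := by exact_mod_cast hn2
    exact TBc_sub (by omega) (by omega) le_rfl le_rfl le_rfl hF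
  refine le_trans ?_ (hfin.trans hsub)
  rw [prod_mul_distrib]
  have hκn := hprod n
  have hE0 : 0 < Real.exp (-(C1 * 2 * s)) := Real.exp_pos _
  have hcE : 0 < c1 * Real.exp (-(C1 * 2 * s)) := by positivity
  calc c1 * (κ * κ) * Real.exp (-(C1 * 2 * s))
      = (c1 * Real.exp (-(C1 * 2 * s))) * (κ * κ) := by ring
    _ ≤ _ := mul_le_mul_of_nonneg_left (mul_le_mul hκn hκn hκ.le (hκ.le.trans hκn)) hcE.le

end Pool.Agent.H940.GP
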