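import Pool.Agent.H974R2.Cross

/-!
Crossing probabilities of rectangles for parameters which depend on the edge.
-/

set_option maxHeartbeats 1000000

namespace Pool.Agent.H940.GP

open H974 Finset

/-- `Pr` depends only on the parameters on the ground set. -/
theorem Pr_congr_p {p q : Edg → ℝ} {S : Finset Edg} (h : ∀ e ∈ S, p e = q e)
    (A : Finset Edg → Prop) : Pr p S A = Pr q S A := by
  unfold Pr Ex
  apply Finset.sum_congr rfl
  intro F hF
  rw [Finset.mem_powerset] at hF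
  rw [Finset.prod_congr rfl (fun e he => h e (hF he))]
  congr 2
  exact Finset.prod_congr rfl (fun e he => by rw [h e (Finset.mem_sdiff.mp he).1])

theorem Pr_mono_on {p q : Edg → ℝ} (hp : Ok p) (hq : Ok q) {S : Finset Edg}
    (h : ∀ e ∈ S, p e ≤ q e) {A : Finset Edg → Prop} (hA : IncrE S A) : Pr p S A ≤ Pr q S A := by
  classical
  have e1 : Pr p S A = Pr (fun e => if e ∈ S then p e else q e) S A :=
    Pr_congr_p (fun e he => by simp [he]) A
  rw [e1]
  refine Pr_mono_param ?_ hq ?_ hA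
  · intro e
    by_cases he : e ∈ S
    · simpa [he] using hp e
    · simpa [he] using hq e
  · intro e
    by_cases he : e ∈ S
    · simpa [he] using h e he
    · simp [he]

theorem pr_LR_loc (p : Edg → ℝ) {a b c d : ℤ} {S : Finset Edg} (hS : LRE a b c d ⊆ S) :
    Pr p S (LRc a b c d) = Pr p (LRE a b c d) (LRc a b c d) :=
  Pr_local hS (fun _ _ => LRc_local (Finset.Subset.refl _))

theorem pr_TB_loc (p : Edg → ℝ) {a b c d : ℤ} {S : Finset Edg} (hS : TBE a b c d ⊆ S) :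
    Pr p S (TBc a b c d) = Pr p (TBE a b c d) (TBc a b c d) :=
  Pr_local hS (fun _ _ => TBc_local (Finset.Subset.refl _))

theorem LR_le {p : Edg → ℝ} (hp : Ok p) {q : ℝ} (h0 : 0 ≤ q) (h1 : q ≤ 1) {a b c d : ℤ}
    {S : Finset Edg} (hS : LRE a b c d ⊆ S) (h : ∀ e ∈ LRE a b c d, p e ≤ q) :
    Pr p S (LRc a b c d) ≤ hh q (b - a) (d - c) := by
  rw [pr_LR_loc p hS, ← pr_LRc q (Finset.Subset.refl (LRE a b c d))]
  exact Pr_mono_on hp (okq h0 h1) h (LRc_incr _ _ _ _ _)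

theorem LR_ge {p : Edg → ℝ} (hp : Ok p) {q : ℝ} (h0 : 0 ≤ q) (h1 : q ≤ 1) {a b c d : ℤ}
    {S : Finset Edg} (hS : LRE a b c d ⊆ S) (h : ∀ e ∈ LRE a b c d, q ≤ p e) :
    hh q (b - a) (d - c) ≤ Pr p S (LRc a b c d) := by
  rw [pr_LR_loc p hS, ← pr_LRc q (Finset.Subset.refl (LRE a b c d))]
  exact Pr_mono_on (okq h0 h1) hp h (LRc_incr _ _ _ _ _)

theorem TB_le {p : Edg → ℝ} (hp : Ok p) {q : ℝ} (h0 : 0 ≤ q) (h1 : q ≤ 1) {a b c d : ℤ}
    {S : Finset Edg} (hS : TBE a b c d ⊆ S) (h : ∀ e ∈ TBE a b c d, p e ≤ q) :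
    Pr p S (TBc a b c d) ≤ hh q (d - c) (b - a) := by
  rw [pr_TB_loc p hS, ← pr_TBc q (Finset.Subset.refl (TBE a b c d))]
  exact Pr_mono_on hp (okq h0 h1) h (TBc_incr _ _ _ _ _)

theorem TB_ge {p : Edg → ℝ} (hp : Ok p) {q : ℝ} (h0 : 0 ≤ q) (h1 : q ≤ 1) {a b c d : ℤ}
    {S : Finset Edg} (hS : TBE a b c d ⊆ S) (h : ∀ e ∈ TBE a b c d, q ≤ p e) :
    hh q (d - c) (b - a) ≤ Pr p S (TBc a b c d) := by
  rw [pr_TB_loc p hS, ← pr_TBc q (Finset.Subset.refl (TBE a b c d))]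
  exact Pr_mono_on (okq h0 h1) hp h (TBc_incr _ _ _ _ _)

/-- union bound -/
theorem Pr_exists_le {p : Edg → ℝ} (hp : Ok p) (S : Finset Edg) (A : ℕ → Finset Edg → Prop)
    {ε : ℝ} (n : ℕ) (h : ∀ j < n, Pr p S (A j) ≤ ε) :
    Pr p S (fun F => ∃ j < n, A j F) ≤ n * ε := by
  induction n with
  | zero =>
    have h1 : Pr p S (fun F => ∃ j < 0, A j F) ≤ Pr p S (fun _ => False) :=
      Pr_mono hp (fun F _ hF => by obtain ⟨j, hj, -⟩ := hF; omega)
    have h2 : Pr p S (fun _ => False) = 0 := by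
      have h3 := Pr_not (p := p) S (fun _ : Finset Edg => True)
      rw [Pr_true (p := p) S (A := fun _ : Finset Edg => True) (fun _ _ => trivial)] at h3
      simpa using h3
    rw [h2] at h1
    simpa using h1
  | succ n ih =>
    have h1 : Pr p S (fun F => ∃ j < n + 1, A j F) ≤
        Pr p S (fun F => (∃ j < n, A j F) ∨ A n F) := by
      apply Pr_mono hp
      rintro F - ⟨j, hj, hA⟩
      rcases Nat.lt_succ_iff_lt_or_eq.mp hj with h2 | h2
      · exact Or.inl ⟨j, h2, hA⟩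
      · subst h2; exact Or.inr hA
    have h2 := Pr_or_le hp S (fun F => ∃ j < n, A j F) (A n)
    have h3 := ih (fun j hj => h j (by omega))
    have h4 := h n (by omega)
    push_cast
    linarith

/-- Gluing of two vertical crossings through a horizontal one. -/
theorem glueT {F : Finset Edg} {a b c d c' d' : ℤ} (h1 : c ≤ c') (h2 : c' < d) (h3 : d ≤ d')
    (hab : a < b) (hA : TBc a b c d F) (hB : TBc a b c' d' F) (hC : LRc a b c' d F) :
    TBc a b c d' F := by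
  have := glue (F := tps.mp F) h1 h2 h3 hab (LRc_tps hA) (LRc_tps hB) (TBc_tps hC)
  exact LRc_tps_iff.mp this

end Pool.Agent.H940.GP
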