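import Pool.Agent.H940.GP.Det

/-!
Gradient percolation: the upper bound for the height of the front.
-/

set_option maxHeartbeats 1000000

namespace Pool.Agent.H940.GP

open H974 Finset

/-- The upper bound for crossing probabilities (proved in `Pool.Agent.W424.NC.Win`). -/
def WinU : Prop := ∃ c C : ℝ, 0 < c ∧ 0 < C ∧ ∀ p : ℝ, 0 ≤ p → p ≤ 1/2 →
    ∀ w h : ℕ, 1 ≤ w → w ≤ 3 * h → h ≤ 3 * w →
      hh p w h ≤ C * Real.exp (-(c * (w * (1/2 - p)^(4/3 : ℝ))))

theorem up_core (hW : WinU) : ∃ c C : ℝ, 0 < c ∧ 0 < C ∧ ∀ (N : ℕ) (p : Edg → ℝ), 1 ≤ N → Ok p →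
    (∀ (x y : ℤ) (b : Bool), 1 ≤ y → p (x, y, b) ≤ max 0 (1/2 - ((y:ℝ) - 1) / (2 * N))) →
    ∀ (S : Finset Edg) (ℓ h : ℕ), 1 ≤ h → h ≤ N + 1 →
      Pr p S (TBc 0 ℓ ((h:ℤ) - (h/2 : ℕ)) h) ≤
        C * ((ℓ:ℝ) / h + 1) * Real.exp (-(c * ((h:ℝ)^(7/3 : ℝ) / (N:ℝ)^(4/3 : ℝ)))) := by
  obtain ⟨c, C, hc, hC, hw⟩ := hW
  refine ⟨c / 48, 9 * C + Real.exp c, by positivity, by positivity, ?_⟩
  intro N p hN hp hpu S ℓ h hh1 hhN
  have hN1 : (1:ℝ) ≤ N := by exact_mod_cast hN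
  have hN0 : (0:ℝ) < N := by linarith
  have hh0 : (1:ℝ) ≤ h := by exact_mod_cast hh1
  have hhN' : (h:ℝ) ≤ N + 1 := by exact_mod_cast hhN
  have hlh : (0:ℝ) ≤ (ℓ:ℝ) / h := by positivity
  set s : ℝ := (h:ℝ)^(7/3 : ℝ) / (N:ℝ)^(4/3 : ℝ) with hs
  have hs0 : 0 ≤ s := by positivity
  rcases lt_or_ge h 4 with h4 | h4
  · -- small heights: trivial bound
    have hle1 : Pr p S (TBc 0 ℓ ((h:ℤ) - (h/2 : ℕ)) h) ≤ 1 := Pr_le_one hp _ _
    have hs27 : s ≤ 27 := by
      have e1 : (h:ℝ)^(7/3 : ℝ) ≤ 27 := by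
        have e2 : (h:ℝ) ≤ 3 := by exact_mod_cast Nat.lt_succ_iff.mp h4
        calc (h:ℝ)^(7/3 : ℝ) ≤ (3:ℝ)^(7/3 : ℝ) :=
              Real.rpow_le_rpow (by linarith) e2 (by norm_num)
          _ ≤ (3:ℝ)^(3 : ℝ) := Real.rpow_le_rpow_of_exponent_le (by norm_num) (by norm_num)
          _ = 27 := by norm_num
      have e3 : 1 ≤ (N:ℝ)^(4/3 : ℝ) := Real.one_le_rpow hN1 (by norm_num)
      rw [hs, div_le_iff₀ (by linarith)]
      nlinarith
    have e4 : 1 ≤ Real.exp c * Real.exp (-(c / 48 * s)) := by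
      rw [← Real.exp_add]
      apply Real.one_le_exp
      nlinarith
    have e5 : 0 < Real.exp (-(c / 48 * s)) := Real.exp_pos _
    calc Pr p S (TBc 0 ℓ ((h:ℤ) - (h/2 : ℕ)) h) ≤ 1 := hle1
      _ ≤ Real.exp c * Real.exp (-(c / 48 * s)) := e4
      _ ≤ (9 * C + Real.exp c) * ((ℓ:ℝ) / h + 1) * Real.exp (-(c / 48 * s)) := by
          apply mul_le_mul_of_nonneg_right _ e5.le
          nlinarith [Real.exp_pos c, mul_nonneg hC.le hlh, mul_nonneg (Real.exp_pos c).le hlh]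
  · -- the main case
    obtain ⟨k, hk⟩ : ∃ k : ℕ, k = h / 2 := ⟨_, rfl⟩
    have hk1 : 1 ≤ k := by omega
    have hk3 : h ≤ 3 * k := by omega
    have hk2 : 2 * k ≤ h := by omega
    rw [← hk]
    obtain ⟨m, hm⟩ : ∃ m : ℤ, m = (h:ℤ) - k := ⟨_, rfl⟩
    have hm2 : (h:ℤ) ≤ 2 * m := by omega
    have hmk : (h:ℤ) = m + k := by omega
    rw [← hm]
    set p0 : ℝ := 1/2 - h / (8 * N) with hp0
    have hfrac : (h:ℝ) / (8 * N) ≤ 1/4 := by
      rw [div_le_iff₀ (by positivity)]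
      linarith
    have hfrac0 : 0 ≤ (h:ℝ) / (8 * N) := by positivity
    have hp00 : 0 ≤ p0 := by rw [hp0]; linarith
    have hp01 : p0 ≤ 1/2 := by rw [hp0]; linarith
    have hpy : ∀ (x y : ℤ) (b : Bool), m ≤ y → p (x, y, b) ≤ p0 := by
      intro x y b hy
      have h1 : 1 ≤ y := by omega
      refine (hpu x y b h1).trans (max_le hp00 ?_)
      have h2 : (h:ℝ) ≤ 2 * y := by
        have : (h:ℤ) ≤ 2 * y := by omega
        exact_mod_cast this
      have h4' : (4:ℝ) ≤ h := by exact_mod_cast h4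
      rw [hp0]
      have h3 : (h:ℝ) / (8 * N) ≤ ((y:ℝ) - 1) / (2 * N) := by
        rw [div_le_div_iff₀ (by positivity) (by positivity)]
        nlinarith
      linarith
    -- the probability of one window
    set E : ℝ := Real.exp (-(c / 48 * s)) with hE
    have hk0 : (1:ℝ) ≤ k := by exact_mod_cast hk1
    have hexp : Real.exp (-(c * (k * (1/2 - p0)^(4/3 : ℝ)))) ≤ E := by
      rw [hE]
      apply Real.exp_le_exp.mpr
      have h1 : 1/2 - p0 = h / (8 * N) := by rw [hp0]; ring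
      rw [h1, Real.div_rpow (by linarith) (by positivity), Real.mul_rpow (by norm_num) hN0.le]
      have h8 : (8:ℝ)^(4/3 : ℝ) = 16 := by
        have : (8:ℝ) = (2:ℝ)^(3:ℝ) := by norm_num
        rw [this, ← Real.rpow_mul (by norm_num)]
        norm_num
      have h73 : (h:ℝ)^(7/3 : ℝ) = h * (h:ℝ)^(4/3 : ℝ) := by
        rw [show (7/3 : ℝ) = 1 + 4/3 by norm_num, Real.rpow_add (by linarith), Real.rpow_one]
      rw [h8, hs, h73]
      have hN43 : 0 < (N:ℝ)^(4/3 : ℝ) := by positivity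
      have hh43 : 0 < (h:ℝ)^(4/3 : ℝ) := by positivity
      have hkh : (h:ℝ) ≤ 3 * k := by exact_mod_cast hk3
      have : c / 48 * (h * (h:ℝ)^(4/3 : ℝ) / (N:ℝ)^(4/3 : ℝ)) ≤
          c * (k * ((h:ℝ)^(4/3 : ℝ) / (16 * (N:ℝ)^(4/3 : ℝ)))) := by
        have e1 : c / 48 * (h * (h:ℝ)^(4/3 : ℝ) / (N:ℝ)^(4/3 : ℝ)) =
            (c * (h:ℝ)^(4/3 : ℝ) / (48 * (N:ℝ)^(4/3 : ℝ))) * h := by
          field_simp
        have e2 : c * (k * ((h:ℝ)^(4/3 : ℝ) / (16 * (N:ℝ)^(4/3 : ℝ)))) =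
            (c * (h:ℝ)^(4/3 : ℝ) / (48 * (N:ℝ)^(4/3 : ℝ))) * (3 * k) := by
          field_simp
          ring
        rw [e1, e2]
        apply mul_le_mul_of_nonneg_left hkh
        positivity
      linarith
    have hw1 := hw p0 hp00 hp01 k (3 * k) hk1 (by omega) (by omega)
    have hw2 := hw p0 hp00 hp01 k k hk1 (by omega) (by omega)
    have hCE : C * Real.exp (-(c * (k * (1/2 - p0)^(4/3 : ℝ)))) ≤ C * E :=
      mul_le_mul_of_nonneg_left hexp hC.le
    -- the enlarged ground set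
    set T : Finset Edg := S ∪ RE (-(k:ℤ)) (ℓ + 2 * k) m h with hT
    have hST : Pr p S (TBc 0 ℓ m h) ≤ Pr p T (TBc 0 ℓ m h) :=
      Pr_mono_set hp Finset.subset_union_left (TBc_incr _ _ _ _ _)
    have hev : Pr p T (TBc 0 ℓ m h) ≤ Pr p T (fun F => ∃ j < ℓ / k + 1,
      TBc (((j:ℕ):ℤ) * k - k) (j * k + 2 * k) m (m + k) F ∨
      LRc (((j:ℕ):ℤ) * k - k) (j * k) m (m + k) F ∨
      LRc (((j:ℕ):ℤ) * k + k) (j * k + 2 * k) m (m + k) F) := by
      apply Pr_mono hp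
      intro F _ hF
      rw [hmk] at hF
      exact TB_windows hk1 hF
    have hbd := Pr_exists_le hp T (fun j F =>
      TBc (((j:ℕ):ℤ) * k - k) (j * k + 2 * k) m (m + k) F ∨
      LRc (((j:ℕ):ℤ) * k - k) (j * k) m (m + k) F ∨
      LRc (((j:ℕ):ℤ) * k + k) (j * k + 2 * k) m (m + k) F) (ε := 3 * (C * E)) (ℓ / k + 1) (by
        intro j hj
        have hjk : (j:ℤ) * k ≤ ℓ := by
          have h1 : j * k ≤ ℓ := by
            have h2 : j ≤ ℓ / k := by omega
            calc j * k ≤ ℓ / k * k := Nat.mul_le_mul_right _ h2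
              _ ≤ ℓ := Nat.div_mul_le_self _ _
          exact_mod_cast h1
        have hjk0 : 0 ≤ (j:ℤ) * k := by positivity
        have hsub1 : TBE ((j:ℤ) * k - k) (j * k + 2 * k) m (m + k) ⊆ T := by
          refine Finset.Subset.trans ?_ Finset.subset_union_right
          rintro ⟨x, y, _ | _⟩ h8
          · simp only [mem_TBE_false, mem_RE_false] at h8 ⊢; omega
          · simp only [mem_TBE_true, mem_RE_true] at h8 ⊢; omega
        have hsub2 : LRE ((j:ℤ) * k - k) (j * k) m (m + k) ⊆ T := by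
          refine Finset.Subset.trans ?_ Finset.subset_union_right
          rintro ⟨x, y, _ | _⟩ h8
          · simp only [mem_LRE_false, mem_RE_false] at h8 ⊢; omega
          · simp only [mem_LRE_true, mem_RE_true] at h8 ⊢; omega
        have hsub3 : LRE ((j:ℤ) * k + k) (j * k + 2 * k) m (m + k) ⊆ T := by
          refine Finset.Subset.trans ?_ Finset.subset_union_right
          rintro ⟨x, y, _ | _⟩ h8
          · simp only [mem_LRE_false, mem_RE_false] at h8 ⊢; omega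
          · simp only [mem_LRE_true, mem_RE_true] at h8 ⊢; omega
        have b1 := TB_le hp hp00 (by linarith) hsub1 (fun e he => by
          obtain ⟨x, y, _ | _⟩ := e
          · simp only [mem_TBE_false] at he; exact hpy _ _ _ (by omega)
          · simp only [mem_TBE_true] at he; exact hpy _ _ _ (by omega))
        have b2 := LR_le hp hp00 (by linarith) hsub2 (fun e he => by
          obtain ⟨x, y, _ | _⟩ := e
          · simp only [mem_LRE_false] at he; exact hpy _ _ _ (by omega)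
          · simp only [mem_LRE_true] at he; exact hpy _ _ _ (by omega))
        have b3 := LR_le hp hp00 (by linarith) hsub3 (fun e he => by
          obtain ⟨x, y, _ | _⟩ := e
          · simp only [mem_LRE_false] at he; exact hpy _ _ _ (by omega)
          · simp only [mem_LRE_true] at he; exact hpy _ _ _ (by omega))
        have e1 : m + (k:ℤ) - m = k := by ring
        have e2 : (j:ℤ) * k + 2 * k - (j * k - k) = ((3 * k : ℕ) : ℤ) := by push_cast; ring
        have e3 : (j:ℤ) * k - (j * k - k) = k := by ring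
        have e4 : (j:ℤ) * k + 2 * k - (j * k + k) = k := by ring
        rw [e1, e2] at b1
        rw [e1, e3] at b2
        rw [e1, e4] at b3
        have u1 := Pr_or_le hp T (TBc ((j:ℤ) * k - k) (j * k + 2 * k) m (m + k))
          (fun F => LRc ((j:ℤ) * k - k) (j * k) m (m + k) F ∨
            LRc ((j:ℤ) * k + k) (j * k + 2 * k) m (m + k) F)
        have u2 := Pr_or_le hp T (LRc ((j:ℤ) * k - k) (j * k) m (m + k))
          (LRc ((j:ℤ) * k + k) (j * k + 2 * k) m (m + k))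
        linarith)
    have hnum : (((ℓ / k + 1 : ℕ)) : ℝ) ≤ 3 * ((ℓ:ℝ) / h + 1) := by
      have h1 : ((ℓ / k : ℕ) : ℝ) ≤ (ℓ:ℝ) / k := Nat.cast_div_le
      have h2 : (ℓ:ℝ) / k ≤ 3 * ((ℓ:ℝ) / h) := by
        rw [div_le_iff₀ (by linarith)]
        have hkh : (h:ℝ) ≤ 3 * k := by exact_mod_cast hk3
        have : 3 * ((ℓ:ℝ) / h) * k = ((ℓ:ℝ) / h) * (3 * k) := by ring
        rw [this]
        calc (ℓ:ℝ) = ((ℓ:ℝ) / h) * h := by field_simp
          _ ≤ ((ℓ:ℝ) / h) * (3 * k) := mul_le_mul_of_nonneg_left hkh hlh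
      push_cast
      linarith
    have hE0 : 0 < E := Real.exp_pos _
    calc Pr p S (TBc 0 ℓ m h) ≤ _ := hST.trans (hev.trans hbd)
      _ ≤ (3 * ((ℓ:ℝ) / h + 1)) * (3 * (C * E)) :=
          mul_le_mul_of_nonneg_right hnum (by positivity)
      _ ≤ (9 * C + Real.exp c) * ((ℓ:ℝ) / h + 1) * E := by
          have : 0 ≤ Real.exp c * ((ℓ:ℝ) / h + 1) * E := by positivity
          nlinarith

end Pool.Agent.H940.GP
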